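import Mathlib

open MeasureTheory Set
open scoped ENNReal RealInnerProductSpace

namespace Pool.Agent.Helper584.KS

/-- dot product of two vectors -/
def dp {n : ℕ} (x y : Fin n → ℝ) : ℝ := ∑ i, x i * y i

/-- prepend a coordinate -/
def cn {n : ℕ} (s : ℝ) (v : Fin n → ℝ) : Fin (n + 1) → ℝ := Fin.cons s v

/-- forget the first coordinate -/
def tl {n : ℕ} (y : Fin (n + 1) → ℝ) : Fin n → ℝ := fun i => y i.succ

/-- bounded measurable nonnegative functions with bounded support -/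
structure Good {n : ℕ} (f : (Fin n → ℝ) → ℝ) : Prop where
  meas : Measurable f
  nonneg : ∀ x, 0 ≤ f x
  bdd : ∃ M, ∀ x, f x ≤ M
  supp : ∃ R, ∀ x, f x ≠ 0 → ∀ i, |x i| ≤ R

/-- the functional Santalo inequality, first function centred -/
def PA (n : ℕ) : Prop := ∀ f g : (Fin n → ℝ) → ℝ, Good f → Good g →
  (∀ x y, f x * g y ≤ Real.exp (-dp x y)) → (∀ i, ∫ x, x i * f x = 0) →
  (∫ x, f x) * (∫ y, g y) ≤ (2 * Real.pi) ^ n

/-- the functional Santalo inequality after a translation of the first function -/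
def PB (n : ℕ) : Prop := ∀ f g : (Fin n → ℝ) → ℝ, Good f → Good g →
  (∀ x y, f x * g y ≤ Real.exp (-dp x y)) →
  ∃ z : Fin n → ℝ, (∫ x, f x) * (∫ y, g y * Real.exp (dp z y)) ≤ (2 * Real.pi) ^ n

/-- Euclidean space -/
abbrev E (n : ℕ) := EuclideanSpace ℝ (Fin n)

/-- symmetric convex bodies -/
structure Body {n : ℕ} (T : Set (E n)) : Prop where
  conv : Convex ℝ T
  comp : IsCompact T
  symm : ∀ x ∈ T, -x ∈ T
  int : (interior T).Nonempty

/-- Gaussian mass of `T` around `w` -/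
noncomputable def NT {n : ℕ} (T : Set (E n)) (σ : ℝ) (w : E n) : ℝ :=
  ∫ z in T, Real.exp (-(‖z - w‖ ^ 2 / (2 * σ ^ 2)))

/-- barycentre of the Gaussian measure around `w` restricted to `T` -/
noncomputable def bT {n : ℕ} (T : Set (E n)) (σ : ℝ) (w : E n) : E n :=
  (NT T σ w)⁻¹ • ∫ z in T, Real.exp (-(‖z - w‖ ^ 2 / (2 * σ ^ 2))) • z

/-- normalised trace of the covariance -/
noncomputable def VT {n : ℕ} (T : Set (E n)) (σ : ℝ) (w : E n) : ℝ :=
  (NT T σ w)⁻¹ * ∫ z in T, Real.exp (-(‖z - w‖ ^ 2 / (2 * σ ^ 2))) * (‖z - bT T σ w‖ ^ 2 / σ ^ 2)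

/-- density of the interpolation at angle `θ` -/
noncomputable def GT {n : ℕ} (T : Set (E n)) (θ : ℝ) (x : E n) : ℝ :=
  (Real.sin θ ^ n)⁻¹ * Real.exp (-(‖x‖ ^ 2 / 2)) * NT T (Real.sin θ) (Real.cos θ • x)

/-- the discrete transport step from angle `θ` to angle `θ + δ` -/
noncomputable def Ph {n : ℕ} (T : Set (E n)) (θ δ : ℝ) (x : E n) : E n :=
  (Real.sin (θ + δ) / Real.sin θ) • x
    - (Real.sin δ / Real.sin θ) • bT T (Real.sin θ) (Real.cos θ • x)

/-- test functions: measurable, even, values in `[0, M]`, support in the ball of radius `R` -/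
structure TF {n : ℕ} (R M : ℝ) (h : E n → ℝ) : Prop where
  meas : Measurable h
  nonneg : ∀ x, 0 ≤ h x
  le : ∀ x, h x ≤ M
  even : ∀ x, h (-x) = h x
  supp : ∀ x, h x ≠ 0 → ‖x‖ ≤ R

/-- volume of the intersection with the ball of radius `r` -/
noncomputable def HT {n : ℕ} (T : Set (E n)) (r : ℝ) : ℝ :=
  (volume (T ∩ Metric.closedBall 0 r)).toReal

/-- the polar set -/
def pol {n : ℕ} (K : Set (E n)) : Set (E n) := {y | ∀ x ∈ K, ⟪x, y⟫ ≤ 1}

end Pool.Agent.Helper584.KS
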