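import Pool.Agent.Helper584.KS.Defs

open MeasureTheory Set
open scoped ENNReal RealInnerProductSpace

namespace Pool.Agent.Helper584.KS



theorem body_facts {n : ℕ} {T : Set (E n)} (hT : Body T) :
    MeasurableSet T ∧ 0 < volume T ∧ volume T < ∞ ∧ (0 : E n) ∈ interior T ∧
      ∃ R : ℝ, 0 < R ∧ T ⊆ Metric.closedBall 0 R := by
  have hcl : IsClosed T := hT.comp.isClosed
  have h0 : (0 : E n) ∈ interior T := by
    obtain ⟨x, hx⟩ := hT.int
    have hneg : -x ∈ interior T := by
      have himg : (fun y : E n => -y) '' (interior T) ⊆ interior T := by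
        apply interior_maximal
        · rintro _ ⟨y, hy, rfl⟩
          exact hT.symm y (interior_subset hy)
        · exact (Homeomorph.neg (E n)).isOpenMap _ isOpen_interior
      exact himg ⟨x, hx, rfl⟩
    have h := hT.conv.interior hx hneg (by norm_num : (0 : ℝ) ≤ 1 / 2) (by norm_num : (0 : ℝ) ≤ 1 / 2)
      (by norm_num)
    simpa using h
  refine ⟨hcl.measurableSet, ?_, hT.comp.measure_lt_top, h0, ?_⟩
  · exact Measure.measure_pos_of_nonempty_interior volume hT.int
  · obtain ⟨R, hR⟩ := hT.comp.isBounded.subset_closedBall (0 : E n)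
    exact ⟨max R 1, lt_max_of_lt_right one_pos,
      hR.trans (Metric.closedBall_subset_closedBall (le_max_left _ _))⟩

end Pool.Agent.Helper584.KS
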