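import Pool.Agent.Helper584.KS.Defs
import Pool.Agent.Helper584.KS.P_body_facts

open MeasureTheory Set
open scoped ENNReal RealInnerProductSpace

namespace Pool.Agent.Helper584.KS



theorem NT_pos {n : ℕ} {T : Set (E n)} (hT : Body T) (σ : ℝ) (hσ : 0 < σ) (w : E n) :
    0 < NT T σ w := by
  obtain ⟨hm, h0, hfin, -, -⟩ := body_facts hT
  have hc : Continuous (fun z : E n => Real.exp (-(‖z - w‖ ^ 2 / (2 * σ ^ 2)))) := by fun_prop
  have hi : IntegrableOn (fun z : E n => Real.exp (-(‖z - w‖ ^ 2 / (2 * σ ^ 2)))) T :=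
    hc.continuousOn.integrableOn_compact hT.comp
  unfold NT
  rw [setIntegral_pos_iff_support_of_nonneg_ae (Filter.Eventually.of_forall fun z => (Real.exp_pos _).le) hi]
  have hs : Function.support (fun z : E n => Real.exp (-(‖z - w‖ ^ 2 / (2 * σ ^ 2)))) = Set.univ := by
    ext z
    simp [(Real.exp_pos _).ne']
  rw [hs, Set.univ_inter]
  exact h0

end Pool.Agent.Helper584.KS
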