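import Pool.Agent.Helper584.KS.Defs
import Pool.Agent.Helper584.KS.P_body_facts
import Pool.Agent.Helper584.KS.P_NT_pos

open MeasureTheory Set
open scoped ENNReal RealInnerProductSpace

namespace Pool.Agent.Helper584.KS



theorem NT_deriv {n : ℕ} {T : Set (E n)} (hT : Body T) (σ : ℝ) (hσ : 0 < σ) (w : E n) :
    HasFDerivAt (NT T σ) ((NT T σ w / σ ^ 2) • innerSL ℝ (bT T σ w - w)) w := by
  obtain ⟨hTm, hT0, hTfin, _, R, hR, hTR⟩ := body_facts hT
  haveI : IsFiniteMeasure (volume.restrict T) := ⟨by simpa using hTfin⟩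
  have hNT := NT_pos hT σ hσ w
  have hnorm : ∀ z ∈ T, ‖z‖ ≤ R := fun z hz => by simpa using hTR hz
  have hc : ∀ w' : E n, Continuous fun z : E n => Real.exp (-(‖z - w'‖ ^ 2 / (2 * σ ^ 2))) := by
    intro w'; fun_prop
  have he1 : ∀ w' z : E n, Real.exp (-(‖z - w'‖ ^ 2 / (2 * σ ^ 2))) ≤ 1 := by
    intro w' z
    rw [Real.exp_le_one_iff]
    have : 0 ≤ ‖z - w'‖ ^ 2 / (2 * σ ^ 2) := by positivity
    linarith
  have hint0 : ∀ w' : E n, Integrable (fun z : E n => Real.exp (-(‖z - w'‖ ^ 2 / (2 * σ ^ 2))))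
      (volume.restrict T) := by
    intro w'
    refine Integrable.of_bound (hc w').aestronglyMeasurable 1 (Filter.Eventually.of_forall fun z => ?_)
    rw [Real.norm_of_nonneg (Real.exp_pos _).le]
    exact he1 w' z
  have hint1 : Integrable (fun z : E n => Real.exp (-(‖z - w‖ ^ 2 / (2 * σ ^ 2))) • z)
      (volume.restrict T) := by
    refine Integrable.of_bound ((hc w).smul continuous_id).aestronglyMeasurable R ?_
    rw [ae_restrict_iff' hTm]
    refine Filter.Eventually.of_forall fun z hz => ?_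
    rw [norm_smul, Real.norm_of_nonneg (Real.exp_pos _).le]
    calc _ ≤ 1 * ‖z‖ := mul_le_mul_of_nonneg_right (he1 w z) (norm_nonneg _)
      _ ≤ R := by rw [one_mul]; exact hnorm z hz
  have hdiff : ∀ z w' : E n, HasFDerivAt (fun w' : E n => Real.exp (-(‖z - w'‖ ^ 2 / (2 * σ ^ 2))))
      ((Real.exp (-(‖z - w'‖ ^ 2 / (2 * σ ^ 2))) / σ ^ 2) • innerSL ℝ (z - w')) w' := by
    intro z w'
    have h1 : HasFDerivAt (fun w' : E n => z - w') (-(ContinuousLinearMap.id ℝ (E n))) w' := by
      simpa using (hasFDerivAt_id w').const_sub z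
    have h2 := h1.norm_sq
    have h3 := ((h2.mul_const (1 / (2 * σ ^ 2))).neg).exp
    have e1 : (fun w' : E n => Real.exp (-(‖z - w'‖ ^ 2 / (2 * σ ^ 2)))) =
        fun w' : E n => Real.exp (-(‖z - w'‖ ^ 2 * (1 / (2 * σ ^ 2)))) := by
      funext x; congr 2; ring
    rw [e1]
    refine h3.congr_fderiv ?_
    ext v
    simp
    have : ‖z - w'‖ ^ 2 / (2 * σ ^ 2) = ‖z - w'‖ ^ 2 * (1 / (2 * σ ^ 2)) := by ring
    field_simp
    ring
  have key := hasFDerivAt_integral_of_dominated_of_fderiv_le (μ := volume.restrict T) (𝕜 := ℝ)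
    (F := fun w' z => Real.exp (-(‖z - w'‖ ^ 2 / (2 * σ ^ 2))))
    (F' := fun w' z => (Real.exp (-(‖z - w'‖ ^ 2 / (2 * σ ^ 2))) / σ ^ 2) • innerSL ℝ (z - w'))
    (x₀ := w) (s := Metric.ball w 1) (bound := fun _ => (R + (‖w‖ + 1)) / σ ^ 2)
    (Metric.ball_mem_nhds w one_pos)
    (Filter.Eventually.of_forall fun w' => (hc w').aestronglyMeasurable)
    (hint0 w)
    (by
      apply Continuous.aestronglyMeasurable
      have h5 := hc w
      fun_prop)
    (by
      rw [ae_restrict_iff' hTm]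
      refine Filter.Eventually.of_forall fun z hz w' hw' => ?_
      rw [norm_smul, innerSL_apply_norm, Real.norm_of_nonneg (by positivity)]
      have h6 : ‖z - w'‖ ≤ R + (‖w‖ + 1) := by
        have h7 : ‖w'‖ ≤ ‖w‖ + 1 := by
          have h8 : ‖w' - w‖ < 1 := by simpa [dist_eq_norm] using hw'
          have h9 : ‖w'‖ ≤ ‖w‖ + ‖w' - w‖ := by
            have := norm_add_le w (w' - w)
            simpa using this
          linarith
        calc ‖z - w'‖ ≤ ‖z‖ + ‖w'‖ := norm_sub_le _ _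
          _ ≤ _ := by linarith [hnorm z hz]
      rw [div_mul_eq_mul_div]
      apply div_le_div_of_nonneg_right _ (by positivity)
      calc _ ≤ 1 * ‖z - w'‖ := mul_le_mul_of_nonneg_right (he1 w' z) (norm_nonneg _)
        _ ≤ _ := by rw [one_mul]; exact h6)
    (integrable_const _)
    (Filter.Eventually.of_forall fun z w' _ => hdiff z w')
  have hF'int : Integrable (fun z : E n =>
      (Real.exp (-(‖z - w‖ ^ 2 / (2 * σ ^ 2))) / σ ^ 2) • innerSL ℝ (z - w))
      (volume.restrict T) := by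
    refine Integrable.of_bound (C := (R + ‖w‖) / σ ^ 2) ?_ ?_
    · apply Continuous.aestronglyMeasurable
      have h5 := hc w
      fun_prop
    · rw [ae_restrict_iff' hTm]
      refine Filter.Eventually.of_forall fun z hz => ?_
      rw [norm_smul, innerSL_apply_norm, Real.norm_of_nonneg (by positivity)]
      have h6 : ‖z - w‖ ≤ R + ‖w‖ := (norm_sub_le _ _).trans (by linarith [hnorm z hz])
      rw [div_mul_eq_mul_div]
      apply div_le_div_of_nonneg_right _ (by positivity)
      calc _ ≤ 1 * ‖z - w‖ := mul_le_mul_of_nonneg_right (he1 w z) (norm_nonneg _)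
        _ ≤ _ := by rw [one_mul]; exact h6
  have hval : (∫ z in T, (Real.exp (-(‖z - w‖ ^ 2 / (2 * σ ^ 2))) / σ ^ 2) • innerSL ℝ (z - w))
      = (NT T σ w / σ ^ 2) • innerSL ℝ (bT T σ w - w) := by
    ext v
    rw [ContinuousLinearMap.integral_apply hF'int]
    have e2 : ∀ z : E n, ((Real.exp (-(‖z - w‖ ^ 2 / (2 * σ ^ 2))) / σ ^ 2) • innerSL ℝ (z - w)) v
        = (1 / σ ^ 2) * ⟪v, Real.exp (-(‖z - w‖ ^ 2 / (2 * σ ^ 2))) • z⟫
          - (⟪w, v⟫ / σ ^ 2) * Real.exp (-(‖z - w‖ ^ 2 / (2 * σ ^ 2))) := by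
      intro z
      simp only [ContinuousLinearMap.smul_apply, innerSL_apply_apply, smul_eq_mul, inner_sub_left,
        real_inner_smul_right, real_inner_comm v z]
      ring
    simp only [e2]
    rw [integral_sub, integral_const_mul, integral_const_mul, integral_inner hint1]
    · have hb : ∫ z in T, Real.exp (-(‖z - w‖ ^ 2 / (2 * σ ^ 2))) • z = NT T σ w • bT T σ w := by
        unfold bT
        rw [smul_smul, mul_inv_cancel₀ hNT.ne', one_smul]
      rw [hb]
      simp only [ContinuousLinearMap.smul_apply, innerSL_apply_apply, smul_eq_mul, inner_sub_left,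
        real_inner_smul_right, real_inner_comm v (bT T σ w)]
      have : ∫ z in T, Real.exp (-(‖z - w‖ ^ 2 / (2 * σ ^ 2))) = NT T σ w := rfl
      rw [this]
      ring
    · exact (hint1.const_inner v).const_mul _
    · exact (hint0 w).const_mul _
  rw [hval] at key
  exact key

end Pool.Agent.Helper584.KS
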