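import Pool.Agent.Helper584.KS.Defs
import Pool.Agent.Helper584.BT.Gauss

open MeasureTheory Set
open scoped ENNReal RealInnerProductSpace

namespace Pool.Agent.Helper584.KS

theorem pln (n : ℕ) (F G H : E n → ℝ≥0∞) (hF : Measurable F)
    (hG : Measurable G) (hH : Measurable H)
    (HH : ∀ x y, F x * G y ≤ H ((2 : ℝ)⁻¹ • (x + y)) ^ 2) :
    (∫⁻ x, F x) * (∫⁻ x, G x) ≤ (∫⁻ x, H x) ^ 2 :=
  Pool.Agent.Helper584.BT.pln Pool.Agent.Helper584.BT.pl1 n F G H hF hG hH HH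

end Pool.Agent.Helper584.KS
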