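import Pool.Agent.Helper584.KS.Defs
import Pool.Agent.Helper584.KS.P_pln
import Pool.Agent.Helper584.KS.P_body_facts

open MeasureTheory Set
open scoped ENNReal RealInnerProductSpace

namespace Pool.Agent.Helper584.KS



theorem NTl_int {n : ℕ} {T : Set (E n)} (hT : Body T) (σ : ℝ) (w : E n) :
    Integrable (fun z : E n => Real.exp (-(‖z - w‖ ^ 2 / (2 * σ ^ 2)))) (volume.restrict T) := by
  obtain ⟨-, -, hfin, -, -⟩ := body_facts hT
  haveI : IsFiniteMeasure (volume.restrict T) :=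
    ⟨by rw [Measure.restrict_apply_univ]; exact hfin⟩
  have hc : Continuous (fun z : E n => Real.exp (-(‖z - w‖ ^ 2 / (2 * σ ^ 2)))) := by
    fun_prop
  refine Integrable.of_bound hc.aestronglyMeasurable 1 (Filter.Eventually.of_forall fun z => ?_)
  rw [Real.norm_eq_abs, abs_of_pos (Real.exp_pos _), Real.exp_le_one_iff]
  have : 0 ≤ ‖z - w‖ ^ 2 / (2 * σ ^ 2) := by positivity
  linarith

theorem NTl_lint {n : ℕ} {T : Set (E n)} (hT : Body T) (σ : ℝ) (w : E n) :
    ∫⁻ z, T.indicator (fun z => ENNReal.ofReal (Real.exp (-(‖z - w‖ ^ 2 / (2 * σ ^ 2))))) z =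
      ENNReal.ofReal (NT T σ w) := by
  obtain ⟨hm, -, -, -, -⟩ := body_facts hT
  rw [lintegral_indicator hm]
  unfold NT
  rw [ofReal_integral_eq_lintegral_ofReal (NTl_int hT σ w)
    (Filter.Eventually.of_forall fun z => (Real.exp_pos _).le)]

theorem NTl_meas {n : ℕ} {T : Set (E n)} (hT : Body T) (σ : ℝ) (w : E n) :
    Measurable (T.indicator (fun z => ENNReal.ofReal (Real.exp (-(‖z - w‖ ^ 2 /
      (2 * σ ^ 2)))))) := by
  obtain ⟨hm, -, -, -, -⟩ := body_facts hT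
  refine Measurable.indicator ?_ hm
  have hc : Continuous (fun z : E n => Real.exp (-(‖z - w‖ ^ 2 / (2 * σ ^ 2)))) := by
    fun_prop
  exact hc.measurable.ennreal_ofReal

theorem NTl_nonneg {n : ℕ} (T : Set (E n)) (σ : ℝ) (w : E n) : 0 ≤ NT T σ w := by
  unfold NT
  exact integral_nonneg fun z => (Real.exp_pos _).le

theorem NT_logconc {n : ℕ} {T : Set (E n)} (hT : Body T) (σ : ℝ) (hσ : 0 < σ) (x y : E n) :
    NT T σ x * NT T σ y ≤ NT T σ ((2 : ℝ)⁻¹ • (x + y)) ^ 2 := by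
  have h := pln n _ _ _ (NTl_meas hT σ x) (NTl_meas hT σ y)
    (NTl_meas hT σ ((2 : ℝ)⁻¹ • (x + y))) (by
      intro z1 z2
      by_cases h1 : z1 ∈ T
      · by_cases h2 : z2 ∈ T
        · have hmid : (2 : ℝ)⁻¹ • (z1 + z2) ∈ T := by
            rw [smul_add]
            exact hT.conv h1 h2 (by norm_num) (by norm_num) (by norm_num)
          rw [Set.indicator_of_mem h1, Set.indicator_of_mem h2, Set.indicator_of_mem hmid,
            ← ENNReal.ofReal_mul (Real.exp_pos _).le, ← ENNReal.ofReal_pow (Real.exp_pos _).le]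
          refine ENNReal.ofReal_le_ofReal ?_
          rw [← Real.exp_add, ← Real.exp_nat_mul]
          apply Real.exp_le_exp.mpr
          have e1 : (2 : ℝ)⁻¹ • (z1 + z2) - (2 : ℝ)⁻¹ • (x + y) =
              (2 : ℝ)⁻¹ • ((z1 - x) + (z2 - y)) := by
            rw [← smul_sub]
            congr 1
            abel
          have e2 : ‖(2 : ℝ)⁻¹ • (z1 + z2) - (2 : ℝ)⁻¹ • (x + y)‖ ^ 2 ≤
              (‖z1 - x‖ ^ 2 + ‖z2 - y‖ ^ 2) / 2 := by
            rw [e1, norm_smul, mul_pow]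
            have h3 := norm_add_le (z1 - x) (z2 - y)
            have h4 : ‖(z1 - x) + (z2 - y)‖ ^ 2 ≤ (‖z1 - x‖ + ‖z2 - y‖) ^ 2 :=
              pow_le_pow_left₀ (norm_nonneg _) h3 2
            have h5 : ‖(2 : ℝ)⁻¹‖ ^ 2 = 1 / 4 := by norm_num
            rw [h5]
            nlinarith [sq_nonneg (‖z1 - x‖ - ‖z2 - y‖)]
          have hσ2 : 0 < 2 * σ ^ 2 := by positivity
          have h6 := div_le_div_of_nonneg_right e2 hσ2.le
          have h7 : (‖z1 - x‖ ^ 2 + ‖z2 - y‖ ^ 2) / 2 / (2 * σ ^ 2) =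
              (‖z1 - x‖ ^ 2 / (2 * σ ^ 2) + ‖z2 - y‖ ^ 2 / (2 * σ ^ 2)) / 2 := by ring
          rw [h7] at h6
          push_cast
          linarith
        · rw [Set.indicator_of_notMem h2, mul_zero]
          exact zero_le
      · rw [Set.indicator_of_notMem h1, zero_mul]
        exact zero_le)
  rw [NTl_lint hT, NTl_lint hT, NTl_lint hT, ← ENNReal.ofReal_mul (NTl_nonneg T σ x),
    ← ENNReal.ofReal_pow (NTl_nonneg T σ _)] at h
  exact (ENNReal.ofReal_le_ofReal_iff (by positivity)).mp h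

end Pool.Agent.Helper584.KS
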