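import Pool.Agent.Helper584.KS.Defs

open MeasureTheory Set
open scoped ENNReal RealInnerProductSpace

namespace Pool.Agent.Helper584.KS



theorem md_inc (φ : ℝ → ℝ) (H : ∀ s t, φ s + φ t ≤ 2 * φ ((s + t) / 2)) (h : ℝ) (k : ℕ) :
    φ ((k : ℝ) * h + h) - φ ((k : ℝ) * h) ≤ φ h - φ 0 := by
  induction k with
  | zero => simp
  | succ k ih =>
    have h1 := H ((k : ℝ) * h) (((k + 1 : ℕ) : ℝ) * h + h)
    have e1 : ((k : ℝ) * h + (((k + 1 : ℕ) : ℝ) * h + h)) / 2 = ((k + 1 : ℕ) : ℝ) * h := by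
      push_cast; ring
    have e2 : (k : ℝ) * h + h = ((k + 1 : ℕ) : ℝ) * h := by push_cast; ring
    rw [e1] at h1
    rw [e2] at ih
    linarith

theorem mid_deriv (φ : ℝ → ℝ) (H : ∀ s t, φ s + φ t ≤ 2 * φ ((s + t) / 2)) (d0 d1 : ℝ)
    (h0 : HasDerivAt φ d0 0) (h1 : HasDerivAt φ d1 1) : d1 ≤ d0 := by
  have hs : Filter.Tendsto (fun n : ℕ => 1 / ((n : ℝ) + 1)) Filter.atTop (nhdsWithin 0 {0}ᶜ) := by
    rw [tendsto_nhdsWithin_iff]
    refine ⟨tendsto_one_div_add_atTop_nhds_zero_nat, Filter.Eventually.of_forall fun n => ?_⟩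
    have : (0 : ℝ) < 1 / ((n : ℝ) + 1) := by positivity
    exact this.ne'
  have t1 := h1.tendsto_slope_zero.comp hs
  have t0 := h0.tendsto_slope_zero.comp hs
  refine le_of_tendsto_of_tendsto' t1 t0 fun n => ?_
  show (1 / ((n : ℝ) + 1))⁻¹ • (φ (1 + 1 / ((n : ℝ) + 1)) - φ 1) ≤
    (1 / ((n : ℝ) + 1))⁻¹ • (φ (0 + 1 / ((n : ℝ) + 1)) - φ 0)
  rw [smul_eq_mul, smul_eq_mul, zero_add]
  apply mul_le_mul_of_nonneg_left _ (by positivity)
  have h2 := md_inc φ H (1 / ((n : ℝ) + 1)) (n + 1)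
  have hne : (n : ℝ) + 1 ≠ 0 := by positivity
  have e : ((n + 1 : ℕ) : ℝ) * (1 / ((n : ℝ) + 1)) = 1 := by
    push_cast
    field_simp
  rw [e] at h2
  exact h2

end Pool.Agent.Helper584.KS
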