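import Pool.Agent.Helper584.KS.Defs
import Pool.Agent.Helper584.KS.P_NT_pos
import Pool.Agent.Helper584.KS.P_NT_deriv
import Pool.Agent.Helper584.KS.P_NT_logconc
import Pool.Agent.Helper584.KS.P_mid_deriv

open MeasureTheory Set
open scoped ENNReal RealInnerProductSpace

namespace Pool.Agent.Helper584.KS



theorem bT_mono {n : ℕ} {T : Set (E n)} (hT : Body T) (σ : ℝ) (hσ : 0 < σ) (x y : E n) :
    ⟪bT T σ x - bT T σ y, x - y⟫ ≤ ‖x - y‖ ^ 2 := by
  have hder : ∀ t : ℝ, HasDerivAt (fun t : ℝ => Real.log (NT T σ (y + t • (x - y))))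
      ((σ ^ 2)⁻¹ * ⟪bT T σ (y + t • (x - y)) - (y + t • (x - y)), x - y⟫) t := by
    intro t
    have h1 : HasDerivAt (fun t : ℝ => y + t • (x - y)) (x - y) t := by
      have := ((hasDerivAt_id t).smul_const (x - y)).const_add y
      simpa using this
    have h2 := (NT_deriv hT σ hσ (y + t • (x - y))).comp_hasDerivAt t h1
    have hpos := NT_pos hT σ hσ (y + t • (x - y))
    have h3 := h2.log hpos.ne'
    refine h3.congr_deriv ?_
    rw [_root_.smul_apply, innerSL_apply_apply, smul_eq_mul]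
    simp only [Function.comp_apply]
    field_simp
  have hmid : ∀ s t : ℝ, Real.log (NT T σ (y + s • (x - y))) + Real.log (NT T σ (y + t • (x - y)))
      ≤ 2 * Real.log (NT T σ (y + ((s + t) / 2) • (x - y))) := by
    intro s t
    have p1 := NT_pos hT σ hσ (y + s • (x - y))
    have p2 := NT_pos hT σ hσ (y + t • (x - y))
    have h1 := NT_logconc hT σ hσ (y + s • (x - y)) (y + t • (x - y))
    have e : (2 : ℝ)⁻¹ • ((y + s • (x - y)) + (y + t • (x - y))) =
        y + ((s + t) / 2) • (x - y) := by module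
    rw [e] at h1
    rw [← Real.log_mul p1.ne' p2.ne']
    have h2 := Real.log_le_log (mul_pos p1 p2) h1
    rw [Real.log_pow] at h2
    exact_mod_cast h2
  have key := mid_deriv _ hmid _ _ (hder 0) (hder 1)
  have e0 : y + (0 : ℝ) • (x - y) = y := by simp
  have e1 : y + (1 : ℝ) • (x - y) = x := by simp
  rw [e0, e1] at key
  have hσ2 : 0 < (σ ^ 2)⁻¹ := by positivity
  have h1 := le_of_mul_le_mul_left key hσ2
  rw [inner_sub_left, inner_sub_left] at h1
  rw [inner_sub_left, ← real_inner_self_eq_norm_sq]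
  have h2 : ⟪x - y, x - y⟫ = ⟪x, x - y⟫ - ⟪y, x - y⟫ := inner_sub_left _ _ _
  rw [h2]
  linarith

end Pool.Agent.Helper584.KS
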