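import Pool.Agent.Helper584.KS.Defs
import Pool.Agent.Helper584.KS.P_bT_mono

open MeasureTheory Set
open scoped ENNReal RealInnerProductSpace

namespace Pool.Agent.Helper584.KS



theorem C_le {n : ℕ} {T : Set (E n)} (hT : Body T) (σ : ℝ) (hσ : 0 < σ) (w : E n)
    (C : E n →L[ℝ] E n) (hC : HasFDerivAt (bT T σ) C w) (v : E n) : ⟪C v, v⟫ ≤ ‖v‖ ^ 2 := by
  have h1 : HasDerivAt (fun t : ℝ => bT T σ (w + t • v)) (C v) 0 := by
    have h2 : HasDerivAt (fun t : ℝ => w + t • v) v 0 := by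
      have h3 : HasDerivAt (fun t : ℝ => t • v) ((1 : ℝ) • v) 0 :=
        (hasDerivAt_id (0 : ℝ)).smul_const v
      rw [one_smul] at h3
      exact h3.const_add w
    have hC' : HasFDerivAt (bT T σ) C (w + (0 : ℝ) • v) := by
      rw [zero_smul, add_zero]; exact hC
    exact HasFDerivAt.comp_hasDerivAt (f := fun t : ℝ => w + t • v) (l := bT T σ) 0 hC' h2
  have h4 : HasDerivAt (fun t : ℝ => ⟪bT T σ (w + t • v), v⟫) ⟪C v, v⟫ 0 := by
    have := h1.inner ℝ (hasDerivAt_const (0 : ℝ) v)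
    simpa using this
  have h5 := h4.tendsto_slope_zero_right
  refine le_of_tendsto h5 ?_
  filter_upwards [self_mem_nhdsWithin] with t ht
  have ht' : 0 < t := ht
  have h6 := bT_mono hT σ hσ (w + t • v) w
  have h7 : w + t • v - w = t • v := by abel
  rw [h7, inner_smul_right, norm_smul, Real.norm_eq_abs, abs_of_pos ht'] at h6
  have h8 : ⟪bT T σ (w + t • v) - bT T σ w, v⟫ ≤ t * ‖v‖ ^ 2 := by
    have h9 : t * ⟪bT T σ (w + t • v) - bT T σ w, v⟫ ≤ t * (t * ‖v‖ ^ 2) := by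
      calc _ ≤ (t * ‖v‖) ^ 2 := h6
        _ = t * (t * ‖v‖ ^ 2) := by ring
    exact le_of_mul_le_mul_left h9 ht'
  rw [smul_eq_mul, zero_add]
  rw [inner_sub_left] at h8
  have h10 : ⟪bT T σ (w + (0:ℝ) • v), v⟫ = ⟪bT T σ w, v⟫ := by simp
  rw [h10]
  rw [inv_mul_le_iff₀ ht']
  exact h8

end Pool.Agent.Helper584.KS
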