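import Pool.Agent.Helper584.KS.Defs
import Pool.Agent.Helper584.KS.P_body_facts
import Pool.Agent.Helper584.KS.P_NT_pos

open MeasureTheory Set
open scoped ENNReal RealInnerProductSpace

namespace Pool.Agent.Helper584.KS



theorem C_props {n : ℕ} {T : Set (E n)} (hT : Body T) (σ : ℝ) (hσ : 0 < σ) (w : E n)
    (C : E n →L[ℝ] E n)
    (hC : ∀ u v : E n, ⟪C u, v⟫ = (NT T σ w)⁻¹ * ∫ z in T,
      Real.exp (-(‖z - w‖ ^ 2 / (2 * σ ^ 2))) *
        (⟪z - bT T σ w, u⟫ * ⟪z - bT T σ w, v⟫ / σ ^ 2)) :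
    (∀ u v : E n, ⟪C u, v⟫ = ⟪u, C v⟫) ∧ (∀ v : E n, 0 ≤ ⟪C v, v⟫) ∧
      LinearMap.trace ℝ (E n) (C : E n →ₗ[ℝ] E n) = VT T σ w := by
  have hsym : ∀ u v : E n, ⟪C u, v⟫ = ⟪u, C v⟫ := by
    intro u v
    rw [real_inner_comm (C v) u, hC u v, hC v u]
    congr 1
    apply integral_congr_ae
    filter_upwards with z
    ring
  refine ⟨hsym, ?_, ?_⟩
  · intro v
    rw [hC v v]
    apply mul_nonneg (inv_nonneg.mpr (NT_pos hT σ hσ w).le)
    apply integral_nonneg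
    intro z
    have : 0 ≤ ⟪z - bT T σ w, v⟫ * ⟪z - bT T σ w, v⟫ / σ ^ 2 :=
      div_nonneg (mul_self_nonneg _) (sq_nonneg _)
    exact mul_nonneg (Real.exp_pos _).le this
  · have hb := LinearMap.trace_eq_sum_inner (C : E n →ₗ[ℝ] E n)
      (EuclideanSpace.basisFun (Fin n) ℝ)
    rw [hb]
    unfold VT
    have hint : ∀ i ∈ (Finset.univ : Finset (Fin n)), IntegrableOn (fun z : E n =>
        Real.exp (-(‖z - w‖ ^ 2 / (2 * σ ^ 2))) *
        (⟪z - bT T σ w, EuclideanSpace.basisFun (Fin n) ℝ i⟫ *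
          ⟪z - bT T σ w, EuclideanSpace.basisFun (Fin n) ℝ i⟫ / σ ^ 2)) T volume := by
      intro i _
      apply ContinuousOn.integrableOn_compact hT.comp
      apply Continuous.continuousOn
      fun_prop
    have h1 : ∀ i, ⟪EuclideanSpace.basisFun (Fin n) ℝ i,
        (C : E n →ₗ[ℝ] E n) (EuclideanSpace.basisFun (Fin n) ℝ i)⟫ =
        (NT T σ w)⁻¹ * ∫ z in T,
      Real.exp (-(‖z - w‖ ^ 2 / (2 * σ ^ 2))) *
        (⟪z - bT T σ w, EuclideanSpace.basisFun (Fin n) ℝ i⟫ *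
          ⟪z - bT T σ w, EuclideanSpace.basisFun (Fin n) ℝ i⟫ / σ ^ 2) := by
      intro i
      rw [← hC]
      exact real_inner_comm _ _
    rw [Finset.sum_congr rfl fun i _ => h1 i, ← Finset.mul_sum,
      ← integral_finsetSum _ hint]
    congr 1
    apply integral_congr_ae
    filter_upwards with z
    rw [← Finset.mul_sum, ← Finset.sum_div]
    congr 2
    have h2 := (EuclideanSpace.basisFun (Fin n) ℝ).sum_sq_inner_left (z - bT T σ w)
    rw [← h2]
    refine Finset.sum_congr rfl fun i _ => ?_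
    rw [sq]

end Pool.Agent.Helper584.KS
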