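import Pool.Agent.Helper584.KS.Defs

open MeasureTheory Set
open scoped ENNReal RealInnerProductSpace

namespace Pool.Agent.Helper584.KS



theorem GT_eq {n : ℕ} {T : Set (E n)} (hT : Body T) (θ : ℝ) (h0 : 0 < θ) (h1 : θ < Real.pi)
    (x : E n) :
    GT T θ x = ∫ z in T, Real.exp (-(‖z‖ ^ 2 / 2)) * ((Real.sin θ ^ n)⁻¹ *
      Real.exp (-(‖x - Real.cos θ • z‖ ^ 2 / (2 * Real.sin θ ^ 2)))) := by
  have hs : 0 < Real.sin θ := Real.sin_pos_of_pos_of_lt_pi h0 h1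
  have hsc : Real.sin θ ^ 2 + Real.cos θ ^ 2 = 1 := Real.sin_sq_add_cos_sq θ
  unfold GT NT
  rw [← integral_const_mul]
  refine integral_congr_ae (Filter.Eventually.of_forall (fun z => ?_))
  show (Real.sin θ ^ n)⁻¹ * Real.exp (-(‖x‖ ^ 2 / 2)) *
      Real.exp (-(‖z - Real.cos θ • x‖ ^ 2 / (2 * Real.sin θ ^ 2))) =
    Real.exp (-(‖z‖ ^ 2 / 2)) * ((Real.sin θ ^ n)⁻¹ *
      Real.exp (-(‖x - Real.cos θ • z‖ ^ 2 / (2 * Real.sin θ ^ 2))))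
  have e : Real.exp (-(‖x‖ ^ 2 / 2)) *
      Real.exp (-(‖z - Real.cos θ • x‖ ^ 2 / (2 * Real.sin θ ^ 2))) =
      Real.exp (-(‖z‖ ^ 2 / 2)) *
      Real.exp (-(‖x - Real.cos θ • z‖ ^ 2 / (2 * Real.sin θ ^ 2))) := by
    rw [← Real.exp_add, ← Real.exp_add]
    congr 1
    rw [norm_sub_sq_real, norm_sub_sq_real, norm_smul, norm_smul, inner_smul_right,
      inner_smul_right, real_inner_comm x z, mul_pow, mul_pow, Real.norm_eq_abs, sq_abs]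
    have hs2 : Real.sin θ ≠ 0 := hs.ne'
    field_simp
    linear_combination (‖z‖ ^ 2 - ‖x‖ ^ 2) * hsc
  calc _ = (Real.sin θ ^ n)⁻¹ * (Real.exp (-(‖x‖ ^ 2 / 2)) *
      Real.exp (-(‖z - Real.cos θ • x‖ ^ 2 / (2 * Real.sin θ ^ 2)))) := by ring
    _ = _ := by rw [e]; ring

end Pool.Agent.Helper584.KS
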