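import Pool.Agent.Helper584.KS.Defs
import Pool.Agent.Helper584.KS.P_NT_pos
import Pool.Agent.Helper584.KS.P_NT_deriv

open MeasureTheory Set
open scoped ENNReal RealInnerProductSpace

namespace Pool.Agent.Helper584.KS



theorem GT_facts {n : ℕ} {T : Set (E n)} (hT : Body T) (θ : ℝ) (h0 : 0 < θ)
    (h1 : θ ≤ Real.pi / 2) : Continuous (GT T θ) ∧ ∀ x, 0 < GT T θ x := by
  have hs : 0 < Real.sin θ := Real.sin_pos_of_pos_of_lt_pi h0 (by linarith [Real.pi_pos])
  constructor
  · have hN : Continuous (NT T (Real.sin θ)) :=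
      continuous_iff_continuousAt.mpr (fun w => (NT_deriv hT _ hs w).continuousAt)
    have h2 : Continuous (fun x : E n => NT T (Real.sin θ) (Real.cos θ • x)) :=
      hN.comp (continuous_const_smul _)
    unfold GT
    exact (continuous_const.mul (by fun_prop)).mul h2
  · intro x
    unfold GT
    have h2 := NT_pos hT (Real.sin θ) hs (Real.cos θ • x)
    positivity

end Pool.Agent.Helper584.KS
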