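import Pool.Agent.Helper584.KS.Defs

open MeasureTheory Set
open scoped ENNReal RealInnerProductSpace

namespace Pool.Agent.Helper584.KS



theorem TF_integrable {n : ℕ} {R M : ℝ} {h : E n → ℝ} (hh : TF R M h) (w : E n → ℝ)
    (hw : Continuous w) : Integrable (fun x => h x * w x) := by
  have hc : IsCompact (Metric.closedBall (0 : E n) R) := isCompact_closedBall _ _
  obtain ⟨C, hC⟩ := hc.exists_bound_of_continuousOn hw.continuousOn
  have hsupp : Function.support (fun x => h x * w x) ⊆ Metric.closedBall (0 : E n) R := by
    intro x hx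
    have hx' : h x * w x ≠ 0 := hx
    have h1 : h x ≠ 0 := left_ne_zero_of_mul hx'
    simpa [Metric.mem_closedBall, dist_zero_right] using hh.supp x h1
  have hm : AEStronglyMeasurable (fun x => h x * w x) volume :=
    (hh.meas.mul hw.measurable).aestronglyMeasurable
  have h2 : IntegrableOn (fun x => h x * w x) (Metric.closedBall (0 : E n) R) volume := by
    apply Measure.integrableOn_of_bounded (M := M * C) hc.measure_lt_top.ne hm
    filter_upwards [ae_restrict_mem hc.measurableSet] with x hx
    rw [norm_mul]
    have h3 : ‖h x‖ ≤ M := by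
      rw [Real.norm_of_nonneg (hh.nonneg x)]; exact hh.le x
    have h4 : ‖w x‖ ≤ C := hC x hx
    exact mul_le_mul h3 h4 (norm_nonneg _) ((norm_nonneg _).trans h3)
  exact (integrableOn_iff_integrable_of_support_subset hsupp).1 h2

end Pool.Agent.Helper584.KS
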