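import Pool.Agent.Helper584.KS.Defs
import Pool.Agent.Helper584.KS.P_body_facts
import Pool.Agent.Helper584.KS.P_GT_eq
import Pool.Agent.Helper584.KS.P_TF_integrable

open MeasureTheory Set
open scoped ENNReal RealInnerProductSpace

namespace Pool.Agent.Helper584.KS



theorem GT_law {n : ℕ} {T : Set (E n)} (hT : Body T) (θ : ℝ) (h0 : 0 < θ)
    (hθ : θ < Real.pi / 2) (R M : ℝ) (h : E n → ℝ) (hh : TF R M h) :
    ∫ x, h x * GT T θ x = ∫ z in T, Real.exp (-(‖z‖ ^ 2 / 2)) *
      ∫ y, h (Real.cos θ • z + Real.sin θ • y) * Real.exp (-(‖y‖ ^ 2 / 2)) := by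
  obtain ⟨hTm, hTpos, hTfin, -, RT, hRT0, hRT⟩ := body_facts hT
  have hs : 0 < Real.sin θ := Real.sin_pos_of_pos_of_lt_pi h0 (by linarith [Real.pi_pos])
  have e1 : ∀ x, h x * GT T θ x = ∫ z in T, h x * (Real.exp (-(‖z‖ ^ 2 / 2)) *
      ((Real.sin θ ^ n)⁻¹ *
        Real.exp (-(‖x - Real.cos θ • z‖ ^ 2 / (2 * Real.sin θ ^ 2))))) := by
    intro x
    rw [GT_eq hT θ h0 (by linarith [Real.pi_pos]) x, ← integral_const_mul]
  simp_rw [e1]
  rw [integral_integral_swap]
  · congr 1
    ext z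
    have h2 := Measure.integral_comp_smul (volume : Measure (E n))
      (fun u => h (Real.cos θ • z + u) * Real.exp (-(‖u‖ ^ 2 / (2 * Real.sin θ ^ 2)))) (Real.sin θ)
    have h3 : ∀ y : E n, ‖Real.sin θ • y‖ ^ 2 / (2 * Real.sin θ ^ 2) = ‖y‖ ^ 2 / 2 := by
      intro y
      rw [norm_smul, mul_pow, Real.norm_eq_abs, sq_abs]
      field_simp
    simp only [h3] at h2
    rw [h2]
    have hfr : Module.finrank ℝ (E n) = n := by simp [E]
    rw [hfr, abs_of_pos (inv_pos.mpr (pow_pos hs n)), smul_eq_mul]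
    have h4 := integral_sub_right_eq_self (μ := (volume : Measure (E n)))
      (fun u => h (Real.cos θ • z + u) * Real.exp (-(‖u‖ ^ 2 / (2 * Real.sin θ ^ 2))))
      (Real.cos θ • z)
    rw [← h4]
    rw [← integral_const_mul, ← integral_const_mul]
    congr 1
    ext x
    simp only [add_sub_cancel]
    ring
  · have hM : 0 ≤ M := (hh.nonneg 0).trans (hh.le 0)
    have hc : 0 ≤ (Real.sin θ ^ n)⁻¹ := inv_nonneg.mpr (pow_nonneg hs.le n)
    have hf1 : Integrable (fun x : E n => (Metric.closedBall (0 : E n) R).indicator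
        (fun _ => M * (Real.sin θ ^ n)⁻¹) x) := by
      rw [integrable_indicator_iff Metric.isClosed_closedBall.measurableSet]
      exact integrableOn_const (isCompact_closedBall _ _).measure_lt_top.ne
    have hf2 : Integrable (fun _ : E n => (1 : ℝ)) (volume.restrict T) :=
      integrableOn_const hTfin.ne
    refine (hf1.mul_prod hf2).mono' ?_ ?_
    · apply Measurable.aestronglyMeasurable
      have := hh.meas
      simp only [Function.uncurry_def]
      fun_prop
    · refine Filter.Eventually.of_forall ?_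
      rintro ⟨x, z⟩
      simp only [Function.uncurry_apply_pair, mul_one]
      have hx0 := hh.nonneg x
      have he1 : Real.exp (-(‖z‖ ^ 2 / 2)) ≤ 1 := by
        rw [Real.exp_le_one_iff]; have := sq_nonneg ‖z‖; linarith
      have he2 : Real.exp (-(‖x - Real.cos θ • z‖ ^ 2 / (2 * Real.sin θ ^ 2))) ≤ 1 := by
        rw [Real.exp_le_one_iff]
        have : 0 ≤ ‖x - Real.cos θ • z‖ ^ 2 / (2 * Real.sin θ ^ 2) := by positivity
        linarith
      have hnn : 0 ≤ h x * (Real.exp (-(‖z‖ ^ 2 / 2)) * ((Real.sin θ ^ n)⁻¹ *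
        Real.exp (-(‖x - Real.cos θ • z‖ ^ 2 / (2 * Real.sin θ ^ 2))))) := by positivity
      rw [Real.norm_of_nonneg hnn]
      by_cases hxR : x ∈ Metric.closedBall (0 : E n) R
      · rw [indicator_of_mem hxR]
        have h5 : Real.exp (-(‖z‖ ^ 2 / 2)) * ((Real.sin θ ^ n)⁻¹ *
          Real.exp (-(‖x - Real.cos θ • z‖ ^ 2 / (2 * Real.sin θ ^ 2)))) ≤
            1 * ((Real.sin θ ^ n)⁻¹ * 1) := by
          gcongr
        rw [one_mul, mul_one] at h5
        exact mul_le_mul (hh.le x) h5 (by positivity) hM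
      · rw [indicator_of_notMem hxR]
        have : h x = 0 := by
          by_contra hne
          exact hxR (by simpa using hh.supp x hne)
        rw [this, zero_mul]

end Pool.Agent.Helper584.KS
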