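import Pool.Agent.Helper584.KS.Defs

open MeasureTheory Set
open scoped ENNReal RealInnerProductSpace

namespace Pool.Agent.Helper584.KS



theorem Good_F {n : ℕ} (f : (Fin (n + 1) → ℝ) → ℝ) (hf : Good f) (w : Fin n → ℝ) :
    Good (fun x' : Fin n → ℝ => ∫ s in Ioi (0 : ℝ), f (cn s (x' + s • w))) := by
  obtain ⟨hm, hn, ⟨M, hM⟩, ⟨R, hR⟩⟩ := hf
  have hM0 : 0 ≤ M := (hn 0).trans (hM 0)
  have h0 : ∀ (s : ℝ) (x' : Fin n → ℝ), f (cn s (x' + s • w)) ≠ 0 → |s| ≤ R := by
    intro s x' h
    have := hR _ h 0
    simpa [cn] using this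
  have h1 : ∀ (s : ℝ) (x' : Fin n → ℝ) (i : Fin n), f (cn s (x' + s • w)) ≠ 0 →
      |x' i + s * w i| ≤ R := by
    intro s x' i h
    have := hR _ h i.succ
    simpa [cn] using this
  refine ⟨?_, ?_, ?_, ?_⟩
  · have hme : Measurable (fun q : (Fin n → ℝ) × ℝ => f (cn q.2 (q.1 + q.2 • w))) := by
      refine hm.comp ?_
      rw [measurable_pi_iff]
      intro i
      refine Fin.cases ?_ (fun i => ?_) i
      · simp only [cn, Fin.cons_zero]
        exact measurable_snd
      · simp only [cn, Fin.cons_succ, Pi.add_apply, Pi.smul_apply, smul_eq_mul]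
        fun_prop
    exact (hme.stronglyMeasurable.integral_prod_right' (ν := volume.restrict (Ioi (0:ℝ)))).measurable
  · intro x'
    exact integral_nonneg fun s => hn _
  · refine ⟨∫ s in Ioi (0 : ℝ), (Icc (-R) R).indicator (fun _ => M) s, fun x' => ?_⟩
    refine integral_mono_of_nonneg (Filter.Eventually.of_forall fun s => hn _) ?_
      (Filter.Eventually.of_forall fun s => ?_)
    · refine Integrable.integrableOn ?_
      rw [integrable_indicator_iff measurableSet_Icc]
      exact integrableOn_const (by simp)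
    · by_cases hs : s ∈ Icc (-R) R
      · show f _ ≤ _
        rw [indicator_of_mem hs]
        exact hM _
      · show f _ ≤ _
        rw [indicator_of_notMem hs]
        by_contra hc
        push Not at hc
        exact hs (abs_le.1 (h0 s x' hc.ne'))
  · refine ⟨R + R * ∑ j, |w j|, fun x' hx i => ?_⟩
    have hex : ∃ s : ℝ, f (cn s (x' + s • w)) ≠ 0 := by
      by_contra hc
      push Not at hc
      apply hx
      simp [hc]
    obtain ⟨s, hs⟩ := hex
    have a1 := h0 s x' hs
    have a2 := h1 s x' i hs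
    have a3 : |w i| ≤ ∑ j, |w j| :=
      Finset.single_le_sum (f := fun j => |w j|) (fun j _ => abs_nonneg _) (Finset.mem_univ i)
    have a4 : |s * w i| ≤ R * ∑ j, |w j| := by
      rw [abs_mul]
      exact mul_le_mul a1 a3 (abs_nonneg _) ((abs_nonneg _).trans a1)
    have a5 : |x' i| ≤ |x' i + s * w i| + |s * w i| := by
      have := abs_sub (x' i + s * w i) (s * w i)
      rwa [add_sub_cancel_right] at this
    linarith

end Pool.Agent.Helper584.KS
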