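import Pool.Agent.Helper584.KS.Defs

open MeasureTheory Set
open scoped ENNReal RealInnerProductSpace

namespace Pool.Agent.Helper584.KS



theorem Good_G {n : ℕ} (g : (Fin (n + 1) → ℝ) → ℝ) (hg : Good g) (w : Fin n → ℝ) :
    Good (fun y' : Fin n → ℝ => ∫ t in Ioi (0 : ℝ), g (cn (t - dp y' w) y')) := by
  obtain ⟨M, hM⟩ := hg.bdd
  obtain ⟨R, hR⟩ := hg.supp
  have hcont : Continuous fun p : (Fin n → ℝ) × ℝ => cn (p.2 - dp p.1 w) p.1 := by
    unfold cn dp
    refine continuous_pi fun i => ?_
    refine Fin.cases ?_ (fun j => ?_) i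
    · simp only [Fin.cons_zero]
      fun_prop
    · simp only [Fin.cons_succ]
      fun_prop
  have hgm : Measurable fun p : (Fin n → ℝ) × ℝ => g (cn (p.2 - dp p.1 w) p.1) :=
    hg.meas.comp hcont.measurable
  have hy : ∀ (y' : Fin n → ℝ) (t : ℝ), g (cn (t - dp y' w) y') ≠ 0 →
      |t - dp y' w| ≤ R ∧ ∀ i, |y' i| ≤ R := by
    intro y' t h
    refine ⟨?_, fun i => ?_⟩
    · have := hR _ h 0
      simpa [cn] using this
    · have := hR _ h i.succ
      simpa [cn] using this
  refine ⟨?_, ?_, ?_, ?_⟩
  · exact (hgm.stronglyMeasurable.integral_prod_right' (ν := volume.restrict (Ioi (0:ℝ)))).measurable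
  · intro y'
    exact integral_nonneg fun t => hg.nonneg _
  · set R' : ℝ := max R 0 with hR'
    set D : ℝ := R' * ∑ j, |w j| with hD
    set M' : ℝ := max M 0 with hM'
    have hR0 : 0 ≤ R' := le_max_right _ _
    have hM0 : 0 ≤ M' := le_max_right _ _
    refine ⟨volume.real (Icc (-(R' + D)) (R' + D)) • M', ?_⟩
    intro y'
    have hint : Integrable ((Icc (-(R' + D)) (R' + D)).indicator (fun _ => M')) :=
      (integrable_indicator_iff measurableSet_Icc).mpr (integrableOn_const (by simp) (by simp))
    have hind : ∀ t, 0 ≤ (Icc (-(R' + D)) (R' + D)).indicator (fun _ => M') t := fun t =>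
      Set.indicator_nonneg (fun _ _ => hM0) t
    have hle : ∀ t, g (cn (t - dp y' w) y') ≤
        (Icc (-(R' + D)) (R' + D)).indicator (fun _ => M') t := by
      intro t
      by_cases h : g (cn (t - dp y' w) y') = 0
      · rw [h]; exact hind t
      · obtain ⟨h1, h2⟩ := hy y' t h
        have h3 : |dp y' w| ≤ D := by
          unfold dp
          rw [hD, Finset.mul_sum]
          refine (Finset.abs_sum_le_sum_abs _ _).trans (Finset.sum_le_sum fun j _ => ?_)
          rw [abs_mul]
          exact mul_le_mul_of_nonneg_right ((h2 j).trans (le_max_left _ _)) (abs_nonneg _)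
        have h4 : t ∈ Icc (-(R' + D)) (R' + D) := by
          have h5 := abs_le.mp h1
          have h6 := abs_le.mp h3
          have h7 : R ≤ R' := le_max_left _ _
          constructor <;> linarith [h5.1, h5.2, h6.1, h6.2]
        rw [Set.indicator_of_mem h4]
        exact (hM _).trans (le_max_left _ _)
    calc ∫ t in Ioi (0 : ℝ), g (cn (t - dp y' w) y')
        ≤ ∫ t in Ioi (0 : ℝ), (Icc (-(R' + D)) (R' + D)).indicator (fun _ => M') t := by
          apply integral_mono_of_nonneg
          · exact Filter.Eventually.of_forall fun t => hg.nonneg _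
          · exact hint.restrict
          · exact Filter.Eventually.of_forall hle
      _ ≤ ∫ t, (Icc (-(R' + D)) (R' + D)).indicator (fun _ => M') t :=
          setIntegral_le_integral hint (Filter.Eventually.of_forall hind)
      _ = _ := integral_indicator_const _ measurableSet_Icc
  · refine ⟨R, fun y' h i => ?_⟩
    by_contra hcon
    apply h
    have : ∀ t, g (cn (t - dp y' w) y') = 0 := by
      intro t
      by_contra h0
      exact hcon ((hy y' t h0).2 i)
    simp only [this, integral_zero]

end Pool.Agent.Helper584.KS
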