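import Pool.Agent.Helper584.KS.Defs

open MeasureTheory Set
open scoped ENNReal RealInnerProductSpace

namespace Pool.Agent.Helper584.KS



theorem Good_exp {n : ℕ} (g : (Fin n → ℝ) → ℝ) (hg : Good g) (z : Fin n → ℝ) :
    Good (fun y => g y * Real.exp (dp z y)) := by
  obtain ⟨M, hM⟩ := hg.bdd
  obtain ⟨R, hR⟩ := hg.supp
  refine ⟨?_, ?_, ?_, ?_⟩
  · refine hg.meas.mul ?_
    have : Continuous (fun y : Fin n → ℝ => Real.exp (dp z y)) := by
      unfold dp
      fun_prop
    exact this.measurable
  · intro x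
    exact mul_nonneg (hg.nonneg x) (Real.exp_pos _).le
  · refine ⟨max M 0 * Real.exp (∑ i, |z i| * |R|), fun y => ?_⟩
    by_cases h : g y = 0
    · rw [h, zero_mul]
      exact mul_nonneg (le_max_right _ _) (Real.exp_pos _).le
    · have h1 : dp z y ≤ ∑ i, |z i| * |R| := by
        unfold dp
        refine Finset.sum_le_sum fun i _ => ?_
        have h2 : |y i| ≤ |R| := (hR y h i).trans (le_abs_self R)
        calc z i * y i ≤ |z i * y i| := le_abs_self _
          _ = |z i| * |y i| := abs_mul _ _
          _ ≤ |z i| * |R| := mul_le_mul_of_nonneg_left h2 (abs_nonneg _)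
      exact mul_le_mul ((hM y).trans (le_max_left _ _)) (Real.exp_le_exp.2 h1)
        (Real.exp_pos _).le (le_max_right _ _)
  · refine ⟨R, fun x hx i => hR x (fun h => hx ?_) i⟩
    simp [h]

end Pool.Agent.Helper584.KS
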