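import Pool.Agent.Helper584.KS.Defs

open MeasureTheory Set
open scoped ENNReal RealInnerProductSpace

namespace Pool.Agent.Helper584.KS



theorem Good_integrable {n : ℕ} (f : (Fin n → ℝ) → ℝ) (hf : Good f) : Integrable f := by
  obtain ⟨M, hM⟩ := hf.bdd
  obtain ⟨R, hR⟩ := hf.supp
  have hs : Function.support f ⊆ Icc (fun _ => -R) (fun _ => R) := by
    intro x hx
    have := hR x hx
    exact ⟨fun i => (abs_le.1 (this i)).1, fun i => (abs_le.1 (this i)).2⟩
  rw [← integrableOn_iff_integrable_of_support_subset hs]
  refine Measure.integrableOn_of_bounded (M := M) ?_ hf.meas.aestronglyMeasurable ?_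
  · exact (isCompact_Icc.measure_lt_top).ne
  · refine Filter.Eventually.of_forall fun x => ?_
    rw [Real.norm_of_nonneg (hf.nonneg x)]
    exact hM x

end Pool.Agent.Helper584.KS
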