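import Pool.Agent.Helper584.KS.Defs

open MeasureTheory Set
open scoped ENNReal RealInnerProductSpace

namespace Pool.Agent.Helper584.KS



theorem Good_shift {n : ℕ} (f : (Fin n → ℝ) → ℝ) (hf : Good f) (z : Fin n → ℝ) :
    Good (fun x => f (z + x)) := by
  obtain ⟨hm, h0, ⟨M, hM⟩, ⟨R, hR⟩⟩ := hf
  refine ⟨hm.comp (measurable_const_add z), fun x => h0 _, ⟨M, fun x => hM _⟩,
    ⟨R + ∑ j, |z j|, fun x hx i => ?_⟩⟩
  have h1 : |z i + x i| ≤ R := hR (z + x) hx i
  have h2 : |z i| ≤ ∑ j, |z j| :=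
    Finset.single_le_sum (f := fun j => |z j|) (fun j _ => abs_nonneg _) (Finset.mem_univ i)
  have h3 : |x i| ≤ |z i + x i| + |z i| := by
    have := abs_sub (z i + x i) (z i)
    rwa [add_sub_cancel_left] at this
  linarith

end Pool.Agent.Helper584.KS
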