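import Pool.Agent.Helper584.KS.Defs
import Pool.Agent.Helper584.KS.P_Good_integrable

open MeasureTheory Set
open scoped ENNReal RealInnerProductSpace

namespace Pool.Agent.Helper584.KS



theorem Good_weight_integrable {n : ℕ} (f : (Fin n → ℝ) → ℝ) (hf : Good f)
    (w : (Fin n → ℝ) → ℝ) (hw : Continuous w) : Integrable (fun x => w x * f x) := by
  have hI := Good_integrable f hf
  obtain ⟨R, hR⟩ := hf.supp
  obtain ⟨C, hC⟩ := (isCompact_Icc (a := fun _ : Fin n => -R) (b := fun _ : Fin n => R)).exists_bound_of_continuousOn hw.continuousOn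
  refine Integrable.mono' (hI.const_mul C) (hw.measurable.mul hf.meas).aestronglyMeasurable ?_
  refine Filter.Eventually.of_forall fun x => ?_
  by_cases h0 : f x = 0
  · simp [h0]
  · have hx : x ∈ Set.Icc (fun _ : Fin n => -R) (fun _ : Fin n => R) := by
      refine ⟨fun i => (abs_le.mp (hR x h0 i)).1, fun i => (abs_le.mp (hR x h0 i)).2⟩
    have h1 := hC x hx
    have h2 := hf.nonneg x
    show ‖w x * f x‖ ≤ C * f x
    rw [norm_mul, Real.norm_of_nonneg h2]
    exact mul_le_mul_of_nonneg_right h1 h2

end Pool.Agent.Helper584.KS
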