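import Pool.Agent.Helper584.KS.Defs
import Pool.Agent.Helper584.KS.P_body_facts

open MeasureTheory Set
open scoped ENNReal RealInnerProductSpace

namespace Pool.Agent.Helper584.KS



open scoped Pointwise in
theorem HT_scale {n : ℕ} {T : Set (E n)} (hT : Body T) (h0T : (0 : E n) ∈ T)
    (hfin' : ∀ r : ℝ, volume (T ∩ Metric.closedBall (0 : E n) r) ≠ ∞)
    (r : ℝ) (hr : 0 < r) (hr1 : r ≤ 1) : r ^ n * HT T 1 ≤ HT T r := by
  have hsub : r • (T ∩ Metric.closedBall (0 : E n) 1) ⊆ T ∩ Metric.closedBall (0 : E n) r := by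
    rintro _ ⟨x, ⟨hxT, hxB⟩, rfl⟩
    refine ⟨?_, ?_⟩
    · have h := hT.conv hxT h0T hr.le (sub_nonneg.mpr hr1) (by ring)
      simpa using h
    · rw [Metric.mem_closedBall, dist_zero_right] at hxB ⊢
      show ‖r • x‖ ≤ r
      rw [norm_smul, Real.norm_eq_abs, abs_of_pos hr]
      exact mul_le_of_le_one_right hr.le hxB
  have hvol : volume (r • (T ∩ Metric.closedBall (0 : E n) 1))
      = ENNReal.ofReal (r ^ n) * volume (T ∩ Metric.closedBall (0 : E n) 1) := by
    rw [Measure.addHaar_smul, finrank_euclideanSpace_fin, abs_of_pos (pow_pos hr n)]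
  unfold HT
  have hle := measure_mono (μ := (volume : Measure (E n))) hsub
  rw [hvol] at hle
  have h2 := ENNReal.toReal_mono (hfin' r) hle
  rwa [ENNReal.toReal_mul, ENNReal.toReal_ofReal (pow_nonneg hr.le n)] at h2

theorem HT_facts {n : ℕ} {T : Set (E n)} (hT : Body T) :
    (∀ r, 0 < r → 0 < HT T r) ∧ (∀ r s, r ≤ s → HT T r ≤ HT T s) ∧
      (∀ r, 0 < r → r ≤ 1 → r ^ n * HT T 1 ≤ HT T r) := by
  obtain ⟨hmeas, hpos, hfin, h0, R, hR, hTR⟩ := body_facts hT
  have hfin' : ∀ r : ℝ, volume (T ∩ Metric.closedBall (0 : E n) r) ≠ ∞ := fun r =>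
    ((measure_mono inter_subset_left).trans_lt hfin).ne
  have h0T : (0 : E n) ∈ T := interior_subset h0
  refine ⟨?_, ?_, HT_scale hT h0T hfin'⟩
  · intro r hr
    unfold HT
    refine ENNReal.toReal_pos ?_ (hfin' r)
    have hopen : IsOpen (interior T ∩ Metric.ball (0 : E n) r) :=
      isOpen_interior.inter Metric.isOpen_ball
    have hne : (interior T ∩ Metric.ball (0 : E n) r).Nonempty :=
      ⟨0, h0, Metric.mem_ball_self hr⟩
    have hp : 0 < volume (interior T ∩ Metric.ball (0 : E n) r) :=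
      hopen.measure_pos volume hne
    refine (hp.trans_le (measure_mono ?_)).ne'
    exact inter_subset_inter interior_subset Metric.ball_subset_closedBall
  · intro r s hrs
    unfold HT
    refine ENNReal.toReal_mono (hfin' s) (measure_mono ?_)
    exact inter_subset_inter_right _ (Metric.closedBall_subset_closedBall hrs)

end Pool.Agent.Helper584.KS
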