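import Pool.Agent.Helper584.KS.Defs
import Pool.Agent.Helper584.KS.P_pln
import Pool.Agent.Helper584.KS.P_body_facts

open MeasureTheory Set
open scoped ENNReal RealInnerProductSpace

namespace Pool.Agent.Helper584.KS



theorem HT_mid {n : ℕ} {T : Set (E n)} (hT : Body T) (r s : ℝ) (hr : 0 < r) (hs : 0 < s) :
    HT T r * HT T s ≤ HT T ((r + s) / 2) ^ 2 := by
  obtain ⟨hTm, -, hTfin, -, -⟩ := body_facts hT
  have hm : ∀ ρ : ℝ, MeasurableSet (T ∩ Metric.closedBall (0 : E n) ρ) := fun ρ =>
    hTm.inter Metric.isClosed_closedBall.measurableSet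
  have hfin : ∀ ρ : ℝ, volume (T ∩ Metric.closedBall (0 : E n) ρ) ≠ ∞ := fun ρ =>
    ((measure_mono Set.inter_subset_left).trans_lt hTfin).ne
  have key := pln n ((T ∩ Metric.closedBall (0 : E n) r).indicator 1)
    ((T ∩ Metric.closedBall (0 : E n) s).indicator 1)
    ((T ∩ Metric.closedBall (0 : E n) ((r + s) / 2)).indicator 1)
    (measurable_one.indicator (hm r)) (measurable_one.indicator (hm s))
    (measurable_one.indicator (hm _)) ?_
  · rw [lintegral_indicator_one (hm r), lintegral_indicator_one (hm s),
      lintegral_indicator_one (hm _)] at key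
    unfold HT
    rw [← ENNReal.toReal_mul, ← ENNReal.toReal_pow]
    exact ENNReal.toReal_mono (ENNReal.pow_ne_top (hfin _)) key
  · intro x y
    by_cases hx : x ∈ T ∩ Metric.closedBall (0 : E n) r
    · by_cases hy : y ∈ T ∩ Metric.closedBall (0 : E n) s
      · have hxy : (2 : ℝ)⁻¹ • (x + y) ∈ T ∩ Metric.closedBall (0 : E n) ((r + s) / 2) := by
          constructor
          · have h1 := hT.conv hx.1 hy.1 (a := (2 : ℝ)⁻¹) (b := (2 : ℝ)⁻¹) (by norm_num)
              (by norm_num) (by norm_num)
            rw [smul_add]
            exact h1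
          · rw [mem_closedBall_zero_iff]
            have h1 := mem_closedBall_zero_iff.1 hx.2
            have h2 := mem_closedBall_zero_iff.1 hy.2
            rw [norm_smul, norm_inv, Real.norm_ofNat]
            have h3 := norm_add_le x y
            linarith
        rw [Set.indicator_of_mem hx, Set.indicator_of_mem hy, Set.indicator_of_mem hxy]
        simp
      · rw [Set.indicator_of_notMem hy, mul_zero]
        exact zero_le
    · rw [Set.indicator_of_notMem hx, zero_mul]
      exact zero_le

end Pool.Agent.Helper584.KS
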