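import Pool.Agent.Helper584.KS.Defs
import Pool.Agent.Helper584.KS.P_Good_integrable
import Pool.Agent.Helper584.KS.P_Good_weight_integrable
import Pool.Agent.Helper584.KS.P_Good_exp

open MeasureTheory Set
open scoped ENNReal RealInnerProductSpace

namespace Pool.Agent.Helper584.KS



theorem PA_dp_comm {n : ℕ} (x y : Fin n → ℝ) : dp x y = dp y x := by
  unfold dp
  exact Finset.sum_congr rfl fun i _ => mul_comm _ _

theorem PA_of_PB {n : ℕ} (hB : PB n) : PA n := by
  intro f g hf hg hfg hc
  obtain ⟨z, hz⟩ := hB g f hg hf (fun x y => by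
    rw [mul_comm, PA_dp_comm]
    exact hfg y x)
  have hi : ∀ i, Integrable (fun y : Fin n → ℝ => y i * f y) := fun i =>
    Good_weight_integrable f hf (fun y => y i) (continuous_apply i)
  have h0 : ∫ y, dp z y * f y = 0 := by
    have h1 : (fun y : Fin n → ℝ => dp z y * f y) = fun y => ∑ i, z i * (y i * f y) := by
      funext y
      unfold dp
      rw [Finset.sum_mul]
      exact Finset.sum_congr rfl fun i _ => by ring
    rw [h1, integral_finsetSum _ (fun i _ => (hi i).const_mul (z i))]
    apply Finset.sum_eq_zero
    intro i _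
    rw [integral_const_mul, hc i, mul_zero]
  have hd : Integrable (fun y => dp z y * f y) :=
    Good_weight_integrable f hf (fun y => dp z y) (by
      unfold dp
      fun_prop)
  have h2 : ∫ y, f y ≤ ∫ y, f y * Real.exp (dp z y) := by
    calc ∫ y, f y = ∫ y, (f y + dp z y * f y) := by
          rw [integral_add (Good_integrable f hf) hd, h0, add_zero]
      _ ≤ ∫ y, f y * Real.exp (dp z y) := by
          apply integral_mono ((Good_integrable f hf).add hd)
            (Good_integrable _ (Good_exp f hf z))
          intro y
          have h3 := Real.add_one_le_exp (dp z y)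
          have h4 := hf.nonneg y
          show f y + dp z y * f y ≤ f y * Real.exp (dp z y)
          nlinarith
  have h5 : 0 ≤ ∫ y, g y := integral_nonneg hg.nonneg
  calc (∫ x, f x) * (∫ y, g y) = (∫ y, g y) * (∫ x, f x) := mul_comm _ _
    _ ≤ (∫ y, g y) * (∫ y, f y * Real.exp (dp z y)) := mul_le_mul_of_nonneg_left h2 h5
    _ ≤ (2 * Real.pi) ^ n := hz

end Pool.Agent.Helper584.KS
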