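import Pool.Agent.Helper584.KS.Defs

open MeasureTheory Set
open scoped ENNReal RealInnerProductSpace

namespace Pool.Agent.Helper584.KS



theorem PA_zero : PA 0 := by
  intro f g _ _ H _
  have hv : (volume : Measure (Fin 0 → ℝ)) univ = 1 := by
    rw [volume_pi, Measure.pi_univ]
    simp
  have key : ∀ h : (Fin 0 → ℝ) → ℝ, ∫ x, h x = h default := by
    intro h
    have h1 : h = fun _ => h default := by
      funext x
      rw [Subsingleton.elim x default]
    rw [h1, integral_const, Measure.real, hv]
    simp
  rw [key f, key g, pow_zero]
  refine (H default default).trans ?_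
  simp [dp]

end Pool.Agent.Helper584.KS
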