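import Pool.Agent.Helper584.KS.Defs
import Pool.Agent.Helper584.KS.P_Good_integrable

open MeasureTheory Set
open scoped ENNReal RealInnerProductSpace

namespace Pool.Agent.Helper584.KS



theorem median_null {n : ℕ} (m : ℝ) :
    (volume : Measure (Fin (n + 1) → ℝ)) {x | x 0 = m} = 0 := by
  rw [volume_pi]
  exact Measure.pi_hyperplane (fun _ => (volume : Measure ℝ)) 0 m

theorem median {n : ℕ} (f : (Fin (n + 1) → ℝ) → ℝ) (hf : Good f) :
    ∃ m : ℝ, (∫ x in {x : Fin (n + 1) → ℝ | m < x 0}, f x) = (1 / 2) * ∫ x, f x ∧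
      (∫ x in {x : Fin (n + 1) → ℝ | x 0 < m}, f x) = (1 / 2) * ∫ x, f x := by
  have hint : Integrable f := Good_integrable f hf
  have hms : ∀ m : ℝ, MeasurableSet {x : Fin (n + 1) → ℝ | m < x 0} := fun m =>
    measurableSet_lt measurable_const (measurable_pi_apply 0)
  have hms2 : ∀ m : ℝ, MeasurableSet {x : Fin (n + 1) → ℝ | x 0 < m} := fun m =>
    measurableSet_lt (measurable_pi_apply 0) measurable_const
  have hcont : Continuous (fun m : ℝ => ∫ x, ({x : Fin (n + 1) → ℝ | m < x 0}).indicator f x) := by
    rw [continuous_iff_continuousAt]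
    intro m₀
    refine continuousAt_of_dominated (bound := fun x => ‖f x‖) ?_ ?_ hint.norm ?_
    · exact Filter.Eventually.of_forall (fun m => (hint.indicator (hms m)).aestronglyMeasurable)
    · refine Filter.Eventually.of_forall (fun m => Filter.Eventually.of_forall (fun x => ?_))
      exact norm_indicator_le_norm_self _ _
    · have h0 : ∀ᵐ x : Fin (n + 1) → ℝ, x 0 ≠ m₀ := by
        rw [ae_iff]
        simpa using median_null (n := n) m₀
      filter_upwards [h0] with x hx
      rcases lt_or_gt_of_ne hx with h | h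
      · -- x 0 < m₀ : zero near m₀
        have hev : ∀ᶠ m in nhds m₀, x 0 < m := eventually_gt_nhds h
        refine (continuousAt_const (y := (0:ℝ))).congr ?_
        filter_upwards [hev] with m hm
        rw [Set.indicator_of_notMem]
        simpa using hm.le
      · have hev : ∀ᶠ m in nhds m₀, m < x 0 := eventually_lt_nhds h
        refine (continuousAt_const (y := f x)).congr ?_
        filter_upwards [hev] with m hm
        rw [Set.indicator_of_mem]
        exact hm
  obtain ⟨R, hR⟩ := hf.supp
  have hI0 : 0 ≤ ∫ x, f x := integral_nonneg hf.nonneg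
  have hlow : (∫ x, ({x : Fin (n + 1) → ℝ | (-|R| - 1) < x 0}).indicator f x) = ∫ x, f x := by
    congr 1
    ext x
    by_cases hx : f x = 0
    · rw [hx]
      by_cases h : x ∈ {x : Fin (n + 1) → ℝ | (-|R| - 1) < x 0}
      · rw [Set.indicator_of_mem h, hx]
      · rw [Set.indicator_of_notMem h]
    · rw [Set.indicator_of_mem]
      have := hR x hx 0
      have h2 := (abs_le.1 this).1
      have h3 := le_abs_self R
      show -|R| - 1 < x 0
      linarith
  have hhigh : (∫ x, ({x : Fin (n + 1) → ℝ | (|R| + 1) < x 0}).indicator f x) = 0 := by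
    have : (fun x => ({x : Fin (n + 1) → ℝ | (|R| + 1) < x 0}).indicator f x) = fun _ => 0 := by
      ext x
      by_cases hx : f x = 0
      · by_cases h : x ∈ {x : Fin (n + 1) → ℝ | (|R| + 1) < x 0}
        · rw [Set.indicator_of_mem h, hx]
        · rw [Set.indicator_of_notMem h]
      · rw [Set.indicator_of_notMem]
        have := hR x hx 0
        have h2 := (abs_le.1 this).2
        have h3 := le_abs_self R
        show ¬ (|R| + 1 < x 0)
        linarith
    rw [this, integral_zero]
  have hle : -|R| - 1 ≤ |R| + 1 := by linarith [abs_nonneg R]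
  have hivt := intermediate_value_Icc' hle hcont.continuousOn
  obtain ⟨m, _, hm⟩ := hivt (show (1 / 2) * ∫ x, f x ∈ Icc _ _ from by
    constructor
    · rw [hhigh]
      positivity
    · rw [hlow]
      linarith)
  simp only [] at hm
  rw [integral_indicator (hms m)] at hm
  refine ⟨m, hm, ?_⟩
  have hcompl := integral_add_compl (hms m) hint
  have hc : ({x : Fin (n + 1) → ℝ | m < x 0})ᶜ = {x : Fin (n + 1) → ℝ | x 0 ≤ m} := by
    ext x; simp
  rw [hc] at hcompl
  have hae : ({x : Fin (n + 1) → ℝ | x 0 < m} : Set (Fin (n + 1) → ℝ)) =ᵐ[volume]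
      ({x : Fin (n + 1) → ℝ | x 0 ≤ m} : Set (Fin (n + 1) → ℝ)) := by
    have h0 : ∀ᵐ x : Fin (n + 1) → ℝ, x 0 ≠ m := by
      rw [ae_iff]
      simpa using median_null (n := n) m
    filter_upwards [h0] with x hx
    apply propext
    show x 0 < m ↔ x 0 ≤ m
    exact ⟨le_of_lt, fun h => lt_of_le_of_ne h hx⟩
  rw [setIntegral_congr_set hae]
  linarith

end Pool.Agent.Helper584.KS
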