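import Pool.Agent.Helper584.KS.Defs
import Pool.Agent.Helper584.KS.P_Good_integrable
import Pool.Agent.Helper584.KS.P_Good_weight_integrable
import Pool.Agent.Helper584.KS.P_median

open MeasureTheory Set
open scoped ENNReal RealInnerProductSpace

namespace Pool.Agent.Helper584.KS



theorem ch_meas_p {n : ℕ} (m : ℝ) : MeasurableSet {x : Fin (n + 1) → ℝ | m < x 0} :=
  measurableSet_lt measurable_const (measurable_pi_apply 0)

theorem ch_meas_m {n : ℕ} (m : ℝ) : MeasurableSet {x : Fin (n + 1) → ℝ | x 0 < m} :=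
  measurableSet_lt (measurable_pi_apply 0) measurable_const

theorem ch_shift_p {n : ℕ} (F : (Fin (n + 1) → ℝ) → ℝ) (z : Fin (n + 1) → ℝ) (m : ℝ)
    (hz : z 0 = m) :
    ∫ x in {x : Fin (n + 1) → ℝ | 0 < x 0}, F (z + x) =
      ∫ y in {y : Fin (n + 1) → ℝ | m < y 0}, F y := by
  have hh := integral_add_left_eq_self (μ := volume)
    (Set.indicator {y : Fin (n + 1) → ℝ | m < y 0} F) z
  rw [← integral_indicator (ch_meas_p 0), ← integral_indicator (ch_meas_p m), ← hh]
  congr 1
  funext x
  simp only [Set.indicator, Set.mem_setOf_eq, Pi.add_apply, hz]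
  by_cases h : 0 < x 0
  · rw [if_pos h, if_pos (by linarith)]
  · rw [if_neg h, if_neg (by linarith)]

theorem ch_shift_m {n : ℕ} (F : (Fin (n + 1) → ℝ) → ℝ) (z : Fin (n + 1) → ℝ) (m : ℝ)
    (hz : z 0 = m) :
    ∫ x in {x : Fin (n + 1) → ℝ | x 0 < 0}, F (z + x) =
      ∫ y in {y : Fin (n + 1) → ℝ | y 0 < m}, F y := by
  have hh := integral_add_left_eq_self (μ := volume)
    (Set.indicator {y : Fin (n + 1) → ℝ | y 0 < m} F) z
  rw [← integral_indicator (ch_meas_m 0), ← integral_indicator (ch_meas_m m), ← hh]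
  congr 1
  funext x
  simp only [Set.indicator, Set.mem_setOf_eq, Pi.add_apply, hz]
  by_cases h : x 0 < 0
  · rw [if_pos h, if_pos (by linarith)]
  · rw [if_neg h, if_neg (by linarith)]

theorem ch_expand {n : ℕ} (f : (Fin (n + 1) → ℝ) → ℝ) (hf : Good f) (S : Set (Fin (n + 1) → ℝ))
    (i : Fin n) (a m w : ℝ) :
    ∫ y in S, ((y i.succ - a) - (y 0 - m) * w) * f y =
      (∫ y in S, y i.succ * f y) - a * (∫ y in S, f y) -
        w * ((∫ y in S, y 0 * f y) - m * ∫ y in S, f y) := by
  have h1 : Integrable (fun y => f y) (volume.restrict S) := (Good_integrable f hf).integrableOn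
  have h2 : Integrable (fun y => y i.succ * f y) (volume.restrict S) :=
    (Good_weight_integrable f hf (fun y => y i.succ) (continuous_apply _)).integrableOn
  have h3 : Integrable (fun y => y 0 * f y) (volume.restrict S) :=
    (Good_weight_integrable f hf (fun y => y 0) (continuous_apply _)).integrableOn
  have e : (fun y => ((y i.succ - a) - (y 0 - m) * w) * f y) =
      fun y => (y i.succ * f y - a * f y) - w * (y 0 * f y - m * f y) := by
    funext y; ring
  have h4 : Integrable (fun y => y i.succ * f y - a * f y) (volume.restrict S) :=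
    h2.sub (h1.const_mul a)
  have h5 : Integrable (fun y => w * (y 0 * f y - m * f y)) (volume.restrict S) :=
    (h3.sub (h1.const_mul m)).const_mul w
  rw [e, integral_sub h4 h5,
    integral_sub h2 (h1.const_mul a), integral_const_mul, integral_const_mul,
    integral_sub h3 (h1.const_mul m), integral_const_mul]

theorem ch_pos_p {n : ℕ} (f : (Fin (n + 1) → ℝ) → ℝ) (hf : Good f) (m : ℝ)
    (hp : 0 < ∫ x in {x : Fin (n + 1) → ℝ | m < x 0}, f x) :
    m * (∫ x in {x : Fin (n + 1) → ℝ | m < x 0}, f x) <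
      ∫ x in {x : Fin (n + 1) → ℝ | m < x 0}, x 0 * f x := by
  set S := {x : Fin (n + 1) → ℝ | m < x 0} with hS
  have hmS : MeasurableSet S := ch_meas_p m
  have h1 : Integrable (fun y => f y) (volume.restrict S) := (Good_integrable f hf).integrableOn
  have h3 : Integrable (fun y => y 0 * f y) (volume.restrict S) :=
    (Good_weight_integrable f hf (fun y => y 0) (continuous_apply _)).integrableOn
  have h4 : 0 < ∫ x in S, (x 0 * f x - m * f x) := by
    have hnn : 0 ≤ᵐ[volume.restrict S] fun x => x 0 * f x - m * f x := by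
      filter_upwards [ae_restrict_mem hmS] with x hx
      have : m < x 0 := hx
      have h5 := hf.nonneg x
      change 0 ≤ x 0 * f x - m * f x
      nlinarith
    rw [integral_pos_iff_support_of_nonneg_ae hnn (h3.sub (h1.const_mul m))]
    rw [integral_pos_iff_support_of_nonneg_ae (Filter.Eventually.of_forall hf.nonneg) h1] at hp
    refine lt_of_lt_of_le hp ?_
    rw [Measure.restrict_apply' hmS, Measure.restrict_apply' hmS]
    apply measure_mono
    rintro x ⟨hx1, hx2⟩
    refine ⟨?_, hx2⟩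
    have hx3 : m < x 0 := hx2
    have hx4 : f x ≠ 0 := hx1
    change x 0 * f x - m * f x ≠ 0
    rw [← sub_mul]
    exact mul_ne_zero (sub_pos.2 hx3).ne' hx4
  rw [integral_sub h3 (h1.const_mul m), integral_const_mul] at h4
  linarith

theorem ch_pos_m {n : ℕ} (f : (Fin (n + 1) → ℝ) → ℝ) (hf : Good f) (m : ℝ)
    (hp : 0 < ∫ x in {x : Fin (n + 1) → ℝ | x 0 < m}, f x) :
    (∫ x in {x : Fin (n + 1) → ℝ | x 0 < m}, x 0 * f x) <
    m * (∫ x in {x : Fin (n + 1) → ℝ | x 0 < m}, f x) := by
  set S := {x : Fin (n + 1) → ℝ | x 0 < m} with hS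
  have hmS : MeasurableSet S := ch_meas_m m
  have h1 : Integrable (fun y => f y) (volume.restrict S) := (Good_integrable f hf).integrableOn
  have h3 : Integrable (fun y => y 0 * f y) (volume.restrict S) :=
    (Good_weight_integrable f hf (fun y => y 0) (continuous_apply _)).integrableOn
  have h4 : 0 < ∫ x in S, (m * f x - x 0 * f x) := by
    have hnn : 0 ≤ᵐ[volume.restrict S] fun x => m * f x - x 0 * f x := by
      filter_upwards [ae_restrict_mem hmS] with x hx
      have : x 0 < m := hx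
      have h5 := hf.nonneg x
      change 0 ≤ m * f x - x 0 * f x
      nlinarith
    rw [integral_pos_iff_support_of_nonneg_ae hnn ((h1.const_mul m).sub h3)]
    rw [integral_pos_iff_support_of_nonneg_ae (Filter.Eventually.of_forall hf.nonneg) h1] at hp
    refine lt_of_lt_of_le hp ?_
    rw [Measure.restrict_apply' hmS, Measure.restrict_apply' hmS]
    apply measure_mono
    rintro x ⟨hx1, hx2⟩
    refine ⟨?_, hx2⟩
    have hx3 : x 0 < m := hx2
    have hx4 : f x ≠ 0 := hx1
    change m * f x - x 0 * f x ≠ 0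
    rw [← sub_mul]
    exact mul_ne_zero (sub_pos.2 hx3).ne' hx4
  rw [integral_sub (h1.const_mul m) h3, integral_const_mul] at h4
  linarith

theorem choice {n : ℕ} (f : (Fin (n + 1) → ℝ) → ℝ) (hf : Good f) (hpos : 0 < ∫ x, f x) :
    ∃ (z : Fin (n + 1) → ℝ) (w : Fin n → ℝ),
      (∫ x in {x : Fin (n + 1) → ℝ | 0 < x 0}, f (z + x)) = (1 / 2) * ∫ x, f x ∧
      (∫ x in {x : Fin (n + 1) → ℝ | x 0 < 0}, f (z + x)) = (1 / 2) * ∫ x, f x ∧
      (∀ i : Fin n, ∫ x in {x : Fin (n + 1) → ℝ | 0 < x 0},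
        (x i.succ - x 0 * w i) * f (z + x) = 0) ∧
      (∀ i : Fin n, ∫ x in {x : Fin (n + 1) → ℝ | x 0 < 0},
        (x i.succ - x 0 * w i) * f (z + x) = 0) := by
  obtain ⟨m, hm1, hm2⟩ := median f hf
  have hp1 : 0 < ∫ x in {x : Fin (n + 1) → ℝ | m < x 0}, f x := by rw [hm1]; linarith
  have hp2 : 0 < ∫ x in {x : Fin (n + 1) → ℝ | x 0 < m}, f x := by rw [hm2]; linarith
  have hA := ch_pos_p f hf m hp1
  have hB := ch_pos_m f hf m hp2
  rw [hm1] at hA
  rw [hm2] at hB
  set p := (1 / 2) * ∫ x, f x with hpdef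
  have hp : 0 < p := by rw [hpdef]; linarith
  set A0 := ∫ x in {x : Fin (n + 1) → ℝ | m < x 0}, x 0 * f x with hA0
  set B0 := ∫ x in {x : Fin (n + 1) → ℝ | x 0 < m}, x 0 * f x with hB0
  let A : Fin n → ℝ := fun i => ∫ x in {x : Fin (n + 1) → ℝ | m < x 0}, x i.succ * f x
  let B : Fin n → ℝ := fun i => ∫ x in {x : Fin (n + 1) → ℝ | x 0 < m}, x i.succ * f x
  let w : Fin n → ℝ := fun i => (A i - B i) / (A0 - B0)
  let z : Fin (n + 1) → ℝ := cn m (fun i => (A i - (A0 - m * p) * w i) / p)
  have hz0 : z 0 = m := rfl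
  have hzi : ∀ i : Fin n, z i.succ = (A i - (A0 - m * p) * w i) / p := fun i => rfl
  have hAB : A0 - B0 ≠ 0 := by linarith
  refine ⟨z, w, ?_, ?_, fun i => ?_, fun i => ?_⟩
  · rw [ch_shift_p f z m hz0, hm1]
  · rw [ch_shift_m f z m hz0, hm2]
  · have e := ch_shift_p (fun y => ((y i.succ - z i.succ) - (y 0 - m) * w i) * f y) z m hz0
    have e2 : (fun x : Fin (n + 1) → ℝ => (x i.succ - x 0 * w i) * f (z + x)) =
        fun x => (((z + x) i.succ - z i.succ) - ((z + x) 0 - m) * w i) * f (z + x) := by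
      funext x
      simp only [Pi.add_apply, hz0]
      ring
    rw [e2, e, ch_expand f hf _ i _ m (w i), hm1, hzi]
    change A i - (A i - (A0 - m * p) * w i) / p * p - w i * (A0 - m * p) = 0
    field_simp
    ring
  · have e := ch_shift_m (fun y => ((y i.succ - z i.succ) - (y 0 - m) * w i) * f y) z m hz0
    have e2 : (fun x : Fin (n + 1) → ℝ => (x i.succ - x 0 * w i) * f (z + x)) =
        fun x => (((z + x) i.succ - z i.succ) - ((z + x) 0 - m) * w i) * f (z + x) := by
      funext x
      simp only [Pi.add_apply, hz0]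
      ring
    rw [e2, e, ch_expand f hf _ i _ m (w i), hm2, hzi]
    change B i - (A i - (A0 - m * p) * w i) / p * p - w i * (B0 - m * p) = 0
    have hw : w i * (A0 - B0) = A i - B i := by
      change (A i - B i) / (A0 - B0) * (A0 - B0) = _
      field_simp
    have h6 : (A i - (A0 - m * p) * w i) / p * p = A i - (A0 - m * p) * w i := by
      field_simp
    rw [h6]
    linarith

end Pool.Agent.Helper584.KS
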