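import Pool.Agent.Helper584.KS.Defs
import Pool.Agent.Helper584.BT.Base

open MeasureTheory Set
open scoped ENNReal RealInnerProductSpace

namespace Pool.Agent.Helper584.KS

theorem mpl1 (F G H : ℝ → ℝ≥0∞) (hF : Measurable F) (hG : Measurable G) (hH : Measurable H)
    (HH : ∀ x y, 0 < x → 0 < y → F x * G y ≤ H (Real.sqrt (x * y)) ^ 2) :
    (∫⁻ x in Ioi 0, F x) * (∫⁻ x in Ioi 0, G x) ≤ (∫⁻ x in Ioi 0, H x) ^ 2 :=
  Pool.Agent.Helper584.BT.mpl1 F G H hF hG hH HH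

end Pool.Agent.Helper584.KS
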