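import Pool.Agent.Helper584.KS.Defs
import Pool.Agent.Helper584.KS.P_mpl1

open MeasureTheory Set
open scoped ENNReal RealInnerProductSpace

namespace Pool.Agent.Helper584.KS



theorem oneD (p q : ℝ → ℝ) (hp : Measurable p) (hq : Measurable q) (hp0 : ∀ s, 0 ≤ p s)
    (hq0 : ∀ t, 0 ≤ q t) (ip : IntegrableOn p (Ioi 0)) (iq : IntegrableOn q (Ioi 0))
    (C : ℝ) (hC : 0 ≤ C) (H : ∀ s t, 0 < s → 0 < t → p s * q t ≤ C * Real.exp (-(s * t))) :
    (∫ s in Ioi 0, p s) * (∫ t in Ioi 0, q t) ≤ Real.pi / 2 * C := by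
  have hgi : Integrable (fun u : ℝ => Real.exp (-(u ^ 2 / 2))) := by
    have := integrable_exp_neg_mul_sq (b := 1 / 2) (by norm_num)
    refine this.congr (Filter.Eventually.of_forall fun u => ?_)
    show Real.exp (-(1 / 2) * u ^ 2) = Real.exp (-(u ^ 2 / 2))
    congr 1
    ring
  have hgv : ∫ u in Ioi (0 : ℝ), Real.exp (-(u ^ 2 / 2)) = Real.sqrt (Real.pi / (1 / 2)) / 2 := by
    rw [← integral_gaussian_Ioi (1 / 2)]
    refine setIntegral_congr_fun measurableSet_Ioi fun u _ => ?_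
    show Real.exp (-(u ^ 2 / 2)) = Real.exp (-(1 / 2) * u ^ 2)
    congr 1
    ring
  have h := mpl1 (fun s => ENNReal.ofReal (p s)) (fun t => ENNReal.ofReal (q t))
    (fun u => ENNReal.ofReal (Real.sqrt C * Real.exp (-(u ^ 2 / 2))))
    hp.ennreal_ofReal hq.ennreal_ofReal (by fun_prop) (by
      intro x y hx hy
      show ENNReal.ofReal (p x) * ENNReal.ofReal (q y) ≤
        ENNReal.ofReal (Real.sqrt C * Real.exp (-(Real.sqrt (x * y) ^ 2 / 2))) ^ 2
      rw [← ENNReal.ofReal_mul (hp0 x), ← ENNReal.ofReal_pow (by positivity)]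
      apply ENNReal.ofReal_le_ofReal
      refine (H x y hx hy).trans (le_of_eq ?_)
      rw [mul_pow, Real.sq_sqrt hC, Real.sq_sqrt (mul_pos hx hy).le, ← Real.exp_nat_mul]
      congr 2
      push_cast
      ring)
  have e1 : ∫⁻ s in Ioi (0 : ℝ), ENNReal.ofReal (p s) = ENNReal.ofReal (∫ s in Ioi 0, p s) :=
    (ofReal_integral_eq_lintegral_ofReal ip (Filter.Eventually.of_forall hp0)).symm
  have e2 : ∫⁻ s in Ioi (0 : ℝ), ENNReal.ofReal (q s) = ENNReal.ofReal (∫ s in Ioi 0, q s) :=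
    (ofReal_integral_eq_lintegral_ofReal iq (Filter.Eventually.of_forall hq0)).symm
  have e3 : ∫⁻ u in Ioi (0 : ℝ), ENNReal.ofReal (Real.sqrt C * Real.exp (-(u ^ 2 / 2))) =
      ENNReal.ofReal (Real.sqrt C * (Real.sqrt (Real.pi / (1 / 2)) / 2)) := by
    rw [← hgv, ← integral_const_mul]
    exact (ofReal_integral_eq_lintegral_ofReal (hgi.integrableOn.const_mul _)
      (Filter.Eventually.of_forall fun u => by positivity)).symm
  have hP : 0 ≤ ∫ s in Ioi (0 : ℝ), p s := integral_nonneg hp0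
  rw [e1, e2, e3, ← ENNReal.ofReal_mul hP, ← ENNReal.ofReal_pow (by positivity),
    ENNReal.ofReal_le_ofReal_iff (by positivity)] at h
  refine h.trans (le_of_eq ?_)
  rw [mul_pow, Real.sq_sqrt hC, div_pow, Real.sq_sqrt (by positivity)]
  ring

end Pool.Agent.Helper584.KS
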