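import Pool.Agent.Helper584.KS.Defs
import Pool.Agent.Helper584.KS.P_oneD

open MeasureTheory Set
open scoped ENNReal RealInnerProductSpace

namespace Pool.Agent.Helper584.KS



theorem pair_FG {n : ℕ} (f g : (Fin (n + 1) → ℝ) → ℝ) (hf : Good f) (hg : Good g)
    (H : ∀ x y, f x * g y ≤ Real.exp (-dp x y)) (w : Fin n → ℝ) (x' y' : Fin n → ℝ) :
    (∫ s in Ioi (0 : ℝ), f (cn s (x' + s • w))) * (∫ t in Ioi (0 : ℝ), g (cn (t - dp y' w) y')) ≤
      Real.pi / 2 * Real.exp (-dp x' y') := by
  have m1 : Measurable (fun s : ℝ => cn s (x' + s • w)) := by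
    refine measurable_pi_iff.2 (fun i => ?_)
    refine Fin.cases ?_ (fun j => ?_) i
    · simp only [cn, Fin.cons_zero]; exact measurable_id
    · simp only [cn, Fin.cons_succ, Pi.add_apply, Pi.smul_apply, smul_eq_mul]
      exact (measurable_const.add (measurable_id.mul measurable_const))
  have m2 : Measurable (fun t : ℝ => cn (t - dp y' w) y') := by
    refine measurable_pi_iff.2 (fun i => ?_)
    refine Fin.cases ?_ (fun j => ?_) i
    · simp only [cn, Fin.cons_zero]
      exact measurable_id.sub measurable_const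
    · simp only [cn, Fin.cons_succ]
      exact measurable_const
  have hpm : Measurable (fun s : ℝ => f (cn s (x' + s • w))) := hf.meas.comp m1
  have hqm : Measurable (fun t : ℝ => g (cn (t - dp y' w) y')) := hg.meas.comp m2
  obtain ⟨M1, hM1⟩ := hf.bdd
  obtain ⟨R1, hR1⟩ := hf.supp
  obtain ⟨M2, hM2⟩ := hg.bdd
  obtain ⟨R2, hR2⟩ := hg.supp
  have key : ∀ (u : ℝ → ℝ) (M a b : ℝ), Measurable u → (∀ s, 0 ≤ u s) → (∀ s, u s ≤ M) →
      (∀ s, u s ≠ 0 → a ≤ s ∧ s ≤ b) → Integrable u := by
    intro u M a b hu h0 hM hs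
    have hI : Integrable ((Set.Icc a b).indicator (fun _ : ℝ => M)) := by
      rw [integrable_indicator_iff measurableSet_Icc]
      exact integrableOn_const (by simp)
    refine hI.mono' hu.aestronglyMeasurable (Filter.Eventually.of_forall (fun s => ?_))
    rw [Real.norm_eq_abs, abs_of_nonneg (h0 s)]
    by_cases h : u s = 0
    · rw [h]
      refine Set.indicator_nonneg (fun _ _ => ?_) s
      exact le_trans (h0 s) (hM s)
    · rw [Set.indicator_of_mem (show s ∈ Set.Icc a b from hs s h)]
      exact hM s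
  have ip : Integrable (fun s : ℝ => f (cn s (x' + s • w))) := by
    refine key _ M1 (-R1) R1 hpm (fun s => hf.nonneg _) (fun s => hM1 _) (fun s hs => ?_)
    have := hR1 _ hs 0
    simp only [cn, Fin.cons_zero] at this
    exact abs_le.1 this
  have iq : Integrable (fun t : ℝ => g (cn (t - dp y' w) y')) := by
    refine key _ M2 (-R2 + dp y' w) (R2 + dp y' w) hqm (fun s => hg.nonneg _) (fun s => hM2 _)
      (fun s hs => ?_)
    have := hR2 _ hs 0
    simp only [cn, Fin.cons_zero] at this
    have h2 := abs_le.1 this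
    exact ⟨by linarith [h2.1], by linarith [h2.2]⟩
  refine oneD _ _ hpm hqm (fun s => hf.nonneg _) (fun s => hg.nonneg _) ip.integrableOn
    iq.integrableOn _ (Real.exp_pos _).le (fun s t _ _ => ?_)
  refine le_trans (H _ _) (le_of_eq ?_)
  rw [← Real.exp_add]
  congr 1
  simp only [dp, cn, Fin.sum_univ_succ, Fin.cons_zero, Fin.cons_succ, Pi.add_apply, Pi.smul_apply,
    smul_eq_mul]
  have : ∑ i, (x' i + s * w i) * y' i = ∑ i, x' i * y' i + s * ∑ i, y' i * w i := by
    rw [Finset.mul_sum, ← Finset.sum_add_distrib]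
    refine Finset.sum_congr rfl (fun i _ => ?_)
    ring
  rw [this]
  ring

end Pool.Agent.Helper584.KS
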