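import Pool.Agent.Helper584.KS.Defs

open MeasureTheory Set
open scoped ENNReal RealInnerProductSpace

namespace Pool.Agent.Helper584.KS



theorem shear_dual {n : ℕ} (φ : (Fin (n + 1) → ℝ) → ℝ) (hφ : Integrable φ) (w : Fin n → ℝ) :
    ∫ y' : Fin n → ℝ, ∫ t in Ioi (0 : ℝ), φ (cn (t - dp y' w) y') =
      ∫ y in {y : Fin (n + 1) → ℝ | 0 < y 0 + dp (tl y) w}, φ y := by
  classical
  have hS : MeasurableSet {y : Fin (n + 1) → ℝ | 0 < y 0 + dp (tl y) w} := by
    apply measurableSet_lt measurable_const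
    unfold dp tl
    fun_prop
  rw [← integral_indicator hS]
  set S := {y : Fin (n + 1) → ℝ | 0 < y 0 + dp (tl y) w} with hSdef
  have he := (volume_preserving_piFinSuccAbove (fun _ : Fin (n + 1) => ℝ) 0).symm
  have hcn : ∀ p : ℝ × (Fin n → ℝ),
      (MeasurableEquiv.piFinSuccAbove (fun _ : Fin (n + 1) => ℝ) 0).symm p = cn p.1 p.2 := by
    intro p
    funext i
    refine Fin.cases ?_ (fun i => ?_) i
    · simp [cn, MeasurableEquiv.piFinSuccAbove]
    · simp [cn, MeasurableEquiv.piFinSuccAbove]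
  have h1 : ∫ p : ℝ × (Fin n → ℝ), S.indicator φ (cn p.1 p.2) = ∫ y, S.indicator φ y := by
    have := he.integral_comp (MeasurableEquiv.measurableEmbedding _) (S.indicator φ)
    simp only [hcn] at this
    exact this
  have hint : Integrable (fun p : ℝ × (Fin n → ℝ) => S.indicator φ (cn p.1 p.2)) := by
    have h2 := (he.integrable_comp_emb (MeasurableEquiv.measurableEmbedding _)
      (g := S.indicator φ)).2 (hφ.indicator hS)
    refine h2.congr (Filter.Eventually.of_forall fun p => ?_)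
    simp only [Function.comp, hcn]
  rw [← h1]
  have h3 : ∫ p : ℝ × (Fin n → ℝ), S.indicator φ (cn p.1 p.2) =
      ∫ v : Fin n → ℝ, ∫ t : ℝ, S.indicator φ (cn t v) :=
    integral_prod_symm (fun p : ℝ × (Fin n → ℝ) => S.indicator φ (cn p.1 p.2)) hint
  rw [h3]
  congr 1
  funext v
  have h4 : ∫ t : ℝ, S.indicator φ (cn t v) = ∫ t : ℝ, S.indicator φ (cn (t - dp v w) v) :=
    (integral_sub_right_eq_self (fun t : ℝ => S.indicator φ (cn t v)) (dp v w)).symm
  rw [h4, ← integral_indicator measurableSet_Ioi]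
  congr 1
  funext t
  by_cases ht : 0 < t
  · rw [Set.indicator_of_mem (show t ∈ Ioi (0 : ℝ) from ht), Set.indicator_of_mem]
    show 0 < (cn (t - dp v w) v) 0 + dp (tl (cn (t - dp v w) v)) w
    have : tl (cn (t - dp v w) v) = v := by funext i; simp [tl, cn]
    rw [this]
    simpa [cn] using ht
  · rw [Set.indicator_of_notMem (show t ∉ Ioi (0 : ℝ) from ht), Set.indicator_of_notMem]
    show ¬ 0 < (cn (t - dp v w) v) 0 + dp (tl (cn (t - dp v w) v)) w
    have : tl (cn (t - dp v w) v) = v := by funext i; simp [tl, cn]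
    rw [this]
    simpa [cn] using ht

end Pool.Agent.Helper584.KS
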