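import Pool.Agent.Helper584.KS.Defs

open MeasureTheory Set
open scoped ENNReal RealInnerProductSpace

namespace Pool.Agent.Helper584.KS



/-- the shear as a measurable equivalence -/
noncomputable def shear_int_T {n : ℕ} (w : Fin n → ℝ) : (ℝ × (Fin n → ℝ)) ≃ᵐ (ℝ × (Fin n → ℝ)) where
  toFun p := (p.1, p.2 + p.1 • w)
  invFun p := (p.1, p.2 - p.1 • w)
  left_inv p := by simp
  right_inv p := by simp
  measurable_toFun := by
    show Measurable (fun p : ℝ × (Fin n → ℝ) => (p.1, p.2 + p.1 • w))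
    fun_prop
  measurable_invFun := by
    show Measurable (fun p : ℝ × (Fin n → ℝ) => (p.1, p.2 - p.1 • w))
    fun_prop

theorem shear_int_Tmp {n : ℕ} (w : Fin n → ℝ) :
    MeasurePreserving (shear_int_T w) (volume.prod volume) (volume.prod volume) := by
  have h := MeasurePreserving.skew_product (μa := (volume : Measure ℝ)) (μb := (volume : Measure ℝ))
    (μc := (volume : Measure (Fin n → ℝ))) (μd := (volume : Measure (Fin n → ℝ)))
    (f := fun x : ℝ => x) (MeasurePreserving.id volume)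
    (g := fun (s : ℝ) (v : Fin n → ℝ) => v + s • w) (by
      show Measurable (fun p : ℝ × (Fin n → ℝ) => p.2 + p.1 • w)
      fun_prop) (Filter.Eventually.of_forall fun s => (measurePreserving_add_right volume (s • w)).map_eq)
  exact h

theorem shear_int {n : ℕ} (φ : (Fin (n + 1) → ℝ) → ℝ) (hφ : Integrable φ) (w : Fin n → ℝ) :
    ∫ x' : Fin n → ℝ, ∫ s in Ioi (0 : ℝ), φ (cn s (x' + s • w)) =
      ∫ x in {x : Fin (n + 1) → ℝ | 0 < x 0}, φ x := by
  have he : MeasurePreserving (MeasurableEquiv.piFinSuccAbove (fun _ : Fin (n + 1) => ℝ) 0)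
      volume (volume.prod volume) := volume_preserving_piFinSuccAbove (fun _ => ℝ) 0
  have hes := he.symm
  have hF := hes.comp (shear_int_Tmp w)
  have hFe : MeasurableEmbedding ((MeasurableEquiv.piFinSuccAbove (fun _ : Fin (n + 1) => ℝ) 0).symm ∘
      (shear_int_T w)) :=
    (MeasurableEquiv.measurableEmbedding _).comp (MeasurableEquiv.measurableEmbedding _)
  have hFeq : ∀ (s : ℝ) (v : Fin n → ℝ),
      ((MeasurableEquiv.piFinSuccAbove (fun _ : Fin (n + 1) => ℝ) 0).symm ∘ (shear_int_T w)) (s, v) =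
        cn s (v + s • w) := by
    intro s v
    show Fin.insertNth 0 s (v + s • w) = cn s (v + s • w)
    rw [Fin.insertNth_zero']
    rfl
  rw [← hF.setIntegral_preimage_emb hFe φ]
  have hpre : ((MeasurableEquiv.piFinSuccAbove (fun _ : Fin (n + 1) => ℝ) 0).symm ∘
      (shear_int_T w)) ⁻¹' {x : Fin (n + 1) → ℝ | 0 < x 0} = (Ioi (0:ℝ)) ×ˢ (univ : Set (Fin n → ℝ)) := by
    ext ⟨s, v⟩
    rw [mem_preimage, hFeq]
    simp [cn]
  rw [hpre, ← Measure.prod_restrict, Measure.restrict_univ, integral_prod_symm]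
  · simp_rw [hFeq]
  · have h1 : Integrable (fun p => φ (((MeasurableEquiv.piFinSuccAbove (fun _ : Fin (n + 1) => ℝ) 0).symm ∘
      (shear_int_T w)) p)) (volume.prod volume) := hF.integrable_comp_of_integrable hφ
    have h2 := h1.restrict (s := (Ioi (0:ℝ)) ×ˢ (univ : Set (Fin n → ℝ)))
    rw [← Measure.prod_restrict, Measure.restrict_univ] at h2
    exact h2

end Pool.Agent.Helper584.KS
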