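import Pool.Agent.Helper584.KS.Defs
import Pool.Agent.Helper584.KS.P_Good_integrable
import Pool.Agent.Helper584.KS.P_Good_weight_integrable
import Pool.Agent.Helper584.KS.P_shear_int
import Pool.Agent.Helper584.KS.P_shear_dual
import Pool.Agent.Helper584.KS.P_Good_F
import Pool.Agent.Helper584.KS.P_Good_G
import Pool.Agent.Helper584.KS.P_pair_FG

open MeasureTheory Set
open scoped ENNReal RealInnerProductSpace

namespace Pool.Agent.Helper584.KS



theorem half {n : ℕ} (hA : PA n) (f g : (Fin (n + 1) → ℝ) → ℝ) (hf : Good f) (hg : Good g)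
    (H : ∀ x y, f x * g y ≤ Real.exp (-dp x y)) (w : Fin n → ℝ)
    (hb : ∀ i : Fin n, ∫ x in {x : Fin (n + 1) → ℝ | 0 < x 0}, (x i.succ - x 0 * w i) * f x = 0) :
    (∫ x in {x : Fin (n + 1) → ℝ | 0 < x 0}, f x) *
      (∫ y in {y : Fin (n + 1) → ℝ | 0 < y 0 + dp (tl y) w}, g y) ≤
        Real.pi / 2 * (2 * Real.pi) ^ n := by
  have hF := Good_F f hf w
  have hG := Good_G g hg w
  have hpi := Real.pi_pos
  rw [← shear_int f (Good_integrable f hf) w, ← shear_dual g (Good_integrable g hg) w]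
  set F : (Fin n → ℝ) → ℝ := fun x' => ∫ s in Ioi (0 : ℝ), f (cn s (x' + s • w)) with hFd
  set G : (Fin n → ℝ) → ℝ := fun y' => ∫ t in Ioi (0 : ℝ), g (cn (t - dp y' w) y') with hGd
  have hF1 : Good (fun x' => 2 / Real.pi * F x') := by
    obtain ⟨hm, hn, ⟨M, hM⟩, ⟨R, hR⟩⟩ := hF
    refine ⟨hm.const_mul _, fun x => mul_nonneg (by positivity) (hn x), ⟨2 / Real.pi * M, fun x => ?_⟩,
      ⟨R, fun x hx => hR x (right_ne_zero_of_mul hx)⟩⟩
    exact mul_le_mul_of_nonneg_left (hM x) (by positivity)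
  have hp : ∀ x y, 2 / Real.pi * F x * G y ≤ Real.exp (-dp x y) := by
    intro x y
    have h1 := pair_FG f g hf hg H w x y
    have h2 : 2 / Real.pi * (F x * G y) ≤ 2 / Real.pi * (Real.pi / 2 * Real.exp (-dp x y)) :=
      mul_le_mul_of_nonneg_left h1 (by positivity)
    calc 2 / Real.pi * F x * G y = 2 / Real.pi * (F x * G y) := by ring
      _ ≤ _ := h2
      _ = Real.exp (-dp x y) := by field_simp
  have hbar : ∀ i, ∫ x, x i * (2 / Real.pi * F x) = 0 := by
    intro i
    have hφ : Integrable (fun x : Fin (n + 1) → ℝ => (x i.succ - x 0 * w i) * f x) :=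
      Good_weight_integrable f hf (fun x => x i.succ - x 0 * w i) (by fun_prop)
    have h1 := shear_int _ hφ w
    rw [hb i] at h1
    have h2 : ∀ x' : Fin n → ℝ, x' i * (2 / Real.pi * F x') = 2 / Real.pi *
        ∫ s in Ioi (0 : ℝ), ((cn s (x' + s • w)) i.succ - (cn s (x' + s • w)) 0 * w i) *
          f (cn s (x' + s • w)) := by
      intro x'
      have h3 : ∀ s : ℝ, ((cn s (x' + s • w)) i.succ - (cn s (x' + s • w)) 0 * w i) *
          f (cn s (x' + s • w)) = x' i * f (cn s (x' + s • w)) := by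
        intro s
        congr 1
        simp [cn]
      simp only [h3]
      rw [integral_const_mul]
      ring
    simp only [h2]
    rw [integral_const_mul, h1, mul_zero]
  have h1 := hA _ G hF1 hG hp hbar
  rw [integral_const_mul] at h1
  have h2 : (∫ x, F x) * (∫ y, G y) = Real.pi / 2 * (2 / Real.pi * (∫ x, F x) * ∫ y, G y) := by
    field_simp
  rw [h2]
  exact mul_le_mul_of_nonneg_left h1 (by positivity)

end Pool.Agent.Helper584.KS
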