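import Pool.Agent.Helper584.KS.Defs
import Pool.Agent.Helper584.KS.P_half

open MeasureTheory Set
open scoped ENNReal RealInnerProductSpace

namespace Pool.Agent.Helper584.KS



theorem hn_int {m : ℕ} (S S' : Set (Fin m → ℝ)) (hS : ∀ x, x ∈ S' ↔ -x ∈ S)
    (F : (Fin m → ℝ) → ℝ) : ∫ x in S', F (-x) = ∫ x in S, F x := by
  have h := (Measure.measurePreserving_neg (volume : Measure (Fin m → ℝ))).setIntegral_preimage_emb
    (MeasurableEquiv.neg (Fin m → ℝ)).measurableEmbedding F S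
  have e : S' = Neg.neg ⁻¹' S := by
    ext x
    exact hS x
  rw [e]
  exact h

theorem hn_good {m : ℕ} (f : (Fin m → ℝ) → ℝ) (hf : Good f) : Good (fun x => f (-x)) := by
  refine ⟨hf.meas.comp measurable_neg, fun x => hf.nonneg _, ?_, ?_⟩
  · obtain ⟨M, hM⟩ := hf.bdd
    exact ⟨M, fun x => hM _⟩
  · obtain ⟨R, hR⟩ := hf.supp
    refine ⟨R, fun x hx i => ?_⟩
    have := hR (-x) hx i
    rwa [Pi.neg_apply, abs_neg] at this

theorem half_neg {n : ℕ} (hA : PA n) (f g : (Fin (n + 1) → ℝ) → ℝ) (hf : Good f) (hg : Good g)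
    (H : ∀ x y, f x * g y ≤ Real.exp (-dp x y)) (w : Fin n → ℝ)
    (hb : ∀ i : Fin n, ∫ x in {x : Fin (n + 1) → ℝ | x 0 < 0}, (x i.succ - x 0 * w i) * f x = 0) :
    (∫ x in {x : Fin (n + 1) → ℝ | x 0 < 0}, f x) *
      (∫ y in {y : Fin (n + 1) → ℝ | y 0 + dp (tl y) w < 0}, g y) ≤
        Real.pi / 2 * (2 * Real.pi) ^ n := by
  have hS1 : ∀ x : Fin (n + 1) → ℝ, x ∈ {x : Fin (n + 1) → ℝ | 0 < x 0} ↔
      -x ∈ {x : Fin (n + 1) → ℝ | x 0 < 0} := by
    intro x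
    show 0 < x 0 ↔ -x 0 < 0
    rw [neg_lt_zero]
  have hdp : ∀ y : Fin (n + 1) → ℝ, dp (tl (-y)) w = - dp (tl y) w := by
    intro y
    unfold dp tl
    rw [← Finset.sum_neg_distrib]
    refine Finset.sum_congr rfl fun i _ => ?_
    rw [Pi.neg_apply, neg_mul]
  have hS2 : ∀ y : Fin (n + 1) → ℝ, y ∈ {y : Fin (n + 1) → ℝ | 0 < y 0 + dp (tl y) w} ↔
      -y ∈ {y : Fin (n + 1) → ℝ | y 0 + dp (tl y) w < 0} := by
    intro y
    show 0 < y 0 + dp (tl y) w ↔ (-y) 0 + dp (tl (-y)) w < 0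
    rw [hdp, Pi.neg_apply]
    constructor <;> intro h <;> linarith
  have h1 := half hA (fun x => f (-x)) (fun y => g (-y)) (hn_good f hf) (hn_good g hg) (by
    intro x y
    have h2 := H (-x) (-y)
    have e : dp (-x) (-y) = dp x y := by
      unfold dp
      refine Finset.sum_congr rfl fun i _ => ?_
      rw [Pi.neg_apply, Pi.neg_apply, neg_mul_neg]
    rwa [e] at h2) w (by
    intro i
    have h2 := hn_int _ _ hS1 (fun x => (x i.succ - x 0 * w i) * f x)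
    rw [hb i] at h2
    have e : ∀ x : Fin (n + 1) → ℝ, (x i.succ - x 0 * w i) * f (-x) =
        - (((-x) i.succ - (-x) 0 * w i) * f (-x)) := by
      intro x
      rw [Pi.neg_apply, Pi.neg_apply]
      ring
    simp only [e]
    rw [integral_neg, neg_eq_zero]
    exact h2)
  have e1 := hn_int _ _ hS1 f
  have e2 := hn_int _ _ hS2 g
  have h3 : (∫ x in {x : Fin (n + 1) → ℝ | 0 < x 0}, f (-x)) *
      (∫ y in {y : Fin (n + 1) → ℝ | 0 < y 0 + dp (tl y) w}, g (-y)) ≤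
        Real.pi / 2 * (2 * Real.pi) ^ n := h1
  rwa [e1, e2] at h3

end Pool.Agent.Helper584.KS
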