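import Pool.Agent.Helper584.KS.Defs
import Pool.Agent.Helper584.KS.P_Good_integrable
import Pool.Agent.Helper584.KS.P_half
import Pool.Agent.Helper584.KS.P_half_neg
import Pool.Agent.Helper584.KS.P_choice
import Pool.Agent.Helper584.KS.P_Good_shift
import Pool.Agent.Helper584.KS.P_Good_exp

open MeasureTheory Set
open scoped ENNReal RealInnerProductSpace

namespace Pool.Agent.Helper584.KS



theorem pb_null {n : ℕ} (w : Fin n → ℝ) :
    (volume : Measure (Fin (n + 1) → ℝ)) {y | y 0 + dp (tl y) w = 0} = 0 := by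
  obtain ⟨L, hL⟩ : ∃ L : (Fin (n + 1) → ℝ) →ₗ[ℝ] ℝ, ∀ y, L y = y 0 + dp (tl y) w := by
    refine ⟨{ toFun := fun y => y 0 + dp (tl y) w, map_add' := ?_, map_smul' := ?_ }, fun y => rfl⟩
    · intro x y
      simp only [dp, tl, Pi.add_apply, add_mul, Finset.sum_add_distrib]
      ring
    · intro c x
      simp only [dp, tl, Pi.smul_apply, smul_eq_mul, RingHom.id_apply, mul_add, Finset.mul_sum,
        mul_assoc]
  have h1 : {y : Fin (n + 1) → ℝ | y 0 + dp (tl y) w = 0} = (LinearMap.ker L : Set _) := by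
    ext y
    rw [mem_setOf_eq, SetLike.mem_coe, LinearMap.mem_ker, hL]
  rw [h1]
  apply Measure.addHaar_submodule
  intro h2
  have h3 : (Pi.single 0 1 : Fin (n + 1) → ℝ) ∈ LinearMap.ker L := by rw [h2]; trivial
  rw [LinearMap.mem_ker, hL] at h3
  have h4 : dp (tl (Pi.single 0 1 : Fin (n + 1) → ℝ)) w = 0 := by
    unfold dp tl
    refine Finset.sum_eq_zero fun i _ => ?_
    rw [Pi.single_eq_of_ne (Fin.succ_ne_zero i), zero_mul]
  rw [h4, Pi.single_eq_same] at h3
  norm_num at h3

theorem pb_meas {n : ℕ} (w : Fin n → ℝ) : Measurable (fun y : Fin (n + 1) → ℝ => y 0 + dp (tl y) w) := by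
  unfold dp tl
  fun_prop

theorem pb_split {n : ℕ} (w : Fin n → ℝ) (g : (Fin (n + 1) → ℝ) → ℝ) (hg : Integrable g) :
    (∫ y in {y : Fin (n + 1) → ℝ | 0 < y 0 + dp (tl y) w}, g y) +
      (∫ y in {y : Fin (n + 1) → ℝ | y 0 + dp (tl y) w < 0}, g y) = ∫ y, g y := by
  have hm : MeasurableSet {y : Fin (n + 1) → ℝ | 0 < y 0 + dp (tl y) w} :=
    measurableSet_lt measurable_const (pb_meas w)
  rw [← integral_add_compl hm hg]
  congr 1
  apply setIntegral_congr_set
  have h0 := pb_null w
  rw [measure_eq_zero_iff_ae_notMem] at h0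
  filter_upwards [h0] with y hy
  apply propext
  show (y 0 + dp (tl y) w < 0) ↔ ¬ (0 < y 0 + dp (tl y) w)
  rw [not_lt]
  constructor
  · exact fun h => h.le
  · exact fun h => lt_of_le_of_ne h hy

theorem PB_step {n : ℕ} (hA : PA n) : PB (n + 1) := by
  intro f g hf hg H
  have hnn : 0 ≤ ∫ x, f x := integral_nonneg hf.nonneg
  rcases hnn.eq_or_lt with h0 | hpos
  · refine ⟨0, ?_⟩
    rw [← h0, zero_mul]
    positivity
  · obtain ⟨z, w, e1, e2, b1, b2⟩ := choice f hf hpos
    refine ⟨z, ?_⟩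
    have H' : ∀ x y, f (z + x) * (g y * Real.exp (dp z y)) ≤ Real.exp (-dp x y) := by
      intro x y
      have h1 := H (z + x) y
      have h2 : dp (z + x) y = dp z y + dp x y := by
        simp only [dp, Pi.add_apply, add_mul, Finset.sum_add_distrib]
      rw [h2] at h1
      have h3 := mul_le_mul_of_nonneg_right h1 (Real.exp_pos (dp z y)).le
      rw [← Real.exp_add] at h3
      have h4 : -(dp z y + dp x y) + dp z y = -dp x y := by ring
      rw [h4] at h3
      calc f (z + x) * (g y * Real.exp (dp z y)) = f (z + x) * g y * Real.exp (dp z y) := by ring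
        _ ≤ _ := h3
    have k1 := half hA (fun x => f (z + x)) (fun y => g y * Real.exp (dp z y))
      (Good_shift f hf z) (Good_exp g hg z) H' w b1
    have k2 := half_neg hA (fun x => f (z + x)) (fun y => g y * Real.exp (dp z y))
      (Good_shift f hf z) (Good_exp g hg z) H' w b2
    have k3 := pb_split w (fun y => g y * Real.exp (dp z y))
      (Good_integrable _ (Good_exp g hg z))
    rw [e1] at k1
    rw [e2] at k2
    rw [← k3]
    have h5 : (2 * Real.pi) ^ (n + 1) = 2 * (Real.pi / 2 * (2 * Real.pi) ^ n) +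
        2 * (Real.pi / 2 * (2 * Real.pi) ^ n) := by
      rw [pow_succ]; ring
    rw [h5, mul_add]
    linarith

end Pool.Agent.Helper584.KS
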