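import Pool.Agent.Helper584.KS.Defs
import Pool.Agent.Helper584.KS.P_PB_step
import Pool.Agent.Helper584.KS.P_PA_of_PB
import Pool.Agent.Helper584.KS.P_PA_zero

open MeasureTheory Set
open scoped ENNReal RealInnerProductSpace

namespace Pool.Agent.Helper584.KS



theorem PA_all (n : ℕ) : PA n := by
  induction n with
  | zero => exact PA_zero
  | succ n ih => exact PA_of_PB (PB_step ih)

end Pool.Agent.Helper584.KS
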