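import Pool.Agent.Helper584.KS.Defs
import Pool.Agent.Helper584.KS.P_bT_mono

open MeasureTheory Set
open scoped ENNReal RealInnerProductSpace

namespace Pool.Agent.Helper584.KS



theorem Ph_expand {n : ℕ} {T : Set (E n)} (hT : Body T) (θ δ : ℝ) (h0 : 0 < θ) (hδ : 0 < δ)
    (h1 : θ + δ ≤ Real.pi / 2) (x y : E n) :
    Real.cos δ * ‖x - y‖ ≤ ‖Ph T θ δ x - Ph T θ δ y‖ := by
  have hs : 0 < Real.sin θ := Real.sin_pos_of_pos_of_lt_pi h0 (by linarith [Real.pi_pos])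
  have ha : 0 < Real.cos θ := Real.cos_pos_of_mem_Ioo ⟨by linarith [Real.pi_pos], by linarith⟩
  have hsd : 0 < Real.sin δ := Real.sin_pos_of_pos_of_lt_pi hδ (by linarith [Real.pi_pos])
  rcases eq_or_ne x y with rfl | hxy
  · simp
  have hn : 0 < ‖x - y‖ := norm_pos_iff.2 (sub_ne_zero.2 hxy)
  have h2 := bT_mono hT (Real.sin θ) hs (Real.cos θ • x) (Real.cos θ • y)
  rw [← smul_sub, inner_smul_right, norm_smul, Real.norm_of_nonneg ha.le, mul_pow, pow_two (Real.cos θ),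
    mul_assoc] at h2
  have h3 := le_of_mul_le_mul_left h2 ha
  have h4 : Ph T θ δ x - Ph T θ δ y = (Real.sin (θ + δ) / Real.sin θ) • (x - y) -
      (Real.sin δ / Real.sin θ) • (bT T (Real.sin θ) (Real.cos θ • x) -
        bT T (Real.sin θ) (Real.cos θ • y)) := by
    unfold Ph
    rw [smul_sub, smul_sub]
    abel
  have h5 : Real.cos δ * ‖x - y‖ ^ 2 ≤ ⟪Ph T θ δ x - Ph T θ δ y, x - y⟫ := by
    rw [h4, inner_sub_left, real_inner_smul_left, real_inner_smul_left,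
      real_inner_self_eq_norm_sq]
    generalize ⟪bT T (Real.sin θ) (Real.cos θ • x) - bT T (Real.sin θ) (Real.cos θ • y), x - y⟫ = B
      at *
    have h6 : Real.sin δ / Real.sin θ * B ≤ Real.sin δ / Real.sin θ * (Real.cos θ * ‖x - y‖ ^ 2) :=
      mul_le_mul_of_nonneg_left h3 (by positivity)
    have h7 : Real.sin (θ + δ) / Real.sin θ * ‖x - y‖ ^ 2 -
        Real.sin δ / Real.sin θ * (Real.cos θ * ‖x - y‖ ^ 2) = Real.cos δ * ‖x - y‖ ^ 2 := by
      rw [Real.sin_add]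
      field_simp
      ring
    linarith
  have h8 := real_inner_le_norm (Ph T θ δ x - Ph T θ δ y) (x - y)
  have h9 : Real.cos δ * ‖x - y‖ * ‖x - y‖ ≤ ‖Ph T θ δ x - Ph T θ δ y‖ * ‖x - y‖ := by
    calc Real.cos δ * ‖x - y‖ * ‖x - y‖ = Real.cos δ * ‖x - y‖ ^ 2 := by ring
      _ ≤ _ := h5.trans h8
  exact le_of_mul_le_mul_right h9 hn

end Pool.Agent.Helper584.KS
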