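import Pool.Agent.Helper584.KS.Defs
import Pool.Agent.Helper584.KS.P_body_facts
import Pool.Agent.Helper584.KS.P_NT_pos

open MeasureTheory Set
open scoped ENNReal RealInnerProductSpace

namespace Pool.Agent.Helper584.KS



theorem bT_symm_int {n : ℕ} {T : Set (E n)} (hT : Body T) {F : Type*} [NormedAddCommGroup F]
    [NormedSpace ℝ F] (f : E n → F) : ∫ z in T, f (-z) = ∫ z in T, f z := by
  have hm := (body_facts hT).1
  rw [← integral_indicator hm, ← integral_indicator hm]
  have h1 : (fun z => T.indicator (fun z => f (-z)) z) = fun z => T.indicator f (-z) := by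
    funext z
    by_cases hz : z ∈ T
    · rw [indicator_of_mem hz, indicator_of_mem (hT.symm z hz)]
    · have hz' : -z ∉ T := by
        intro h
        apply hz
        have := hT.symm _ h
        rwa [neg_neg] at this
      rw [indicator_of_notMem hz, indicator_of_notMem hz']
  calc ∫ z, T.indicator (fun z => f (-z)) z = ∫ z, T.indicator f (-z) := by rw [h1]
    _ = ∫ z, T.indicator f z := integral_neg_eq_self (fun z => T.indicator f z) volume

theorem bT_facts {n : ℕ} {T : Set (E n)} (hT : Body T) (σ : ℝ) (hσ : 0 < σ) (w : E n) :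
    bT T σ (-w) = -bT T σ w ∧ ∀ R : ℝ, T ⊆ Metric.closedBall 0 R → ‖bT T σ w‖ ≤ R := by
  have hm := (body_facts hT).1
  have hsub : ∀ z : E n, ‖-z - w‖ = ‖z - -w‖ := by
    intro z
    rw [← norm_neg, neg_sub]
    congr 1
    abel
  have hN : NT T σ (-w) = NT T σ w := by
    unfold NT
    rw [← bT_symm_int hT (fun z => Real.exp (-(‖z - w‖ ^ 2 / (2 * σ ^ 2))))]
    simp only [hsub]
  refine ⟨?_, ?_⟩
  · unfold bT
    rw [hN, ← smul_neg]
    congr 1
    rw [← bT_symm_int hT (fun z => Real.exp (-(‖z - w‖ ^ 2 / (2 * σ ^ 2))) • z), ← integral_neg]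
    simp only [hsub, smul_neg, neg_neg]
  · intro R hR
    have hpos := NT_pos hT σ hσ w
    have hI : ‖∫ z in T, Real.exp (-(‖z - w‖ ^ 2 / (2 * σ ^ 2))) • z‖ ≤ NT T σ w * R := by
      have hint : Integrable (fun z : E n => Real.exp (-(‖z - w‖ ^ 2 / (2 * σ ^ 2))) * R)
          (volume.restrict T) := by
        have hc : Continuous (fun z : E n => Real.exp (-(‖z - w‖ ^ 2 / (2 * σ ^ 2))) * R) := by
          fun_prop
        exact hc.continuousOn.integrableOn_compact hT.comp
      have h1 := norm_integral_le_of_norm_le hint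
        (f := fun z : E n => Real.exp (-(‖z - w‖ ^ 2 / (2 * σ ^ 2))) • z) (by
          filter_upwards [ae_restrict_mem hm] with z hz
          rw [norm_smul, Real.norm_of_nonneg (Real.exp_pos _).le]
          refine mul_le_mul_of_nonneg_left ?_ (Real.exp_pos _).le
          have h2 := hR hz
          rwa [mem_closedBall_zero_iff] at h2)
      rw [integral_mul_const] at h1
      exact h1
    unfold bT
    rw [norm_smul, norm_inv, Real.norm_of_nonneg hpos.le]
    calc (NT T σ w)⁻¹ * ‖∫ z in T, Real.exp (-(‖z - w‖ ^ 2 / (2 * σ ^ 2))) • z‖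
        ≤ (NT T σ w)⁻¹ * (NT T σ w * R) :=
          mul_le_mul_of_nonneg_left hI (inv_nonneg.2 hpos.le)
      _ = R := by rw [← mul_assoc, inv_mul_cancel₀ hpos.ne', one_mul]

end Pool.Agent.Helper584.KS
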