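import Pool.Agent.Helper584.KS.Defs
import Pool.Agent.Helper584.KS.P_bT_facts

open MeasureTheory Set
open scoped ENNReal RealInnerProductSpace

namespace Pool.Agent.Helper584.KS



theorem Ph_facts {n : ℕ} {T : Set (E n)} (hT : Body T) (θ δ : ℝ) (h0 : 0 < θ) (hδ : 0 < δ)
    (h1 : θ + δ ≤ Real.pi / 2) (x : E n) :
    Ph T θ δ (-x) = -Ph T θ δ x ∧ ∀ RT : ℝ, T ⊆ Metric.closedBall 0 RT →
      ‖Ph T θ δ x‖ ≤ Real.sin (θ + δ) / Real.sin θ * ‖x‖ + Real.sin δ / Real.sin θ * RT := by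
  have hpi := Real.pi_pos
  have hs1 : 0 < Real.sin θ := Real.sin_pos_of_pos_of_lt_pi h0 (by linarith)
  have hs2 : 0 < Real.sin (θ + δ) := Real.sin_pos_of_pos_of_lt_pi (by linarith) (by linarith)
  have hs3 : 0 < Real.sin δ := Real.sin_pos_of_pos_of_lt_pi hδ (by linarith)
  constructor
  · unfold Ph
    rw [smul_neg, smul_neg, (bT_facts hT (Real.sin θ) hs1 (Real.cos θ • x)).1, smul_neg]
    abel
  · intro RT hRT
    have hb := (bT_facts hT (Real.sin θ) hs1 (Real.cos θ • x)).2 RT hRT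
    have hc1 : 0 ≤ Real.sin (θ + δ) / Real.sin θ := (div_pos hs2 hs1).le
    have hc2 : 0 ≤ Real.sin δ / Real.sin θ := (div_pos hs3 hs1).le
    unfold Ph
    calc ‖(Real.sin (θ + δ) / Real.sin θ) • x
        - (Real.sin δ / Real.sin θ) • bT T (Real.sin θ) (Real.cos θ • x)‖
        ≤ ‖(Real.sin (θ + δ) / Real.sin θ) • x‖
          + ‖(Real.sin δ / Real.sin θ) • bT T (Real.sin θ) (Real.cos θ • x)‖ := norm_sub_le _ _
      _ = Real.sin (θ + δ) / Real.sin θ * ‖x‖
          + Real.sin δ / Real.sin θ * ‖bT T (Real.sin θ) (Real.cos θ • x)‖ := by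
          rw [norm_smul, norm_smul, Real.norm_of_nonneg hc1, Real.norm_of_nonneg hc2]
      _ ≤ _ := by
          have := mul_le_mul_of_nonneg_left hb hc2
          linarith

end Pool.Agent.Helper584.KS
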