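import Pool.Agent.Helper584.KS.Defs
import Pool.Agent.Helper584.KS.P_body_facts
import Pool.Agent.Helper584.KS.P_NT_pos
import Pool.Agent.Helper584.KS.P_NT_deriv

open MeasureTheory Set
open scoped ENNReal RealInnerProductSpace

namespace Pool.Agent.Helper584.KS



theorem bT_deriv {n : ℕ} {T : Set (E n)} (hT : Body T) (σ : ℝ) (hσ : 0 < σ) (w : E n) :
    ∃ C : E n →L[ℝ] E n, HasFDerivAt (bT T σ) C w ∧
      ∀ u v : E n, ⟪C u, v⟫ = (NT T σ w)⁻¹ * ∫ z in T, Real.exp (-(‖z - w‖ ^ 2 / (2 * σ ^ 2))) *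
        (⟪z - bT T σ w, u⟫ * ⟪z - bT T σ w, v⟫ / σ ^ 2) := by
  obtain ⟨hTm, -, hTfin, -, R, hR, hTR⟩ := body_facts hT
  have hσ2 : 0 < σ ^ 2 := by positivity
  have hTz : ∀ z ∈ T, ‖z‖ ≤ R := fun z hz => by simpa using hTR hz
  have hN := NT_pos hT σ hσ w
  haveI : IsFiniteMeasure (volume.restrict T) := ⟨by simpa using hTfin⟩
  -- continuity
  have hgc : ∀ x : E n, Continuous (fun z : E n => Real.exp (-(‖z - x‖ ^ 2 / (2 * σ ^ 2)))) := by
    intro x
    fun_prop
  have hg1 : ∀ x z : E n, Real.exp (-(‖z - x‖ ^ 2 / (2 * σ ^ 2))) ≤ 1 := by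
    intro x z
    apply Real.exp_le_one_iff.2
    have : 0 ≤ ‖z - x‖ ^ 2 / (2 * σ ^ 2) := by positivity
    linarith
  -- integrability of bounded continuous functions
  have hint : ∀ {G : Type} [NormedAddCommGroup G] (f : E n → G), Continuous f →
      (∃ C, ∀ z ∈ T, ‖f z‖ ≤ C) → Integrable f (volume.restrict T) := by
    intro G _ f hf hC
    have hK := hT.comp
    exact hf.continuousOn.integrableOn_compact hK
  let F' : E n → E n → (E n →L[ℝ] E n) := fun x z =>
    (Real.exp (-(‖z - x‖ ^ 2 / (2 * σ ^ 2))) / σ ^ 2) • (innerSL ℝ (z - x)).smulRight z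
  have hF'c : Continuous (F' w) := by
    have h1 : Continuous (fun z : E n => (innerSL ℝ (z - w)).smulRight z) := by
      have h2 : Continuous (fun z : E n => innerSL ℝ (z - w)) :=
        (innerSL ℝ).continuous.comp (continuous_id.sub continuous_const)
      exact (ContinuousLinearMap.smulRightL ℝ (E n) (E n)).continuous₂.comp (h2.prodMk continuous_id)
    exact ((hgc w).div_const _).smul h1
  have hF'i : Integrable (F' w) (volume.restrict T) :=
    hF'c.continuousOn.integrableOn_compact hT.comp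
  have hM : HasFDerivAt (fun x : E n => ∫ z in T, Real.exp (-(‖z - x‖ ^ 2 / (2 * σ ^ 2))) • z)
      (∫ z in T, F' w z) w := by
    refine hasFDerivAt_integral_of_dominated_of_fderiv_le
      (bound := fun _ => (1 / σ ^ 2) * ((R + ‖w‖ + 1) * R)) (Metric.ball_mem_nhds w one_pos)
      ?_ ?_ ?_ ?_ ?_ ?_
    · exact Filter.Eventually.of_forall fun x =>
        ((hgc x).smul continuous_id).aestronglyMeasurable
    · exact ((hgc w).smul continuous_id).continuousOn.integrableOn_compact hT.comp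
    · exact hF'c.aestronglyMeasurable
    · refine ae_restrict_of_forall_mem hTm fun z hz x hx => ?_
      have hx1 : ‖x‖ ≤ ‖w‖ + 1 := by
        have h1 : ‖x - w‖ < 1 := by rwa [← dist_eq_norm]
        have h2 : ‖x‖ ≤ ‖w‖ + ‖x - w‖ := by
          calc ‖x‖ = ‖w + (x - w)‖ := by congr 1; abel
            _ ≤ _ := norm_add_le _ _
        linarith
      have hz1 := hTz z hz
      have h3 : ‖z - x‖ ≤ R + ‖w‖ + 1 := (norm_sub_le _ _).trans (by linarith)
      calc ‖F' x z‖ = (Real.exp (-(‖z - x‖ ^ 2 / (2 * σ ^ 2))) / σ ^ 2) * (‖z - x‖ * ‖z‖) := by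
            simp only [F', norm_smul, ContinuousLinearMap.norm_smulRight_apply, innerSL_apply_norm]
            rw [Real.norm_of_nonneg (by positivity)]
        _ ≤ (1 / σ ^ 2) * ((R + ‖w‖ + 1) * R) := by
            gcongr
            exact hg1 x z
    · exact integrable_const _
    · refine ae_restrict_of_forall_mem hTm fun z hz x hx => ?_
      have h1 : HasFDerivAt (fun x : E n => ‖z - x‖ ^ 2) (2 • (innerSL ℝ (z - x)).comp
          (-(ContinuousLinearMap.id ℝ (E n)))) x := by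
        have h2 : HasFDerivAt (fun x : E n => z - x) (-(ContinuousLinearMap.id ℝ (E n))) x :=
          (hasFDerivAt_id x).const_sub z
        exact h2.norm_sq
      have h3 : HasFDerivAt (fun x : E n => Real.exp (-(‖z - x‖ ^ 2 / (2 * σ ^ 2))))
          ((Real.exp (-(‖z - x‖ ^ 2 / (2 * σ ^ 2))) / σ ^ 2) • innerSL ℝ (z - x)) x := by
        have h4 : HasFDerivAt (fun y : E n => Real.exp (-((2 * σ ^ 2)⁻¹ * ‖z - y‖ ^ 2)))
            (Real.exp (-((2 * σ ^ 2)⁻¹ * ‖z - x‖ ^ 2)) • -((2 * σ ^ 2)⁻¹ • ((2 : ℕ) •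
              ((innerSL ℝ (z - x)).comp (-(ContinuousLinearMap.id ℝ (E n))) :
                E n →L[ℝ] ℝ)) : E n →L[ℝ] ℝ)) x :=
          ((h1.const_mul (2 * σ ^ 2)⁻¹).neg).exp
        have h5 : (fun x : E n => Real.exp (-(‖z - x‖ ^ 2 / (2 * σ ^ 2)))) =
            fun x : E n => Real.exp (-((2 * σ ^ 2)⁻¹ * ‖z - x‖ ^ 2)) := by
          funext y
          congr 2
          ring
        have h8 : Real.exp (-(‖z - x‖ ^ 2 / (2 * σ ^ 2))) =
            Real.exp (-((2 * σ ^ 2)⁻¹ * ‖z - x‖ ^ 2)) := congrFun h5 x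
        rw [h5, h8]
        refine h4.congr_fderiv ?_
        ext u
        simp only [_root_.smul_apply, _root_.neg_apply,
          ContinuousLinearMap.comp_apply, innerSL_apply_apply, smul_eq_mul, ContinuousLinearMap.id_apply,
          inner_neg_right, nsmul_eq_mul]
        field_simp
        push_cast
        ring
      have h7 := h3.smul_const z
      refine h7.congr_fderiv ?_
      ext u
      simp [F']
      try ring
  have hNd := NT_deriv hT σ hσ w
  have hinv : HasFDerivAt (fun x => (NT T σ x)⁻¹)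
      (-(NT T σ w ^ 2)⁻¹ • ((NT T σ w / σ ^ 2) • innerSL ℝ (bT T σ w - w))) w :=
    (hasDerivAt_inv hN.ne').comp_hasFDerivAt w hNd
  have hb := hinv.smul hM
  refine ⟨_, hb, ?_⟩
  intro u v
  set N := NT T σ w with hNdef
  set b := bT T σ w with hbdef
  set g : E n → ℝ := fun z => Real.exp (-(‖z - w‖ ^ 2 / (2 * σ ^ 2))) with hgdef
  have hMb : ∫ z in T, g z • z = N • b := by
    rw [hbdef, bT, smul_smul, ← hNdef, mul_inv_cancel₀ hN.ne', one_smul]
  have hN1 : ∫ z in T, g z = N := rfl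
  -- integrals
  have ic : ∀ f : E n → ℝ, Continuous f → Integrable f (volume.restrict T) :=
    fun f hf => hf.continuousOn.integrableOn_compact hT.comp
  have hgcont : Continuous g := hgc w
  have e1 : ∀ c : E n, ∫ z in T, g z * ⟪z, c⟫ = N * ⟪b, c⟫ := by
    intro c
    have h1 : ∫ z in T, ⟪c, g z • z⟫ = ⟪c, ∫ z in T, g z • z⟫ :=
      integral_inner ((hgcont.smul continuous_id).continuousOn.integrableOn_compact hT.comp) c
    rw [hMb, inner_smul_right, real_inner_comm] at h1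
    rw [← h1]
    refine integral_congr_ae (Filter.Eventually.of_forall fun z => ?_)
    simp only [inner_smul_right, real_inner_comm]
  have e2 : (∫ z in T, F' w z) u = ∫ z in T, (g z * ⟪z - w, u⟫ / σ ^ 2) • z := by
    rw [ContinuousLinearMap.integral_apply hF'i]
    refine integral_congr_ae (Filter.Eventually.of_forall fun z => ?_)
    simp only [F', ContinuousLinearMap.smul_apply, ContinuousLinearMap.smulRight_apply,
      innerSL_apply_apply, smul_smul]
    congr 1
    ring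
  have e3 : ⟪∫ z in T, (g z * ⟪z - w, u⟫ / σ ^ 2) • z, v⟫ =
      ∫ z in T, g z * (⟪z - w, u⟫ * ⟪z, v⟫ / σ ^ 2) := by
    have hc : Continuous (fun z : E n => (g z * ⟪z - w, u⟫ / σ ^ 2) • z) := by
      have : Continuous (fun z : E n => (⟪z - w, u⟫ : ℝ)) := by fun_prop
      exact ((hgcont.mul this).div_const _).smul continuous_id
    have h1 : ∫ z in T, ⟪v, (g z * ⟪z - w, u⟫ / σ ^ 2) • z⟫ =
        ⟪v, ∫ z in T, (g z * ⟪z - w, u⟫ / σ ^ 2) • z⟫ :=
      integral_inner (hc.continuousOn.integrableOn_compact hT.comp) v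
    rw [real_inner_comm, ← h1]
    refine integral_congr_ae (Filter.Eventually.of_forall fun z => ?_)
    simp only [inner_smul_right, real_inner_comm]
    rw [real_inner_comm z v]
    ring
  have e4 : ∫ z in T, g z * ⟪z - w, u⟫ = N * ⟪b - w, u⟫ := by
    have h1 : ∀ z : E n, g z * ⟪z - w, u⟫ = g z * ⟪z, u⟫ - ⟪w, u⟫ * g z := by
      intro z
      rw [inner_sub_left]
      ring
    simp only [h1]
    rw [integral_sub (ic _ (by fun_prop)) (ic _ (by fun_prop)), integral_const_mul, e1, hN1,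
      inner_sub_left]
    ring
  have e5 : ∫ z in T, g z * (⟪z - b, u⟫ * ⟪z - b, v⟫ / σ ^ 2) =
      (∫ z in T, g z * (⟪z - w, u⟫ * ⟪z, v⟫ / σ ^ 2)) - N * (⟪b - w, u⟫ * ⟪b, v⟫ / σ ^ 2) := by
    have h1 : ∀ z : E n, g z * (⟪z - b, u⟫ * ⟪z - b, v⟫ / σ ^ 2) =
        ((g z * (⟪z - w, u⟫ * ⟪z, v⟫ / σ ^ 2) - (⟪b, v⟫ / σ ^ 2) * (g z * ⟪z - w, u⟫)) -
        (⟪b - w, u⟫ / σ ^ 2) * (g z * ⟪z, v⟫)) + (⟪b - w, u⟫ * ⟪b, v⟫ / σ ^ 2) * g z := by
      intro z
      have h2 : (⟪z - b, u⟫ : ℝ) = ⟪z - w, u⟫ - ⟪b - w, u⟫ := by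
        rw [← inner_sub_left]
        congr 1
        abel
      rw [h2, inner_sub_left z b v]
      ring
    simp only [h1]
    have c1 : Continuous (fun z : E n => g z * (⟪z - w, u⟫ * ⟪z, v⟫ / σ ^ 2)) := by fun_prop
    have c2 : Continuous (fun z : E n => (⟪b, v⟫ / σ ^ 2) * (g z * ⟪z - w, u⟫)) := by fun_prop
    have c3 : Continuous (fun z : E n => (⟪b - w, u⟫ / σ ^ 2) * (g z * ⟪z, v⟫)) := by fun_prop
    have c4 : Continuous (fun z : E n => (⟪b - w, u⟫ * ⟪b, v⟫ / σ ^ 2) * g z) := by fun_prop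
    have i3 : Integrable (fun z : E n => g z * (⟪z - w, u⟫ * ⟪z, v⟫ / σ ^ 2) -
        (⟪b, v⟫ / σ ^ 2) * (g z * ⟪z - w, u⟫) - (⟪b - w, u⟫ / σ ^ 2) * (g z * ⟪z, v⟫))
        (volume.restrict T) := ic _ ((c1.sub c2).sub c3)
    have i2 : Integrable (fun z : E n => g z * (⟪z - w, u⟫ * ⟪z, v⟫ / σ ^ 2) -
        (⟪b, v⟫ / σ ^ 2) * (g z * ⟪z - w, u⟫)) (volume.restrict T) := ic _ (c1.sub c2)
    rw [integral_add i3 (ic _ c4), integral_sub i2 (ic _ c3), integral_sub (ic _ c1) (ic _ c2),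
      integral_const_mul, integral_const_mul, integral_const_mul, e1, e4, hN1]
    ring
  rw [e5]
  simp only [ContinuousLinearMap.add_apply, ContinuousLinearMap.smul_apply,
    ContinuousLinearMap.smulRight_apply, innerSL_apply_apply, smul_eq_mul, inner_add_left,
    inner_smul_left, e2]
  rw [e3, hMb]
  simp only [inner_smul_left, conj_trivial]
  field_simp
  try ring

end Pool.Agent.Helper584.KS
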