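import Pool.Agent.Helper584.KS.Defs

open MeasureTheory Set
open scoped ENNReal RealInnerProductSpace

namespace Pool.Agent.Helper584.KS



theorem conc_of_mid_dy (L : ℝ → ℝ)
    (hmid : ∀ r s, 0 < r → 0 < s → L r + L s ≤ 2 * L ((r + s) / 2))
    (r s : ℝ) (hr : 0 < r) (hs : 0 < s) (k : ℕ) : ∀ m : ℕ, m ≤ 2 ^ k →
      (1 - (m : ℝ) / 2 ^ k) * L r + (m : ℝ) / 2 ^ k * L s ≤
        L ((1 - (m : ℝ) / 2 ^ k) * r + (m : ℝ) / 2 ^ k * s) := by
  have hpos : ∀ t : ℝ, 0 ≤ t → t ≤ 1 → 0 < (1 - t) * r + t * s := by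
    intro t h0 h1
    rcases h0.lt_or_eq with h | h
    · have := mul_pos h hs
      have : 0 ≤ (1 - t) * r := mul_nonneg (by linarith) hr.le
      linarith
    · rw [← h]; simpa using hr
  induction k with
  | zero =>
    intro m hm
    interval_cases m <;> simp
  | succ k ih =>
    intro m hm
    rcases Nat.even_or_odd' m with ⟨j, rfl | rfl⟩
    · have hj : j ≤ 2 ^ k := by rw [pow_succ] at hm; omega
      have := ih j hj
      have e : ((2 * j : ℕ) : ℝ) / 2 ^ (k + 1) = (j : ℝ) / 2 ^ k := by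
        rw [pow_succ]; push_cast; field_simp
      rw [e]; exact this
    · have hj : j + 1 ≤ 2 ^ k := by rw [pow_succ] at hm; omega
      have h1 := ih j (by omega)
      have h2 := ih (j + 1) hj
      have hj' : ((j + 1 : ℕ) : ℝ) ≤ 2 ^ k := by exact_mod_cast hj
      have hj'' : (j : ℝ) ≤ 2 ^ k := by
        have : (j : ℝ) ≤ ((j + 1 : ℕ) : ℝ) := by push_cast; linarith
        linarith
      have h3 := hmid ((1 - (j : ℝ) / 2 ^ k) * r + (j : ℝ) / 2 ^ k * s)
        ((1 - ((j + 1 : ℕ) : ℝ) / 2 ^ k) * r + ((j + 1 : ℕ) : ℝ) / 2 ^ k * s)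
        (hpos _ (by positivity) (by rw [div_le_one (by positivity)]; exact hj''))
        (hpos _ (by positivity) (by rw [div_le_one (by positivity)]; exact hj'))
      have e : ((2 * j + 1 : ℕ) : ℝ) / 2 ^ (k + 1) =
          ((j : ℝ) / 2 ^ k + ((j + 1 : ℕ) : ℝ) / 2 ^ k) / 2 := by
        rw [pow_succ]; push_cast; field_simp; ring
      have e2 : ((1 - (j : ℝ) / 2 ^ k) * r + (j : ℝ) / 2 ^ k * s +
        ((1 - ((j + 1 : ℕ) : ℝ) / 2 ^ k) * r + ((j + 1 : ℕ) : ℝ) / 2 ^ k * s)) / 2 =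
        (1 - ((j : ℝ) / 2 ^ k + ((j + 1 : ℕ) : ℝ) / 2 ^ k) / 2) * r +
          ((j : ℝ) / 2 ^ k + ((j + 1 : ℕ) : ℝ) / 2 ^ k) / 2 * s := by ring
      rw [e, ← e2]
      linarith

theorem conc_of_mid_le (L : ℝ → ℝ) (hmono : ∀ r s, 0 < r → r ≤ s → L r ≤ L s)
    (hmid : ∀ r s, 0 < r → 0 < s → L r + L s ≤ 2 * L ((r + s) / 2))
    (r s : ℝ) (hr : 0 < r) (hrs : r ≤ s) (t : ℝ) (h0 : 0 ≤ t) (h1 : t ≤ 1) :
    (1 - t) * L r + t * L s ≤ L ((1 - t) * r + t * s) := by
  have hs : 0 < s := hr.trans_le hrs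
  have hL : L r ≤ L s := hmono r s hr hrs
  by_contra hcon
  push Not at hcon
  obtain ⟨k, hk⟩ := exists_pow_lt_of_lt_one
    (show 0 < ((1 - t) * L r + t * L s - L ((1 - t) * r + t * s)) / (L s - L r + 1) by
      apply div_pos <;> linarith) (show (1 / 2 : ℝ) < 1 by norm_num)
  rw [lt_div_iff₀ (by linarith)] at hk
  have h2k : (0 : ℝ) < 2 ^ k := by positivity
  set m : ℕ := ⌊t * 2 ^ k⌋₊ with hm
  have hm1 : (m : ℝ) ≤ t * 2 ^ k := Nat.floor_le (by positivity)
  have hm2 : t * 2 ^ k < m + 1 := Nat.lt_floor_add_one _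
  have hm3 : m ≤ 2 ^ k := by
    have : (m : ℝ) ≤ 2 ^ k := hm1.trans (mul_le_of_le_one_left h2k.le h1)
    exact_mod_cast this
  have hd := conc_of_mid_dy L hmid r s hr hs k m hm3
  set t' : ℝ := (m : ℝ) / 2 ^ k with ht'
  have ht'1 : t' ≤ t := by rw [ht', div_le_iff₀ h2k]; exact hm1
  have ht'0 : 0 ≤ t' := by positivity
  have ht'2 : t ≤ t' + (1 / 2) ^ k := by
    rw [ht', one_div, inv_pow, ← one_div, ← add_div, le_div_iff₀ h2k]; exact hm2.le
  have hp : 0 < (1 - t') * r + t' * s := by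
    rcases ht'0.lt_or_eq with h | h
    · have := mul_pos h hs
      have : 0 ≤ (1 - t') * r := mul_nonneg (by linarith) hr.le
      linarith
    · rw [← h]; simpa using hr
  have hle : (1 - t') * r + t' * s ≤ (1 - t) * r + t * s := by nlinarith
  have hmm := hmono _ _ hp hle
  have h5 : (t - t') * (L s - L r) ≤ (1 / 2) ^ k * (L s - L r) :=
    mul_le_mul_of_nonneg_right (by linarith) (by linarith)
  have h6 : (0 : ℝ) < (1 / 2) ^ k := by positivity
  nlinarith

theorem conc_of_mid (L : ℝ → ℝ) (hmono : ∀ r s, 0 < r → r ≤ s → L r ≤ L s)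
    (hmid : ∀ r s, 0 < r → 0 < s → L r + L s ≤ 2 * L ((r + s) / 2)) :
    ConcaveOn ℝ (Ioi 0) L := by
  refine ⟨convex_Ioi 0, ?_⟩
  intro r hr s hs a b ha hb hab
  simp only [smul_eq_mul]
  have hr' : 0 < r := hr
  have hs' : 0 < s := hs
  rcases le_total r s with h | h
  · have := conc_of_mid_le L hmono hmid r s hr' h b hb (by linarith)
    have e : 1 - b = a := by linarith
    rw [e] at this
    exact this
  · have := conc_of_mid_le L hmono hmid s r hs' h a ha (by linarith)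
    have e : 1 - a = b := by linarith
    rw [e] at this
    rw [add_comm (a * L r), add_comm (a * r)]
    exact this

end Pool.Agent.Helper584.KS
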