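import Pool.Agent.Helper584.KS.Defs

open MeasureTheory Set
open scoped ENNReal RealInnerProductSpace

namespace Pool.Agent.Helper584.KS



theorem det_ineq_exp {u : ℝ} (hu0 : 0 ≤ u) (hu1 : u ≤ 1 / 2) : Real.exp (-u - u ^ 2) ≤ 1 - u := by
  have h1 := Real.quadratic_le_exp_of_nonneg (x := u + u ^ 2) (by positivity)
  have h2 : 1 ≤ (1 - u) * Real.exp (u + u ^ 2) := by
    have h3 : (1 - u) * (1 + (u + u ^ 2) + (u + u ^ 2) ^ 2 / 2) ≤ (1 - u) * Real.exp (u + u ^ 2) :=
      mul_le_mul_of_nonneg_left h1 (by linarith)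
    have h4 : 1 ≤ (1 - u) * (1 + (u + u ^ 2) + (u + u ^ 2) ^ 2 / 2) := by
      have e : (1 - u) * (1 + (u + u ^ 2) + (u + u ^ 2) ^ 2 / 2) =
          1 + u ^ 2 / 2 * (1 - u - u ^ 2 - u ^ 3) := by ring
      rw [e]
      have h5 : u ^ 2 ≤ 1 / 4 := by nlinarith
      have h6 : u ^ 3 ≤ 1 / 8 := by
        have : u ^ 3 = u * u ^ 2 := by ring
        rw [this]; nlinarith
      have h7 : 0 ≤ u ^ 2 / 2 * (1 - u - u ^ 2 - u ^ 3) :=
        mul_nonneg (by positivity) (by linarith)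
      linarith
    linarith
  have e : Real.exp (-u - u ^ 2) = (Real.exp (u + u ^ 2))⁻¹ := by
    rw [← Real.exp_neg]; congr 1; ring
  rw [e, inv_le_iff_one_le_mul₀ (Real.exp_pos _)]
  exact h2

theorem det_ineq {n : ℕ} (C : E n →L[ℝ] E n) (hC : ∀ u v : E n, ⟪C u, v⟫ = ⟪u, C v⟫)
    (h0 : ∀ v : E n, 0 ≤ ⟪C v, v⟫) (h1 : ∀ v : E n, ⟪C v, v⟫ ≤ ‖v‖ ^ 2)
    (s : ℝ) (hs0 : 0 ≤ s) (hs1 : s ≤ 1 / 2) :
    Real.exp (-(s * LinearMap.trace ℝ (E n) (C : E n →ₗ[ℝ] E n)) - n * s ^ 2) ≤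
      (ContinuousLinearMap.id ℝ (E n) - s • C).det := by
  have hn : Module.finrank ℝ (E n) = n := finrank_euclideanSpace_fin
  have hT : (C : E n →ₗ[ℝ] E n).IsSymmetric := fun u v => hC u v
  set b := hT.eigenvectorBasis hn with hb
  set l := hT.eigenvalues hn with hl
  have hbl : ∀ i, C (b i) = l i • b i := fun i => hT.apply_eigenvectorBasis hn i
  have hnorm : ∀ i, ‖b i‖ = 1 := fun i => b.norm_eq_one i
  have hin : ∀ i, ⟪C (b i), b i⟫ = l i := by
    intro i
    rw [hbl, real_inner_smul_left, real_inner_self_eq_norm_sq, hnorm, one_pow, mul_one]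
  have hl0 : ∀ i, 0 ≤ l i := fun i => by rw [← hin i]; exact h0 _
  have hl1 : ∀ i, l i ≤ 1 := fun i => by
    have := h1 (b i)
    rw [hin, hnorm, one_pow] at this
    exact this
  have htr : LinearMap.trace ℝ (E n) (C : E n →ₗ[ℝ] E n) = ∑ i, l i := by
    rw [LinearMap.trace_eq_matrix_trace ℝ b.toBasis, Matrix.trace]
    apply Finset.sum_congr rfl
    intro i _
    rw [Matrix.diag_apply, LinearMap.toMatrix_apply]
    have e : (C : E n →ₗ[ℝ] E n) (b.toBasis i) = l i • b.toBasis i := by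
      rw [OrthonormalBasis.coe_toBasis]
      exact hbl i
    rw [e, map_smul, Module.Basis.repr_self, Finsupp.smul_apply, Finsupp.single_eq_same,
      smul_eq_mul, mul_one]
  have hdet : (ContinuousLinearMap.id ℝ (E n) - s • C).det = ∏ i, (1 - s * l i) := by
    rw [ContinuousLinearMap.det, ← LinearMap.det_toMatrix b.toBasis]
    have e : LinearMap.toMatrix b.toBasis b.toBasis
        ((ContinuousLinearMap.id ℝ (E n) - s • C : E n →L[ℝ] E n) : E n →ₗ[ℝ] E n) =
        Matrix.diagonal (fun i => 1 - s * l i) := by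
      ext i j
      rw [LinearMap.toMatrix_apply]
      have e1 : ((ContinuousLinearMap.id ℝ (E n) - s • C : E n →L[ℝ] E n) : E n →ₗ[ℝ] E n)
          (b.toBasis j) = (1 - s * l j) • b.toBasis j := by
        rw [OrthonormalBasis.coe_toBasis]
        show b j - s • C (b j) = _
        rw [hbl, smul_smul, sub_smul, one_smul]
      rw [e1, map_smul, Module.Basis.repr_self, Finsupp.smul_apply, smul_eq_mul,
        Finsupp.single_apply, Matrix.diagonal_apply]
      by_cases hij : i = j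
      · subst hij; simp
      · rw [if_neg (Ne.symm hij), if_neg hij, mul_zero]
    rw [e, Matrix.det_diagonal]
  rw [htr, hdet]
  have hterm : ∀ i, Real.exp (-(s * l i) - s ^ 2) ≤ 1 - s * l i := by
    intro i
    have hu0 : 0 ≤ s * l i := mul_nonneg hs0 (hl0 i)
    have hu1 : s * l i ≤ s := mul_le_of_le_one_right hs0 (hl1 i)
    refine le_trans (Real.exp_le_exp.2 ?_) (det_ineq_exp hu0 (hu1.trans hs1))
    have : (s * l i) ^ 2 ≤ s ^ 2 := pow_le_pow_left₀ hu0 hu1 2
    linarith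
  calc Real.exp (-(s * ∑ i, l i) - n * s ^ 2) = ∏ i : Fin n, Real.exp (-(s * l i) - s ^ 2) := by
        rw [← Real.exp_sum]
        congr 1
        rw [Finset.sum_sub_distrib, Finset.sum_neg_distrib, ← Finset.mul_sum, Finset.sum_const,
          Finset.card_univ, Fintype.card_fin, nsmul_eq_mul]
    _ ≤ ∏ i, (1 - s * l i) :=
        Finset.prod_le_prod (fun i _ => (Real.exp_pos _).le) (fun i _ => hterm i)

end Pool.Agent.Helper584.KS
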