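import Pool.Agent.Helper584.KS.Defs
import Pool.Agent.Helper584.KS.P_PA_all

open MeasureTheory Set
open scoped ENNReal RealInnerProductSpace

namespace Pool.Agent.Helper584.KS



theorem santaloE_int {n : ℕ} (f : E n → ℝ) :
    ∫ x : Fin n → ℝ, f (WithLp.toLp 2 x) = ∫ x, f x :=
  (PiLp.volume_preserving_toLp (Fin n)).integral_comp
    (MeasurableEquiv.toLp 2 (Fin n → ℝ)).measurableEmbedding f

theorem santaloE_scale {n : ℕ} (f : E n → ℝ) (s : ℝ) (hs : 0 < s) :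
    ∫ x : Fin n → ℝ, f (WithLp.toLp 2 (s⁻¹ • x)) = s ^ n * ∫ x, f x := by
  rw [← santaloE_int f]
  rw [MeasureTheory.Measure.integral_comp_inv_smul_of_nonneg volume
    (fun x : Fin n → ℝ => f (WithLp.toLp 2 x)) hs.le]
  rw [Module.finrank_fin_fun, smul_eq_mul]

theorem santaloE_good {n : ℕ} (f : E n → ℝ) (R M : ℝ) (hf : TF R M f) (s C : ℝ) (hs : 0 < s)
    (hC : 0 < C) : Good (fun x : Fin n → ℝ => f (WithLp.toLp 2 (s⁻¹ • x)) / C) where
  meas := by
    have h1 : Measurable (fun x : Fin n → ℝ => (WithLp.toLp 2 (s⁻¹ • x) : E n)) :=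
      (PiLp.volume_preserving_toLp (Fin n)).measurable.comp (measurable_const_smul _)
    exact (hf.meas.comp h1).div_const C
  nonneg x := div_nonneg (hf.nonneg _) hC.le
  bdd := ⟨M / C, fun x => div_le_div_of_nonneg_right (hf.le _) hC.le⟩
  supp := by
    refine ⟨s * R, fun x hx i => ?_⟩
    have h1 : f (WithLp.toLp 2 (s⁻¹ • x)) ≠ 0 := by
      intro h
      apply hx
      show f (WithLp.toLp 2 (s⁻¹ • x)) / C = 0
      rw [h, zero_div]
    have h2 := hf.supp _ h1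
    have h3 : ‖(WithLp.toLp 2 (s⁻¹ • x) : E n) i‖ ≤ ‖(WithLp.toLp 2 (s⁻¹ • x) : E n)‖ :=
      PiLp.norm_apply_le _ i
    have h4 : (WithLp.toLp 2 (s⁻¹ • x) : E n) i = s⁻¹ * x i := rfl
    rw [h4, Real.norm_eq_abs, abs_mul, abs_of_pos (inv_pos.mpr hs)] at h3
    have h5 : s⁻¹ * |x i| ≤ R := h3.trans h2
    calc |x i| = s * (s⁻¹ * |x i|) := by rw [← mul_assoc, mul_inv_cancel₀ hs.ne', one_mul]
      _ ≤ s * R := mul_le_mul_of_nonneg_left h5 hs.le

theorem santaloE {n : ℕ} (f g : E n → ℝ) (R M : ℝ) (hf : TF R M f) (hg : TF R M g)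
    (L C : ℝ) (hL : 0 < L) (hC : 0 < C)
    (H : ∀ x y, f x * g y ≤ C * Real.exp (-(L * ⟪x, y⟫))) :
    (∫ x, f x) * (∫ y, g y) ≤ C * (2 * Real.pi / L) ^ n := by
  set s := Real.sqrt L with hsdef
  have hs : 0 < s := Real.sqrt_pos.mpr hL
  have hss : s * s = L := Real.mul_self_sqrt hL.le
  have hPA := PA_all n (fun x : Fin n → ℝ => f (WithLp.toLp 2 (s⁻¹ • x)) / C)
    (fun x : Fin n → ℝ => g (WithLp.toLp 2 (s⁻¹ • x)) / 1)
    (santaloE_good f R M hf s C hs hC) (santaloE_good g R M hg s 1 hs one_pos) (by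
      intro x y
      have h1 := H (WithLp.toLp 2 (s⁻¹ • x)) (WithLp.toLp 2 (s⁻¹ • y))
      have h2 : ⟪(WithLp.toLp 2 (s⁻¹ • x) : E n), (WithLp.toLp 2 (s⁻¹ • y) : E n)⟫
          = s⁻¹ * s⁻¹ * dp x y := by
        rw [PiLp.inner_apply]
        unfold dp
        rw [Finset.mul_sum]
        refine Finset.sum_congr rfl fun i _ => ?_
        show (s⁻¹ * y i) * (s⁻¹ * x i) = _
        ring
      rw [h2] at h1
      have h3 : L * (s⁻¹ * s⁻¹ * dp x y) = dp x y := by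
        rw [← hss]
        field_simp
      rw [h3] at h1
      show f (WithLp.toLp 2 (s⁻¹ • x)) / C * (g (WithLp.toLp 2 (s⁻¹ • y)) / 1) ≤ _
      rw [div_one, div_mul_eq_mul_div, div_le_iff₀ hC]
      linarith) (by
      intro i
      have h1 : ∫ x : Fin n → ℝ, x i * (f (WithLp.toLp 2 (s⁻¹ • x)) / C)
          = - ∫ x : Fin n → ℝ, x i * (f (WithLp.toLp 2 (s⁻¹ • x)) / C) := by
        rw [← integral_neg]
        rw [← MeasureTheory.integral_neg_eq_self (fun x : Fin n → ℝ =>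
          x i * (f (WithLp.toLp 2 (s⁻¹ • x)) / C)) volume]
        congr 1
        funext x
        have h2 : (WithLp.toLp 2 (s⁻¹ • (-x)) : E n) = -(WithLp.toLp 2 (s⁻¹ • x)) := by
          rw [smul_neg]; rfl
        rw [h2, hf.even]
        show (-x i) * _ = _
        ring
      linarith)
  have e1 : ∫ x : Fin n → ℝ, f (WithLp.toLp 2 (s⁻¹ • x)) / C = s ^ n * (∫ x, f x) / C := by
    rw [integral_div, santaloE_scale f s hs]
  have e2 : ∫ x : Fin n → ℝ, g (WithLp.toLp 2 (s⁻¹ • x)) / 1 = s ^ n * (∫ x, g x) := by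
    simp only [div_one]
    rw [santaloE_scale g s hs]
  rw [e1, e2] at hPA
  have hsn : s ^ n * s ^ n = L ^ n := by rw [← mul_pow, hss]
  have hLn : 0 < L ^ n := pow_pos hL n
  rw [div_pow]
  rw [show C * ((2 * Real.pi) ^ n / L ^ n) = (C * (2 * Real.pi) ^ n) / L ^ n by ring,
    le_div_iff₀ hLn]
  have h5 : s ^ n * (∫ x, f x) / C * (s ^ n * ∫ x, g x)
      = (∫ x, f x) * (∫ x, g x) * L ^ n / C := by
    rw [← hsn]; ring
  rw [h5, div_le_iff₀ hC] at hPA
  linarith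

end Pool.Agent.Helper584.KS
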