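import Pool.Agent.Helper584.KS.Defs
import Pool.Agent.Helper584.KS.P_santaloE

open MeasureTheory Set
open scoped ENNReal RealInnerProductSpace

namespace Pool.Agent.Helper584.KS



theorem endpoint {n : ℕ} (R M : ℝ) (h1 h2 : E n → ℝ) (hh1 : TF R M h1) (hh2 : TF R M h2)
    (L : ℝ) (hL : 1 ≤ L) (hp : ∀ x y, h1 x * h2 y ≤ Real.exp (L * (‖x - y‖ ^ 2 / 2))) :
    (∫ x, h1 x * Real.exp (-(‖x‖ ^ 2 / 2))) * (∫ x, h2 x * Real.exp (-(‖x‖ ^ 2 / 2))) ≤
      Real.exp ((L - 1) * R ^ 2) * (2 * Real.pi) ^ n := by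
  have key : ∀ h : E n → ℝ, TF R M h → TF R M (fun x => h x * Real.exp (-(‖x‖ ^ 2 / 2))) := by
    intro h hh
    refine ⟨?_, ?_, ?_, ?_, ?_⟩
    · exact hh.meas.mul (by fun_prop)
    · intro x
      exact mul_nonneg (hh.nonneg x) (Real.exp_pos _).le
    · intro x
      have h1 : Real.exp (-(‖x‖ ^ 2 / 2)) ≤ 1 := by
        apply Real.exp_le_one_iff.2
        have := sq_nonneg ‖x‖
        linarith
      calc h x * Real.exp (-(‖x‖ ^ 2 / 2)) ≤ h x * 1 :=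
            mul_le_mul_of_nonneg_left h1 (hh.nonneg x)
        _ ≤ M := by rw [mul_one]; exact hh.le x
    · intro x
      simp only [norm_neg, hh.even x]
    · intro x hx
      exact hh.supp x (left_ne_zero_of_mul hx)
  have hL0 : 0 < L := lt_of_lt_of_le one_pos hL
  have H : ∀ x y, (h1 x * Real.exp (-(‖x‖ ^ 2 / 2))) * (h2 y * Real.exp (-(‖y‖ ^ 2 / 2))) ≤
      Real.exp ((L - 1) * R ^ 2) * Real.exp (-(L * ⟪x, y⟫)) := by
    intro x y
    by_cases hx : h1 x = 0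
    · rw [hx]
      simp only [zero_mul]
      positivity
    by_cases hy : h2 y = 0
    · rw [hy]
      simp only [zero_mul, mul_zero]
      positivity
    have nx := hh1.supp x hx
    have ny := hh2.supp y hy
    have hnx : ‖x‖ ^ 2 ≤ R ^ 2 := pow_le_pow_left₀ (norm_nonneg x) nx 2
    have hny : ‖y‖ ^ 2 ≤ R ^ 2 := pow_le_pow_left₀ (norm_nonneg y) ny 2
    have hs : ‖x - y‖ ^ 2 = ‖x‖ ^ 2 - 2 * ⟪x, y⟫ + ‖y‖ ^ 2 := norm_sub_sq_real x y
    calc (h1 x * Real.exp (-(‖x‖ ^ 2 / 2))) * (h2 y * Real.exp (-(‖y‖ ^ 2 / 2)))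
        = (h1 x * h2 y) * (Real.exp (-(‖x‖ ^ 2 / 2)) * Real.exp (-(‖y‖ ^ 2 / 2))) := by ring
      _ ≤ Real.exp (L * (‖x - y‖ ^ 2 / 2)) *
          (Real.exp (-(‖x‖ ^ 2 / 2)) * Real.exp (-(‖y‖ ^ 2 / 2))) :=
          mul_le_mul_of_nonneg_right (hp x y) (by positivity)
      _ = Real.exp (L * (‖x - y‖ ^ 2 / 2) + (-(‖x‖ ^ 2 / 2) + -(‖y‖ ^ 2 / 2))) := by
          rw [Real.exp_add, Real.exp_add]
      _ ≤ Real.exp ((L - 1) * R ^ 2 + -(L * ⟪x, y⟫)) := by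
          apply Real.exp_le_exp.2
          rw [hs]
          nlinarith [mul_le_mul_of_nonneg_left hnx (sub_nonneg.2 hL),
            mul_le_mul_of_nonneg_left hny (sub_nonneg.2 hL)]
      _ = Real.exp ((L - 1) * R ^ 2) * Real.exp (-(L * ⟪x, y⟫)) := Real.exp_add _ _
  have h0 := santaloE _ _ R M (key h1 hh1) (key h2 hh2) L (Real.exp ((L - 1) * R ^ 2)) hL0
    (Real.exp_pos _) H
  refine h0.trans (mul_le_mul_of_nonneg_left ?_ (Real.exp_pos _).le)
  apply pow_le_pow_left₀ (by positivity)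
  exact div_le_self (by positivity) hL

end Pool.Agent.Helper584.KS
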