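import Pool.Agent.Helper584.KS.Defs

open MeasureTheory Set
open scoped ENNReal RealInnerProductSpace

namespace Pool.Agent.Helper584.KS



theorem gauss_bound (c : ℝ) (hc : 0 < c) :
    IntegrableOn (fun r : ℝ => c * r * Real.exp (-(c * r ^ 2 / 2)) * Real.exp (c * (r - 1)))
      (Ioi 0) ∧
    ∫ r in Ioi (0 : ℝ), c * r * Real.exp (-(c * r ^ 2 / 2)) * Real.exp (c * (r - 1)) ≤
      Real.exp (-(c / 2)) * (1 + Real.sqrt (2 * Real.pi * c)) := by
  have hc2 : 0 < c / 2 := by positivity
  have hI0 : Integrable (fun r : ℝ => Real.exp (-(c / 2) * (r - 1) ^ 2)) :=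
    (integrable_exp_neg_mul_sq hc2).comp_sub_right 1
  have hI1 : Integrable (fun r : ℝ => (r - 1) * Real.exp (-(c / 2) * (r - 1) ^ 2)) :=
    (integrable_mul_exp_neg_mul_sq hc2).comp_sub_right 1
  have hf : ∀ r : ℝ, c * r * Real.exp (-(c * r ^ 2 / 2)) * Real.exp (c * (r - 1))
      = Real.exp (-(c / 2)) * (c * ((r - 1) * Real.exp (-(c / 2) * (r - 1) ^ 2))
        + c * Real.exp (-(c / 2) * (r - 1) ^ 2)) := by
    intro r
    have e1 : Real.exp (-(c * r ^ 2 / 2)) * Real.exp (c * (r - 1))
        = Real.exp (-(c / 2)) * Real.exp (-(c / 2) * (r - 1) ^ 2) := by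
      rw [← Real.exp_add, ← Real.exp_add]
      congr 1
      ring
    rw [mul_assoc, e1]
    ring
  have hI : Integrable (fun r : ℝ =>
      Real.exp (-(c / 2)) * (c * ((r - 1) * Real.exp (-(c / 2) * (r - 1) ^ 2))
        + c * Real.exp (-(c / 2) * (r - 1) ^ 2))) :=
    ((hI1.const_mul c).add (hI0.const_mul c)).const_mul _
  simp only [hf]
  refine ⟨hI.integrableOn, ?_⟩
  rw [integral_const_mul, integral_add (hI1.const_mul c).integrableOn
    (hI0.const_mul c).integrableOn]
  refine mul_le_mul_of_nonneg_left ?_ (Real.exp_pos _).le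
  refine add_le_add ?_ ?_
  · have hder : ∀ x ∈ Ici (0 : ℝ), HasDerivAt (fun r : ℝ => -Real.exp (-(c / 2) * (r - 1) ^ 2))
        (c * ((x - 1) * Real.exp (-(c / 2) * (x - 1) ^ 2))) x := by
      intro x _
      have h1 : HasDerivAt (fun r : ℝ => -(c / 2) * (r - 1) ^ 2)
          (-(c / 2) * (2 * (x - 1) ^ 1 * 1)) x := by
        have := ((hasDerivAt_id x).sub_const 1).pow 2
        have h2 := this.const_mul (-(c / 2))
        simpa using h2
      have h3 := h1.exp.neg
      have e2 : c * ((x - 1) * Real.exp (-(c / 2) * (x - 1) ^ 2))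
          = -(Real.exp (-(c / 2) * (x - 1) ^ 2) * (-(c / 2) * (2 * (x - 1) ^ 1 * 1))) := by ring
      rw [e2]
      exact h3
    have hlim : Filter.Tendsto (fun r : ℝ => -Real.exp (-(c / 2) * (r - 1) ^ 2)) Filter.atTop
        (nhds (-0)) := by
      apply Filter.Tendsto.neg
      apply Real.tendsto_exp_atBot.comp
      have h1 : Filter.Tendsto (fun r : ℝ => (r - 1) ^ 2) Filter.atTop Filter.atTop :=
        (Filter.tendsto_pow_atTop (by norm_num)).comp
          (Filter.tendsto_atTop_add_const_right _ (-1) Filter.tendsto_id)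
      exact h1.const_mul_atTop_of_neg (by linarith)
    rw [integral_Ioi_of_hasDerivAt_of_tendsto' hder (hI1.const_mul c).integrableOn hlim]
    have : Real.exp (-(c / 2) * (0 - 1) ^ 2) ≤ 1 := by
      apply Real.exp_le_one_iff.2
      nlinarith
    linarith
  · calc ∫ r in Ioi (0 : ℝ), c * Real.exp (-(c / 2) * (r - 1) ^ 2)
        ≤ ∫ r : ℝ, c * Real.exp (-(c / 2) * (r - 1) ^ 2) :=
          setIntegral_le_integral (hI0.const_mul c)
            (Filter.Eventually.of_forall fun r => by positivity)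
      _ = c * Real.sqrt (Real.pi / (c / 2)) := by
          rw [integral_const_mul,
            integral_sub_right_eq_self (fun x : ℝ => Real.exp (-(c / 2) * x ^ 2)) 1,
            integral_gaussian]
      _ = Real.sqrt (2 * Real.pi * c) := by
          have h1 : 2 * Real.pi * c = c ^ 2 * (Real.pi / (c / 2)) := by
            field_simp
          rw [h1, Real.sqrt_mul (by positivity), Real.sqrt_sq hc.le]
      _ ≤ Real.sqrt (2 * Real.pi * c) := le_rfl

end Pool.Agent.Helper584.KS
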