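import Pool.Agent.Helper584.KS.Defs
import Pool.Agent.Helper584.KS.P_body_facts

open MeasureTheory Set
open scoped ENNReal RealInnerProductSpace

namespace Pool.Agent.Helper584.KS



theorem jensen {n : ℕ} {T : Set (E n)} (hT : Body T) (p u : E n → ℝ) (hp : Continuous p)
    (hu : Continuous u) (hp0 : ∀ z, 0 < p z) :
    (∫ z in T, p z) * Real.exp ((∫ z in T, p z)⁻¹ * ∫ z in T, p z * u z) ≤
      ∫ z in T, p z * Real.exp (u z) := by
  obtain ⟨hm, hv, -, -, -⟩ := body_facts hT
  have ip : IntegrableOn p T := hp.continuousOn.integrableOn_compact hT.comp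
  have ipu : IntegrableOn (fun z => p z * u z) T :=
    (hp.mul hu).continuousOn.integrableOn_compact hT.comp
  have ipe : IntegrableOn (fun z => p z * Real.exp (u z)) T :=
    (hp.mul (Real.continuous_exp.comp hu)).continuousOn.integrableOn_compact hT.comp
  have hpos : 0 < ∫ z in T, p z := by
    rw [setIntegral_pos_iff_support_of_nonneg_ae
      (Filter.Eventually.of_forall (fun z => (hp0 z).le)) ip]
    have : Function.support p = Set.univ := by
      ext z
      simp [(hp0 z).ne']
    rw [this, Set.univ_inter]
    exact hv
  set I := ∫ z in T, p z with hI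
  set J := ∫ z in T, p z * u z with hJ
  set m := I⁻¹ * J with hmdef
  have ilow : IntegrableOn (fun z => Real.exp m * (p z * (1 + (u z - m)))) T :=
    (continuous_const.mul (hp.mul (continuous_const.add (hu.sub continuous_const)))).continuousOn.integrableOn_compact
      hT.comp
  have hle : ∫ z in T, Real.exp m * (p z * (1 + (u z - m))) ≤ ∫ z in T, p z * Real.exp (u z) := by
    refine integral_mono ilow ipe (fun z => ?_)
    show Real.exp m * (p z * (1 + (u z - m))) ≤ p z * Real.exp (u z)
    have h1 : 1 + (u z - m) ≤ Real.exp (u z - m) := by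
      have := Real.add_one_le_exp (u z - m)
      linarith
    have h2 : Real.exp (u z) = Real.exp m * Real.exp (u z - m) := by
      rw [← Real.exp_add]
      congr 1
      ring
    rw [h2]
    have h3 : p z * (1 + (u z - m)) ≤ p z * Real.exp (u z - m) :=
      mul_le_mul_of_nonneg_left h1 (hp0 z).le
    have h4 := mul_le_mul_of_nonneg_left h3 (Real.exp_pos m).le
    calc _ ≤ _ := h4
      _ = _ := by ring
  have heq : ∫ z in T, Real.exp m * (p z * (1 + (u z - m))) = I * Real.exp m := by
    have e1 : (fun z => Real.exp m * (p z * (1 + (u z - m)))) =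
        fun z => (Real.exp m * (1 - m)) * p z + Real.exp m * (p z * u z) := by
      funext z
      ring
    rw [e1, integral_add (ip.const_mul _) (ipu.const_mul _), integral_const_mul,
      integral_const_mul, ← hI, ← hJ]
    have e2 : J = I * m := by
      rw [hmdef, ← mul_assoc, mul_inv_cancel₀ hpos.ne', one_mul]
    rw [e2]
    ring
  rw [← heq]
  exact hle

end Pool.Agent.Helper584.KS
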