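import Pool.Agent.Helper584.KS.Defs
import Pool.Agent.Helper584.KS.P_body_facts
import Pool.Agent.Helper584.KS.P_NT_pos
import Pool.Agent.Helper584.KS.P_GT_eq
import Pool.Agent.Helper584.KS.P_jensen

open MeasureTheory Set
open scoped ENNReal RealInnerProductSpace

namespace Pool.Agent.Helper584.KS



/-- the mean of the tilt -/
theorem sg_mean {n : ℕ} {T : Set (E n)} (hT : Body T) (s a τ : ℝ) (hs : 0 < s) (x w : E n) :
    ∫ z in T, Real.exp (-(‖z - w‖ ^ 2 / (2 * s ^ 2))) *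
      (τ * ⟪x - a • z, bT T s w - z⟫ / s ^ 2 - τ ^ 2 * ‖bT T s w - z‖ ^ 2 / (2 * s ^ 2)) =
      (τ * a - τ ^ 2 / 2) * (NT T s w * VT T s w) := by
  set b := bT T s w with hb
  set q : E n → ℝ := fun z => Real.exp (-(‖z - w‖ ^ 2 / (2 * s ^ 2))) with hq
  have hN : 0 < NT T s w := NT_pos hT s hs w
  have hqc : Continuous q := by
    rw [hq]
    exact Real.continuous_exp.comp ((((continuous_id.sub continuous_const).norm.pow 2).div_const _).neg)
  have hint : ∀ {F : Type} [NormedAddCommGroup F] (f : E n → F), Continuous f →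
      IntegrableOn f T := fun f hf => hf.continuousOn.integrableOn_compact hT.comp
  have h0 : ∀ z, q z * (τ * ⟪x - a • z, b - z⟫ / s ^ 2 - τ ^ 2 * ‖b - z‖ ^ 2 / (2 * s ^ 2)) =
      τ / s ^ 2 * (q z * ⟪x - a • b, b - z⟫) +
        (τ * a - τ ^ 2 / 2) * (q z * (‖z - b‖ ^ 2 / s ^ 2)) := by
    intro z
    have e1 : x - a • z = (x - a • b) + a • (b - z) := by
      rw [smul_sub]; abel
    have e2 : ⟪x - a • z, b - z⟫ = ⟪x - a • b, b - z⟫ + a * ‖b - z‖ ^ 2 := by
      rw [e1, inner_add_left, real_inner_smul_left, real_inner_self_eq_norm_sq]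
    rw [e2, norm_sub_rev z b]
    field_simp
    ring
  have h1 : ∫ z in T, q z * ⟪x - a • b, b - z⟫ = 0 := by
    have e1 : ∀ z, q z * ⟪x - a • b, b - z⟫ = ⟪x - a • b, q z • (b - z)⟫ := fun z => by
      rw [real_inner_smul_right]
    simp_rw [e1]
    have ci : IntegrableOn (fun z => q z • (b - z)) T :=
      hint (fun z => q z • (b - z)) (hqc.smul (continuous_const.sub continuous_id))
    rw [integral_inner ci]
    have e2 : ∫ z in T, q z • (b - z) = 0 := by
      have e3 : ∀ z, q z • (b - z) = q z • b - q z • z := fun z => smul_sub _ _ _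
      simp_rw [e3]
      have ci1 : IntegrableOn (fun z => q z • b) T :=
        hint (fun z => q z • b) (hqc.smul continuous_const)
      have ci2 : IntegrableOn (fun z => q z • z) T :=
        hint (fun z => q z • z) (hqc.smul continuous_id)
      rw [integral_sub ci1 ci2, integral_smul_const]
      have e4 : (NT T s w) • b = ∫ z in T, q z • z := by
        rw [hb]
        unfold bT
        rw [smul_smul, mul_inv_cancel₀ hN.ne', one_smul]
      have e5 : ∫ z in T, q z = NT T s w := rfl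
      rw [e5, e4, sub_self]
    rw [e2, inner_zero_right]
  have h2 : ∫ z in T, q z * (‖z - b‖ ^ 2 / s ^ 2) = NT T s w * VT T s w := by
    unfold VT
    rw [← mul_assoc, mul_inv_cancel₀ hN.ne', one_mul]
  show ∫ z in T, q z * (τ * ⟪x - a • z, b - z⟫ / s ^ 2 - τ ^ 2 * ‖b - z‖ ^ 2 / (2 * s ^ 2)) = _
  simp_rw [h0]
  have c1 : Continuous (fun z => q z * ⟪x - a • b, b - z⟫) :=
    hqc.mul (continuous_const.inner (continuous_const.sub continuous_id))
  have c2 : Continuous (fun z => q z * (‖z - b‖ ^ 2 / s ^ 2)) :=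
    hqc.mul (((continuous_id.sub continuous_const).norm.pow 2).div_const _)
  rw [integral_add ((hint _ c1).const_mul _) ((hint _ c2).const_mul _), integral_const_mul,
    integral_const_mul, h1, h2, mul_zero, zero_add]

theorem step_G {n : ℕ} {T : Set (E n)} (hT : Body T) (θ δ : ℝ) (h0 : 0 < θ) (hδ : 0 < δ)
    (h1 : θ + δ ≤ Real.pi / 2) (x : E n) :
    (Real.sin θ / Real.sin (θ + δ)) ^ n * GT T θ x *
        Real.exp (((Real.sin δ / Real.sin (θ + δ)) * Real.cos θ
          - (Real.sin δ / Real.sin (θ + δ)) ^ 2 / 2) * VT T (Real.sin θ) (Real.cos θ • x)) ≤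
      GT T (θ + δ) (Ph T θ δ x) := by
  have hpi := Real.pi_pos
  have hs : 0 < Real.sin θ := Real.sin_pos_of_pos_of_lt_pi h0 (by linarith)
  have hs' : 0 < Real.sin (θ + δ) := Real.sin_pos_of_pos_of_lt_pi (by linarith) (by linarith)
  have hsd : Real.sin δ = Real.sin (θ + δ) * Real.cos θ - Real.cos (θ + δ) * Real.sin θ := by
    have : Real.sin δ = Real.sin ((θ + δ) - θ) := by congr 1; ring
    rw [this, Real.sin_sub]
  have hsa : Real.sin θ ^ 2 + Real.cos θ ^ 2 = 1 := Real.sin_sq_add_cos_sq θ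
  rw [GT_eq hT (θ + δ) (by linarith) (by linarith)]
  have hGθ := GT_eq hT θ h0 (by linarith) x
  have hPh : Ph T θ δ x = (Real.sin (θ + δ) / Real.sin θ) • x
    - (Real.sin δ / Real.sin θ) • bT T (Real.sin θ) (Real.cos θ • x) := rfl
  have hmean := sg_mean hT (Real.sin θ) (Real.cos θ) (Real.sin δ / Real.sin (θ + δ)) hs x
    (Real.cos θ • x)
  set s := Real.sin θ with hsdef
  set a := Real.cos θ with hadef
  set s' := Real.sin (θ + δ) with hs'def
  set a' := Real.cos (θ + δ) with ha'def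
  set d := Real.sin δ with hddef
  set τ := d / s' with hτ
  set w := a • x with hw
  set b := bT T s w with hb
  obtain ⟨p, hpdef⟩ : ∃ p : E n → ℝ, p = fun z => Real.exp (-(‖z‖ ^ 2 / 2)) * ((s ^ n)⁻¹ *
      Real.exp (-(‖x - a • z‖ ^ 2 / (2 * s ^ 2)))) := ⟨_, rfl⟩
  obtain ⟨u, hudef⟩ : ∃ u : E n → ℝ, u = fun z =>
      τ * ⟪x - a • z, b - z⟫ / s ^ 2 - τ ^ 2 * ‖b - z‖ ^ 2 / (2 * s ^ 2) := ⟨_, rfl⟩
  have hpz : ∀ z, p z = Real.exp (-(‖z‖ ^ 2 / 2)) * ((s ^ n)⁻¹ *
      Real.exp (-(‖x - a • z‖ ^ 2 / (2 * s ^ 2)))) := fun z => by rw [hpdef]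
  have huz : ∀ z, u z = τ * ⟪x - a • z, b - z⟫ / s ^ 2 - τ ^ 2 * ‖b - z‖ ^ 2 / (2 * s ^ 2) :=
    fun z => by rw [hudef]
  have hpc : Continuous p := by
    rw [hpdef]
    have c1 : Continuous (fun z : E n => x - a • z) := continuous_const.sub (continuous_id.const_smul a)
    have c2 : Continuous (fun z : E n => -(‖x - a • z‖ ^ 2 / (2 * s ^ 2))) :=
      ((c1.norm.pow 2).div_const _).neg
    have c3 : Continuous (fun z : E n => -(‖z‖ ^ 2 / 2)) :=
      ((continuous_norm.pow 2).div_const 2).neg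
    exact (Continuous.rexp c3).mul (continuous_const.mul (Continuous.rexp c2))
  have huc : Continuous u := by
    rw [hudef]
    have c1 : Continuous (fun z : E n => x - a • z) := continuous_const.sub (continuous_id.const_smul a)
    have c2 : Continuous (fun z : E n => b - z) := continuous_const.sub continuous_id
    have c3 : Continuous (fun z : E n => ⟪x - a • z, b - z⟫) := c1.inner c2
    exact ((continuous_const.mul c3).div_const _).sub
      ((continuous_const.mul (c2.norm.pow 2)).div_const _)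
  have hp0 : ∀ z, 0 < p z := fun z => by
    rw [hpz]
    positivity
  have hJ := jensen hT p u hpc huc hp0
  -- the exponent identity
  have hid : ∀ z, -(‖Ph T θ δ x - a' • z‖ ^ 2 / (2 * s' ^ 2)) =
      -(‖x - a • z‖ ^ 2 / (2 * s ^ 2)) + u z := by
    intro z
    have e1 : Ph T θ δ x - a' • z = (s' / s) • ((x - a • z) - τ • (b - z)) := by
      have c1 : (s' / s) * τ = d / s := by rw [hτ]; field_simp
      have c2 : (s' / s) * a = a' + d / s := by
        rw [hsd]; field_simp; ring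
      rw [hPh, smul_sub, smul_sub, smul_smul, smul_smul, c1, c2, smul_sub, add_smul]
      abel
    have e2 : ‖(x - a • z) - τ • (b - z)‖ ^ 2 =
        ‖x - a • z‖ ^ 2 - 2 * (τ * ⟪x - a • z, b - z⟫) + τ ^ 2 * ‖b - z‖ ^ 2 := by
      rw [norm_sub_sq_real, real_inner_smul_right, norm_smul, mul_pow, Real.norm_eq_abs, sq_abs]
    rw [e1, norm_smul, mul_pow, Real.norm_eq_abs, sq_abs, e2]
    rw [huz]
    field_simp
    ring
  have hGp : ∫ z in T, Real.exp (-(‖z‖ ^ 2 / 2)) * ((s' ^ n)⁻¹ *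
      Real.exp (-(‖Ph T θ δ x - a' • z‖ ^ 2 / (2 * s' ^ 2)))) =
      (s / s') ^ n * ∫ z in T, p z * Real.exp (u z) := by
    rw [← integral_const_mul]
    refine integral_congr_ae (Filter.Eventually.of_forall fun z => ?_)
    show Real.exp (-(‖z‖ ^ 2 / 2)) * ((s' ^ n)⁻¹ *
      Real.exp (-(‖Ph T θ δ x - a' • z‖ ^ 2 / (2 * s' ^ 2)))) =
      (s / s') ^ n * (p z * Real.exp (u z))
    rw [hpz, hid, Real.exp_add, div_pow]
    have : s ^ n ≠ 0 := pow_ne_zero _ hs.ne'
    field_simp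
  -- comparison of the weights
  set K : ℝ := (s ^ n)⁻¹ * Real.exp (-(‖x‖ ^ 2 / 2)) with hK
  have hK0 : 0 < K := by positivity
  have hpq : ∀ z, p z = K * Real.exp (-(‖z - w‖ ^ 2 / (2 * s ^ 2))) := by
    intro z
    rw [hpz]
    have e1 : ‖x - a • z‖ ^ 2 = ‖x‖ ^ 2 - 2 * (a * ⟪x, z⟫) + a ^ 2 * ‖z‖ ^ 2 := by
      rw [norm_sub_sq_real, real_inner_smul_right, norm_smul, mul_pow, Real.norm_eq_abs, sq_abs]
    have e2 : ‖z - w‖ ^ 2 = ‖z‖ ^ 2 - 2 * (a * ⟪x, z⟫) + a ^ 2 * ‖x‖ ^ 2 := by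
      rw [hw, norm_sub_sq_real, real_inner_smul_right, norm_smul, mul_pow, Real.norm_eq_abs, sq_abs,
        real_inner_comm]
    have e3 : ‖x - a • z‖ ^ 2 = ‖z - w‖ ^ 2 + s ^ 2 * (‖x‖ ^ 2 - ‖z‖ ^ 2) := by
      rw [e1, e2]
      linear_combination (-(‖x‖ ^ 2 - ‖z‖ ^ 2)) * hsa
    have e4 : s ^ 2 * (‖x‖ ^ 2 - ‖z‖ ^ 2) / (2 * s ^ 2) = (‖x‖ ^ 2 - ‖z‖ ^ 2) / 2 := by
      field_simp
    have e5 : Real.exp (-(‖z‖ ^ 2 / 2)) * Real.exp (-(‖x - a • z‖ ^ 2 / (2 * s ^ 2))) =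
        Real.exp (-(‖x‖ ^ 2 / 2)) * Real.exp (-(‖z - w‖ ^ 2 / (2 * s ^ 2))) := by
      rw [← Real.exp_add, ← Real.exp_add, e3, add_div, e4]
      congr 1
      ring
    rw [hK]
    linear_combination (s ^ n)⁻¹ * e5
  have hNpos := NT_pos hT s hs w
  have hIp : ∫ z in T, p z = K * NT T s w := by
    simp_rw [hpq]
    rw [integral_const_mul]
    rfl
  have hIpu : ∫ z in T, p z * u z = K * ((τ * a - τ ^ 2 / 2) * (NT T s w * VT T s w)) := by
    rw [← hmean, ← integral_const_mul]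
    refine integral_congr_ae (Filter.Eventually.of_forall fun z => ?_)
    show p z * u z = K * (Real.exp (-(‖z - w‖ ^ 2 / (2 * s ^ 2))) *
      (τ * ⟪x - a • z, b - z⟫ / s ^ 2 - τ ^ 2 * ‖b - z‖ ^ 2 / (2 * s ^ 2)))
    rw [hpq, ← huz, mul_assoc]
  have hexp : (∫ z in T, p z)⁻¹ * ∫ z in T, p z * u z = (τ * a - τ ^ 2 / 2) * VT T s w := by
    rw [hIpu, hIp]
    field_simp
  rw [hexp] at hJ
  have hGθ' : GT T θ x = ∫ z in T, p z := by rw [hGθ, hpdef]
  rw [hGp, hGθ', mul_assoc]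
  exact mul_le_mul_of_nonneg_left hJ (by positivity)

end Pool.Agent.Helper584.KS
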