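import Pool.Agent.Helper584.KS.Defs

open MeasureTheory Set
open scoped ENNReal RealInnerProductSpace

namespace Pool.Agent.Helper584.KS



theorem trace_le {n : ℕ} (C : E n →L[ℝ] E n) (h0 : ∀ v : E n, 0 ≤ ⟪C v, v⟫)
    (h1 : ∀ v : E n, ⟪C v, v⟫ ≤ ‖v‖ ^ 2) :
    0 ≤ LinearMap.trace ℝ (E n) (C : E n →ₗ[ℝ] E n) ∧
      LinearMap.trace ℝ (E n) (C : E n →ₗ[ℝ] E n) ≤ n := by
  have e1 := LinearMap.trace_eq_sum_inner (C : E n →ₗ[ℝ] E n) (EuclideanSpace.basisFun (Fin n) ℝ)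
  have e2 : ∀ i, ⟪(EuclideanSpace.basisFun (Fin n) ℝ) i,
      (C : E n →ₗ[ℝ] E n) ((EuclideanSpace.basisFun (Fin n) ℝ) i)⟫ =
      ⟪C ((EuclideanSpace.basisFun (Fin n) ℝ) i), (EuclideanSpace.basisFun (Fin n) ℝ) i⟫ := by
    intro i
    rw [real_inner_comm]
    rfl
  rw [e1]
  simp only [e2]
  constructor
  · exact Finset.sum_nonneg fun i _ => h0 _
  · calc ∑ i, ⟪C ((EuclideanSpace.basisFun (Fin n) ℝ) i), (EuclideanSpace.basisFun (Fin n) ℝ) i⟫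
        ≤ ∑ i : Fin n, (1 : ℝ) := by
          refine Finset.sum_le_sum fun i _ => (h1 _).trans ?_
          rw [(EuclideanSpace.basisFun (Fin n) ℝ).norm_eq_one i]
          norm_num
      _ = n := by simp

end Pool.Agent.Helper584.KS
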