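import Pool.Agent.Helper584.KS.Defs
import Pool.Agent.Helper584.KS.P_NT_pos
import Pool.Agent.Helper584.KS.P_bT_deriv
import Pool.Agent.Helper584.KS.P_C_props
import Pool.Agent.Helper584.KS.P_C_le
import Pool.Agent.Helper584.KS.P_trace_le
import Pool.Agent.Helper584.KS.P_det_ineq
import Pool.Agent.Helper584.KS.P_step_G

open MeasureTheory Set
open scoped ENNReal RealInnerProductSpace

namespace Pool.Agent.Helper584.KS



theorem step_pt {n : ℕ} {T : Set (E n)} (hT : Body T) (θ δ : ℝ) (h0 : 0 < θ) (hδ : 0 < δ)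
    (h1 : θ + δ ≤ Real.pi / 2) (hτ : Real.sin δ / Real.sin (θ + δ) ≤ 1 / 2) (x : E n) :
    ∃ D : E n →L[ℝ] E n, HasFDerivAt (Ph T θ δ) D x ∧
      GT T θ x * Real.exp (-(2 * n * (Real.sin δ / Real.sin (θ + δ)) ^ 2)) ≤
        GT T (θ + δ) (Ph T θ δ x) * |D.det| := by
  have hpi := Real.pi_pos
  have hs : 0 < Real.sin θ := Real.sin_pos_of_pos_of_lt_pi h0 (by linarith)
  have hs' : 0 < Real.sin (θ + δ) := Real.sin_pos_of_pos_of_lt_pi (by linarith) (by linarith)
  have hsd : 0 < Real.sin δ := Real.sin_pos_of_pos_of_lt_pi hδ (by linarith)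
  have ha : 0 < Real.cos θ := Real.cos_pos_of_mem_Ioo ⟨by linarith, by linarith⟩
  have ha1 : Real.cos θ ≤ 1 := Real.cos_le_one θ
  obtain ⟨C, hCd, hC⟩ := bT_deriv hT (Real.sin θ) hs (Real.cos θ • x)
  obtain ⟨hsym, hnn, htr⟩ := C_props hT (Real.sin θ) hs (Real.cos θ • x) C hC
  have hle : ∀ v : E n, ⟪C v, v⟫ ≤ ‖v‖ ^ 2 := fun v => C_le hT (Real.sin θ) hs (Real.cos θ • x) C hCd v
  obtain ⟨hV0, hVn⟩ := trace_le C hnn hle
  have hG := step_G hT θ δ h0 hδ h1 x
  have hτ0 : 0 < Real.sin δ / Real.sin (θ + δ) := div_pos hsd hs'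
  have hdet := det_ineq C hsym hnn hle (Real.sin δ / Real.sin (θ + δ) * Real.cos θ) (by positivity)
    (by nlinarith)
  rw [htr] at hV0 hVn hdet
  have hN : 0 < NT T (Real.sin θ) (Real.cos θ • x) := NT_pos hT _ hs _
  have hGpos : 0 < GT T θ x := by
    unfold GT
    positivity
  have hD : HasFDerivAt (Ph T θ δ) ((Real.sin (θ + δ) / Real.sin θ) • (ContinuousLinearMap.id ℝ (E n)
      - (Real.sin δ / Real.sin (θ + δ) * Real.cos θ) • C)) x := by
    have e1 : HasFDerivAt (fun y : E n => Real.cos θ • y)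
        (Real.cos θ • ContinuousLinearMap.id ℝ (E n)) x :=
      (hasFDerivAt_id (𝕜 := ℝ) x).const_smul (Real.cos θ)
    have e2 : HasFDerivAt (fun y : E n => bT T (Real.sin θ) (Real.cos θ • y))
        (C.comp (Real.cos θ • ContinuousLinearMap.id ℝ (E n))) x := HasFDerivAt.comp x hCd e1
    have e3 := ((hasFDerivAt_id (𝕜 := ℝ) x).const_smul (Real.sin (θ + δ) / Real.sin θ)).sub
      (e2.const_smul (Real.sin δ / Real.sin θ))
    have e4 : (Real.sin (θ + δ) / Real.sin θ) • (ContinuousLinearMap.id ℝ (E n)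
      - (Real.sin δ / Real.sin (θ + δ) * Real.cos θ) • C)
      = (Real.sin (θ + δ) / Real.sin θ) • ContinuousLinearMap.id ℝ (E n)
        - (Real.sin δ / Real.sin θ) • (C.comp (Real.cos θ • ContinuousLinearMap.id ℝ (E n))) := by
      rw [smul_sub, ContinuousLinearMap.comp_smul, ContinuousLinearMap.comp_id, smul_smul, smul_smul]
      congr 2
      field_simp
    rw [e4]
    exact e3
  refine ⟨_, hD, ?_⟩
  set τ := Real.sin δ / Real.sin (θ + δ) with hτdef
  set V := VT T (Real.sin θ) (Real.cos θ • x) with hVdef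
  set M := ContinuousLinearMap.id ℝ (E n) - (τ * Real.cos θ) • C with hM
  have hdetD : ((Real.sin (θ + δ) / Real.sin θ) • M).det = (Real.sin (θ + δ) / Real.sin θ) ^ n * M.det := by
    show LinearMap.det (((Real.sin (θ + δ) / Real.sin θ) • M : E n →L[ℝ] E n) : E n →ₗ[ℝ] E n) = _
    rw [ContinuousLinearMap.toLinearMap_smul, LinearMap.det_smul, finrank_euclideanSpace_fin]
  rw [hdetD]
  have hMd : 0 < M.det := lt_of_lt_of_le (Real.exp_pos _) hdet
  have hq : 0 < (Real.sin (θ + δ) / Real.sin θ) ^ n := by positivity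
  rw [abs_of_pos (mul_pos hq hMd)]
  have hq2 : (Real.sin θ / Real.sin (θ + δ)) ^ n * (Real.sin (θ + δ) / Real.sin θ) ^ n = 1 := by
    rw [← mul_pow]
    have : Real.sin θ / Real.sin (θ + δ) * (Real.sin (θ + δ) / Real.sin θ) = 1 := by
      field_simp
    rw [this, one_pow]
  have hstep : (Real.sin θ / Real.sin (θ + δ)) ^ n * GT T θ x *
        Real.exp ((τ * Real.cos θ - τ ^ 2 / 2) * V) * ((Real.sin (θ + δ) / Real.sin θ) ^ n *
        Real.exp (-(τ * Real.cos θ * V) - n * (τ * Real.cos θ) ^ 2)) ≤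
        GT T (θ + δ) (Ph T θ δ x) * ((Real.sin (θ + δ) / Real.sin θ) ^ n * M.det) := by
    apply mul_le_mul hG
    · exact mul_le_mul_of_nonneg_left hdet hq.le
    · positivity
    · refine le_trans ?_ hG
      positivity
  refine le_trans ?_ hstep
  have hexp : Real.exp ((τ * Real.cos θ - τ ^ 2 / 2) * V) *
        Real.exp (-(τ * Real.cos θ * V) - n * (τ * Real.cos θ) ^ 2)
        = Real.exp (-(τ ^ 2 / 2 * V) - n * (τ * Real.cos θ) ^ 2) := by
    rw [← Real.exp_add]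
    congr 1
    ring
  have hre : (Real.sin θ / Real.sin (θ + δ)) ^ n * GT T θ x *
        Real.exp ((τ * Real.cos θ - τ ^ 2 / 2) * V) * ((Real.sin (θ + δ) / Real.sin θ) ^ n *
        Real.exp (-(τ * Real.cos θ * V) - n * (τ * Real.cos θ) ^ 2))
        = GT T θ x * Real.exp (-(τ ^ 2 / 2 * V) - n * (τ * Real.cos θ) ^ 2) := by
    calc _ = ((Real.sin θ / Real.sin (θ + δ)) ^ n * (Real.sin (θ + δ) / Real.sin θ) ^ n) * GT T θ x *
          (Real.exp ((τ * Real.cos θ - τ ^ 2 / 2) * V) *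
        Real.exp (-(τ * Real.cos θ * V) - n * (τ * Real.cos θ) ^ 2)) := by ring
      _ = _ := by rw [hq2, hexp, one_mul]
  rw [hre]
  apply mul_le_mul_of_nonneg_left _ hGpos.le
  apply Real.exp_le_exp.mpr
  have hn0 : (0 : ℝ) ≤ n := Nat.cast_nonneg n
  have h5 : τ ^ 2 / 2 * V ≤ τ ^ 2 / 2 * n := mul_le_mul_of_nonneg_left hVn (by positivity)
  have h6 : (τ * Real.cos θ) ^ 2 ≤ τ ^ 2 := by
    rw [mul_pow]
    have : Real.cos θ ^ 2 ≤ 1 := by nlinarith
    nlinarith [sq_nonneg τ]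
  have h7 : (n : ℝ) * (τ * Real.cos θ) ^ 2 ≤ n * τ ^ 2 := mul_le_mul_of_nonneg_left h6 hn0
  have h8 : 0 ≤ (n : ℝ) * τ ^ 2 := by positivity
  nlinarith

end Pool.Agent.Helper584.KS
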