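import Pool.Agent.Helper584.KS.Defs
import Pool.Agent.Helper584.KS.P_step_pt
import Pool.Agent.Helper584.KS.P_Ph_expand
import Pool.Agent.Helper584.KS.P_Ph_facts
import Pool.Agent.Helper584.KS.P_GT_facts
import Pool.Agent.Helper584.KS.P_TF_integrable

open MeasureTheory Set
open scoped ENNReal RealInnerProductSpace

namespace Pool.Agent.Helper584.KS



theorem step_h {n : ℕ} {T : Set (E n)} (hT : Body T) (RT : ℝ) (hRT : T ⊆ Metric.closedBall 0 RT)
    (θ δ : ℝ) (h0 : 0 < θ) (hδ : 0 < δ) (h1 : θ + δ ≤ Real.pi / 2)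
    (hτ : Real.sin δ / Real.sin (θ + δ) ≤ 1 / 2) (R M : ℝ) (h : E n → ℝ) (hh : TF R M h) :
    ∃ h' : E n → ℝ,
      TF (Real.sin (θ + δ) / Real.sin θ * R + Real.sin δ / Real.sin θ * RT) M h' ∧
      (∀ y, h' y ≠ 0 → ∃ x, y = Ph T θ δ x ∧ h' y = h x) ∧
      Real.exp (-(2 * n * (Real.sin δ / Real.sin (θ + δ)) ^ 2)) * (∫ x, h x * GT T θ x) ≤
        ∫ y, h' y * GT T (θ + δ) y := by
  choose D hD using fun x => step_pt hT θ δ h0 hδ h1 hτ x
  have hcont : Continuous (Ph T θ δ) :=
    continuous_iff_continuousAt.mpr fun x => (hD x).1.continuousAt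
  have hcos : 0 < Real.cos δ := Real.cos_pos_of_mem_Ioo ⟨by linarith, by linarith⟩
  have hinj : Function.Injective (Ph T θ δ) := by
    intro x y hxy
    have h2 := Ph_expand hT θ δ h0 hδ h1 x y
    rw [hxy, sub_self, norm_zero] at h2
    have h3 : ‖x - y‖ ≤ 0 := by
      by_contra hcon
      have := mul_pos hcos (not_le.mp hcon)
      linarith
    exact sub_eq_zero.mp (norm_le_zero_iff.mp h3)
  have hme : MeasurableEmbedding (Ph T θ δ) := hcont.measurableEmbedding hinj
  set h' : E n → ℝ := Function.extend (Ph T θ δ) h (fun _ => 0) with hh'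
  have he : ∀ x, h' (Ph T θ δ x) = h x := fun x => hinj.extend_apply h _ x
  have hne : ∀ y, (¬ ∃ x, Ph T θ δ x = y) → h' y = 0 := fun y hy => Function.extend_apply' h _ y hy
  have hpi := Real.pi_pos
  have hsθ : 0 < Real.sin θ := Real.sin_pos_of_pos_of_lt_pi h0 (by linarith)
  have hsθδ : 0 < Real.sin (θ + δ) := Real.sin_pos_of_pos_of_lt_pi (by linarith) (by linarith)
  have hM : 0 ≤ M := (hh.nonneg 0).trans (hh.le 0)
  have hTF : TF (Real.sin (θ + δ) / Real.sin θ * R + Real.sin δ / Real.sin θ * RT) M h' := by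
    refine ⟨hme.measurable_extend hh.meas measurable_const, ?_, ?_, ?_, ?_⟩
    · intro y
      by_cases hy : ∃ x, Ph T θ δ x = y
      · obtain ⟨x, rfl⟩ := hy
        rw [he]; exact hh.nonneg x
      · rw [hne y hy]
    · intro y
      by_cases hy : ∃ x, Ph T θ δ x = y
      · obtain ⟨x, rfl⟩ := hy
        rw [he]; exact hh.le x
      · rw [hne y hy]; exact hM
    · intro y
      by_cases hy : ∃ x, Ph T θ δ x = y
      · obtain ⟨x, rfl⟩ := hy
        rw [← (Ph_facts hT θ δ h0 hδ h1 x).1, he, he, hh.even]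
      · rw [hne y hy, hne (-y)]
        rintro ⟨x, hx⟩
        apply hy
        refine ⟨-x, ?_⟩
        rw [(Ph_facts hT θ δ h0 hδ h1 x).1, hx, neg_neg]
    · intro y hy
      by_cases hy' : ∃ x, Ph T θ δ x = y
      · obtain ⟨x, rfl⟩ := hy'
        rw [he] at hy
        have h2 := (Ph_facts hT θ δ h0 hδ h1 x).2 RT hRT
        refine h2.trans ?_
        have h3 := mul_le_mul_of_nonneg_left (hh.supp x hy)
          (div_nonneg hsθδ.le hsθ.le : 0 ≤ Real.sin (θ + δ) / Real.sin θ)
        linarith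
      · exact absurd (hne y hy') hy
  refine ⟨h', hTF, ?_, ?_⟩
  · intro y hy
    by_cases hy' : ∃ x, Ph T θ δ x = y
    · obtain ⟨x, rfl⟩ := hy'
      exact ⟨x, rfl, he x⟩
    · exact absurd (hne y hy') hy
  · have hg1 := GT_facts hT (θ + δ) (by linarith) h1
    have hg0 := GT_facts hT θ h0 (by linarith)
    have hint : Integrable (fun y => h' y * GT T (θ + δ) y) := TF_integrable hTF _ hg1.1
    have hint0 : Integrable (fun y => h y * GT T θ y) := TF_integrable hh _ hg0.1
    have hderiv : ∀ x ∈ (univ : Set (E n)),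
        HasFDerivWithinAt (Ph T θ δ) (D x) univ x := fun x _ => (hD x).1.hasFDerivWithinAt
    have hinj' : InjOn (Ph T θ δ) univ := hinj.injOn
    have e1 : ∫ y, h' y * GT T (θ + δ) y = ∫ y in Ph T θ δ '' univ, h' y * GT T (θ + δ) y := by
      symm
      apply setIntegral_eq_integral_of_forall_compl_eq_zero
      intro y hy
      rw [hne y, zero_mul]
      rintro ⟨x, hx⟩
      exact hy ⟨x, mem_univ x, hx⟩
    have e2 := integral_image_eq_integral_abs_det_fderiv_smul (volume : Measure (E n))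
      MeasurableSet.univ hderiv hinj' (fun y => h' y * GT T (θ + δ) y)
    have i2 : IntegrableOn (fun x => |(D x).det| • (h' (Ph T θ δ x) * GT T (θ + δ) (Ph T θ δ x)))
        univ (volume : Measure (E n)) :=
      (integrableOn_image_iff_integrableOn_abs_det_fderiv_smul (volume : Measure (E n))
      MeasurableSet.univ hderiv hinj' (fun y => h' y * GT T (θ + δ) y)).mp hint.integrableOn
    rw [e1, e2, ← integral_const_mul]
    rw [Measure.restrict_univ]
    rw [IntegrableOn, Measure.restrict_univ] at i2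
    apply integral_mono (hint0.const_mul _) i2
    intro x
    show Real.exp (-(2 * n * (Real.sin δ / Real.sin (θ + δ)) ^ 2)) * (h x * GT T θ x) ≤
      |(D x).det| • (h' (Ph T θ δ x) * GT T (θ + δ) (Ph T θ δ x))
    rw [he, smul_eq_mul]
    have h2 := mul_le_mul_of_nonneg_left (hD x).2 (hh.nonneg x)
    calc Real.exp (-(2 * n * (Real.sin δ / Real.sin (θ + δ)) ^ 2)) * (h x * GT T θ x)
        = h x * (GT T θ x * Real.exp (-(2 * n * (Real.sin δ / Real.sin (θ + δ)) ^ 2))) := by ring
      _ ≤ h x * (GT T (θ + δ) (Ph T θ δ x) * |(D x).det|) := h2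
      _ = |(D x).det| * (h x * GT T (θ + δ) (Ph T θ δ x)) := by ring

end Pool.Agent.Helper584.KS
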