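import Pool.Agent.Helper584.KS.Defs
import Pool.Agent.Helper584.KS.P_Ph_expand
import Pool.Agent.Helper584.KS.P_step_h

open MeasureTheory Set
open scoped ENNReal RealInnerProductSpace

namespace Pool.Agent.Helper584.KS



theorem TF.mono' {n : ℕ} {R R' M : ℝ} {h : E n → ℝ} (hh : TF R M h) (hR : R ≤ R') : TF R' M h :=
  ⟨hh.meas, hh.nonneg, hh.le, hh.even, fun x hx => (hh.supp x hx).trans hR⟩

theorem int_GT_nonneg {n : ℕ} {T : Set (E n)} {t : ℝ} (ht : 0 < Real.sin t) {R M : ℝ}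
    {h : E n → ℝ} (hh : TF R M h) : 0 ≤ ∫ x, h x * GT T t x := by
  refine integral_nonneg fun x => mul_nonneg (hh.nonneg x) ?_
  unfold GT
  refine mul_nonneg (mul_nonneg (by positivity) (Real.exp_pos _).le) ?_
  unfold NT
  exact integral_nonneg fun z => (Real.exp_pos _).le

theorem step_pair {n : ℕ} {T : Set (E n)} (hT : Body T) {t δ : ℝ} (ht : 0 < t) (hδ : 0 < δ)
    (h1 : t + δ ≤ Real.pi / 2) {h₁ h₂ g₁ g₂ : E n → ℝ} (k : ℕ)
    (hp : ∀ x y, h₁ x * h₂ y ≤ Real.exp ((Real.cos δ ^ (2 * k))⁻¹ * (‖x - y‖ ^ 2 / 2)))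
    (e1 : ∀ y, g₁ y ≠ 0 → ∃ x, y = Ph T t δ x ∧ g₁ y = h₁ x)
    (e2 : ∀ y, g₂ y ≠ 0 → ∃ x, y = Ph T t δ x ∧ g₂ y = h₂ x) (x y : E n) :
    g₁ x * g₂ y ≤ Real.exp ((Real.cos δ ^ (2 * (k + 1)))⁻¹ * (‖x - y‖ ^ 2 / 2)) := by
  have hc : 0 < Real.cos δ := Real.cos_pos_of_mem_Ioo ⟨by linarith [Real.pi_pos], by linarith⟩
  by_cases hx : g₁ x = 0
  · rw [hx, zero_mul]; exact (Real.exp_pos _).le
  by_cases hy : g₂ y = 0
  · rw [hy, mul_zero]; exact (Real.exp_pos _).le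
  obtain ⟨x', hx', hx''⟩ := e1 x hx
  obtain ⟨y', hy', hy''⟩ := e2 y hy
  rw [hx'', hy'']
  refine (hp x' y').trans (Real.exp_le_exp.2 ?_)
  have hexp := Ph_expand hT t δ ht hδ h1 x' y'
  rw [← hx', ← hy'] at hexp
  have hsq : Real.cos δ ^ 2 * ‖x' - y'‖ ^ 2 ≤ ‖x - y‖ ^ 2 := by
    rw [← mul_pow]
    exact pow_le_pow_left₀ (by positivity) hexp 2
  have hck : 0 < Real.cos δ ^ (2 * k) := by positivity
  have hrw : (Real.cos δ ^ (2 * (k + 1)))⁻¹ = (Real.cos δ ^ (2 * k))⁻¹ * (Real.cos δ ^ 2)⁻¹ := by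
    rw [← mul_inv]; congr 1; ring
  rw [hrw, mul_assoc]
  refine mul_le_mul_of_nonneg_left ?_ (by positivity)
  rw [inv_mul_eq_div, le_div_iff₀ (by positivity)]
  linarith

theorem iterate {n : ℕ} {T : Set (E n)} (hT : Body T) (RT : ℝ) (hRT0 : 0 ≤ RT)
    (hRT : T ⊆ Metric.closedBall 0 RT) (θ δ : ℝ) (h0 : 0 < θ) (hδ : 0 < δ)
    (hτ : δ / Real.sin θ ≤ 1 / 2) (R M : ℝ) (hR : 0 ≤ R) (h1 h2 : E n → ℝ) (hh1 : TF R M h1)
    (hh2 : TF R M h2) (hp : ∀ x y, h1 x * h2 y ≤ Real.exp (‖x - y‖ ^ 2 / 2)) (k : ℕ)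
    (hk : θ + k * δ ≤ Real.pi / 2) :
    ∃ h1' h2' : E n → ℝ,
      TF (Real.sin (θ + k * δ) * (R / Real.sin θ + k * (RT * δ / Real.sin θ ^ 2))) M h1' ∧
      TF (Real.sin (θ + k * δ) * (R / Real.sin θ + k * (RT * δ / Real.sin θ ^ 2))) M h2' ∧
      (∀ x y, h1' x * h2' y ≤ Real.exp ((Real.cos δ ^ (2 * k))⁻¹ * (‖x - y‖ ^ 2 / 2))) ∧
      Real.exp (-(k * (2 * n * (δ / Real.sin θ) ^ 2))) * (∫ x, h1 x * GT T θ x) ≤
        ∫ y, h1' y * GT T (θ + k * δ) y ∧
      Real.exp (-(k * (2 * n * (δ / Real.sin θ) ^ 2))) * (∫ x, h2 x * GT T θ x) ≤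
        ∫ y, h2' y * GT T (θ + k * δ) y := by
  have hs0 : 0 < Real.sin θ := by
    have hk0 : (0:ℝ) ≤ k * δ := by positivity
    exact Real.sin_pos_of_pos_of_lt_pi h0 (by linarith [Real.pi_pos])
  induction k with
  | zero =>
    have hR' : Real.sin θ * (R / Real.sin θ) = R := by field_simp
    refine ⟨h1, h2, ?_, ?_, ?_, ?_, ?_⟩
    · simpa [hR'] using hh1
    · simpa [hR'] using hh2
    · intro x y; simpa using hp x y
    · simp
    · simp
  | succ k ih =>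
    have hk' : θ + (k:ℝ) * δ + δ ≤ Real.pi / 2 := by push_cast at hk; linarith
    obtain ⟨f1, f2, hf1, hf2, hpf, i1, i2⟩ := ih (by linarith)
    set t := θ + (k:ℝ) * δ with htdef
    have hk0 : (0:ℝ) ≤ k * δ := by positivity
    have ht0 : 0 < t := by linarith
    have htt : θ + ((k + 1 : ℕ) : ℝ) * δ = t + δ := by push_cast; ring
    have hst : Real.sin θ ≤ Real.sin t :=
      Real.sin_le_sin_of_le_of_le_pi_div_two (by linarith [Real.pi_pos]) (by linarith)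
        (by linarith)
    have hstd : Real.sin t ≤ Real.sin (t + δ) :=
      Real.sin_le_sin_of_le_of_le_pi_div_two (by linarith [Real.pi_pos]) (by linarith)
        (by linarith)
    have hsd : Real.sin δ ≤ δ := Real.sin_le hδ.le
    have hsd0 : 0 ≤ Real.sin δ :=
      Real.sin_nonneg_of_nonneg_of_le_pi hδ.le (by linarith [Real.pi_pos])
    have hs1 : 0 < Real.sin t := hs0.trans_le hst
    have hs2 : 0 < Real.sin (t + δ) := hs1.trans_le hstd
    have hτd : Real.sin δ / Real.sin (t + δ) ≤ δ / Real.sin θ :=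
      div_le_div₀ hδ.le hsd hs0 (hst.trans hstd)
    have hτd0 : 0 ≤ Real.sin δ / Real.sin (t + δ) := by positivity
    obtain ⟨g1, hg1, e1, j1⟩ := step_h hT RT hRT t δ ht0 hδ hk' (hτd.trans hτ) _ M f1 hf1
    obtain ⟨g2, hg2, e2, j2⟩ := step_h hT RT hRT t δ ht0 hδ hk' (hτd.trans hτ) _ M f2 hf2
    have hrad : Real.sin (t + δ) / Real.sin t *
        (Real.sin t * (R / Real.sin θ + k * (RT * δ / Real.sin θ ^ 2))) +
        Real.sin δ / Real.sin t * RT ≤
        Real.sin (t + δ) * (R / Real.sin θ + ((k + 1 : ℕ) : ℝ) * (RT * δ / Real.sin θ ^ 2)) := by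
      have e : Real.sin (t + δ) / Real.sin t *
        (Real.sin t * (R / Real.sin θ + k * (RT * δ / Real.sin θ ^ 2))) =
        Real.sin (t + δ) * (R / Real.sin θ + k * (RT * δ / Real.sin θ ^ 2)) := by
        rw [← mul_assoc, div_mul_cancel₀ _ hs1.ne']
      have key : Real.sin δ / Real.sin t ≤ Real.sin (t + δ) * (δ / Real.sin θ ^ 2) := by
        rw [← mul_div_assoc, div_le_div_iff₀ hs1 (by positivity)]
        have a1 : Real.sin θ ^ 2 ≤ Real.sin (t + δ) * Real.sin t := by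
          rw [sq]
          exact mul_le_mul (hst.trans hstd) hst hs0.le hs2.le
        calc Real.sin δ * Real.sin θ ^ 2 ≤ δ * (Real.sin (t + δ) * Real.sin t) :=
              mul_le_mul hsd a1 (by positivity) hδ.le
          _ = Real.sin (t + δ) * δ * Real.sin t := by ring
      have key2 : Real.sin δ / Real.sin t * RT ≤
          Real.sin (t + δ) * (δ / Real.sin θ ^ 2) * RT := mul_le_mul_of_nonneg_right key hRT0
      rw [e]
      push_cast
      have e3 : Real.sin (t + δ) * (R / Real.sin θ + ((k:ℝ) + 1) * (RT * δ / Real.sin θ ^ 2)) =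
        Real.sin (t + δ) * (R / Real.sin θ + k * (RT * δ / Real.sin θ ^ 2)) +
          Real.sin (t + δ) * (δ / Real.sin θ ^ 2) * RT := by ring
      rw [e3]
      linarith
    have hA : 2 * (n:ℝ) * (Real.sin δ / Real.sin (t + δ)) ^ 2 ≤ 2 * n * (δ / Real.sin θ) ^ 2 := by
      refine mul_le_mul_of_nonneg_left ?_ (by positivity)
      exact pow_le_pow_left₀ hτd0 hτd 2
    have hint : ∀ (h f g : E n → ℝ) (R' : ℝ), TF R' M f →
        Real.exp (-(k * (2 * n * (δ / Real.sin θ) ^ 2))) * (∫ x, h x * GT T θ x) ≤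
          ∫ y, f y * GT T t y →
        Real.exp (-(2 * n * (Real.sin δ / Real.sin (t + δ)) ^ 2)) * (∫ x, f x * GT T t x) ≤
          ∫ y, g y * GT T (t + δ) y →
        Real.exp (-(((k + 1 : ℕ) : ℝ) * (2 * n * (δ / Real.sin θ) ^ 2))) *
          (∫ x, h x * GT T θ x) ≤ ∫ y, g y * GT T (t + δ) y := by
      intro h f g R' hf a1 a2
      have hpos : 0 ≤ ∫ x, f x * GT T t x := int_GT_nonneg hs1 hf
      have e4 : Real.exp (-(((k + 1 : ℕ) : ℝ) * (2 * n * (δ / Real.sin θ) ^ 2))) =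
          Real.exp (-(2 * n * (δ / Real.sin θ) ^ 2)) *
            Real.exp (-(k * (2 * n * (δ / Real.sin θ) ^ 2))) := by
        rw [← Real.exp_add]; congr 1; push_cast; ring
      rw [e4, mul_assoc]
      calc _ ≤ Real.exp (-(2 * n * (δ / Real.sin θ) ^ 2)) * ∫ y, f y * GT T t y :=
            mul_le_mul_of_nonneg_left a1 (Real.exp_pos _).le
        _ ≤ Real.exp (-(2 * n * (Real.sin δ / Real.sin (t + δ)) ^ 2)) *
              ∫ y, f y * GT T t y :=
            mul_le_mul_of_nonneg_right (Real.exp_le_exp.2 (by linarith)) hpos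
        _ ≤ _ := a2
    rw [htt]
    exact ⟨g1, g2, hg1.mono' hrad, hg2.mono' hrad,
      fun x y => step_pair hT ht0 hδ hk' k hpf e1 e2 x y,
      hint h1 f1 g1 _ hf1 i1 j1, hint h2 f2 g2 _ hf2 i2 j2⟩

end Pool.Agent.Helper584.KS
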