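import Pool.Agent.Helper584.KS.Defs
import Pool.Agent.Helper584.KS.P_body_facts

open MeasureTheory Set
open scoped ENNReal RealInnerProductSpace

namespace Pool.Agent.Helper584.KS



theorem layer_hasDeriv (c : ℝ) (r : ℝ) :
    HasDerivAt (fun r : ℝ => -Real.exp (-(c * r ^ 2 / 2)))
      (c * r * Real.exp (-(c * r ^ 2 / 2))) r := by
  have h1 : HasDerivAt (fun r : ℝ => -(c * r ^ 2 / 2)) (-(c * r)) r := by
    have := (((hasDerivAt_pow 2 r).const_mul c).div_const 2).neg
    refine this.congr_deriv ?_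
    simp
    ring
  have h2 := (h1.exp).neg
  refine h2.congr_deriv ?_
  ring

theorem layer_tendsto (c : ℝ) (hc : 0 < c) :
    Filter.Tendsto (fun r : ℝ => -Real.exp (-(c * r ^ 2 / 2))) Filter.atTop (nhds 0) := by
  have h1 : Filter.Tendsto (fun r : ℝ => c * r ^ 2 / 2) Filter.atTop Filter.atTop := by
    have h2 : Filter.Tendsto (fun r : ℝ => r ^ 2) Filter.atTop Filter.atTop :=
      Filter.tendsto_pow_atTop (two_ne_zero)
    have h3 := h2.const_mul_atTop (show 0 < c / 2 by positivity)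
    refine h3.congr ?_
    intro r
    ring
  have h4 := (Real.tendsto_exp_neg_atTop_nhds_zero.comp h1).neg
  simpa using h4

theorem layer_int (c : ℝ) (hc : 0 < c) (a : ℝ) (ha : 0 ≤ a) :
    ∫ r in Ioi a, c * r * Real.exp (-(c * r ^ 2 / 2)) = Real.exp (-(c * a ^ 2 / 2)) := by
  have h := integral_Ioi_of_hasDerivAt_of_nonneg'
    (g := fun r : ℝ => -Real.exp (-(c * r ^ 2 / 2)))
    (g' := fun r : ℝ => c * r * Real.exp (-(c * r ^ 2 / 2))) (a := a) (l := 0)
    (fun x _ => layer_hasDeriv c x) (fun x hx => by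
      have : a < x := hx
      have : 0 < x := by linarith
      positivity) (layer_tendsto c hc)
  rw [h]
  ring

theorem layer_integrable (c : ℝ) (hc : 0 < c) :
    IntegrableOn (fun r => c * r * Real.exp (-(c * r ^ 2 / 2))) (Ioi (0 : ℝ)) :=
  integrableOn_Ioi_deriv_of_nonneg'
    (g := fun r : ℝ => -Real.exp (-(c * r ^ 2 / 2)))
    (g' := fun r : ℝ => c * r * Real.exp (-(c * r ^ 2 / 2))) (a := 0) (l := 0)
    (fun x _ => layer_hasDeriv c x) (fun x hx => by
      have : 0 < x := hx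
      positivity) (layer_tendsto c hc)

theorem layer {n : ℕ} {T : Set (E n)} (hT : Body T) (c : ℝ) (hc : 0 < c) :
    ∫ z in T, Real.exp (-(c * (‖z‖ ^ 2 / 2))) =
      ∫ r in Ioi (0 : ℝ), c * r * Real.exp (-(c * r ^ 2 / 2)) * HT T r := by
  obtain ⟨hTm, _, hTf, _, _⟩ := body_facts hT
  have : IsFiniteMeasure (volume.restrict T) := ⟨by
    rw [Measure.restrict_apply_univ]; exact hTf⟩
  obtain ⟨g, hg⟩ : ∃ g : ℝ → ℝ, g = fun r => c * r * Real.exp (-(c * r ^ 2 / 2)) := ⟨_, rfl⟩
  have hgi : Integrable g (volume.restrict (Ioi (0 : ℝ))) := by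
    rw [hg]; exact layer_integrable c hc
  have hS : MeasurableSet {p : E n × ℝ | ‖p.1‖ ≤ p.2} :=
    measurableSet_le (measurable_fst.norm) measurable_snd
  have hint : Integrable (Function.uncurry fun (z : E n) (r : ℝ) =>
      {p : E n × ℝ | ‖p.1‖ ≤ p.2}.indicator (fun p => g p.2) (z, r))
      ((volume.restrict T).prod (volume.restrict (Ioi (0 : ℝ)))) :=
    (hgi.comp_snd (volume.restrict T)).indicator hS
  have hswap := integral_integral_swap hint
  have hL : ∀ z : E n, (∫ r in Ioi (0 : ℝ),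
      {p : E n × ℝ | ‖p.1‖ ≤ p.2}.indicator (fun p => g p.2) (z, r)) =
      Real.exp (-(c * (‖z‖ ^ 2 / 2))) := by
    intro z
    have h1 : (fun r : ℝ => {p : E n × ℝ | ‖p.1‖ ≤ p.2}.indicator (fun p => g p.2) (z, r)) =
        (Ici ‖z‖).indicator g := by
      funext r
      by_cases hr : ‖z‖ ≤ r
      · rw [Set.indicator_of_mem (show (z, r) ∈ {p : E n × ℝ | ‖p.1‖ ≤ p.2} from hr),
          Set.indicator_of_mem (show r ∈ Ici ‖z‖ from hr)]
      · rw [Set.indicator_of_notMem (show (z, r) ∉ {p : E n × ℝ | ‖p.1‖ ≤ p.2} from hr),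
          Set.indicator_of_notMem (show r ∉ Ici ‖z‖ from hr)]
    rw [h1, setIntegral_indicator measurableSet_Ici]
    have h2 : (Ioi (0 : ℝ) ∩ Ici ‖z‖ : Set ℝ) =ᵐ[volume] Ioi ‖z‖ := by
      have h3 : (Ioi (0 : ℝ) ∩ Ici ‖z‖ : Set ℝ) =ᵐ[volume] (Ioi (0 : ℝ) ∩ Ioi ‖z‖ : Set ℝ) :=
        Filter.EventuallyEq.inter (Filter.EventuallyEq.refl _ _) Ioi_ae_eq_Ici.symm
      refine h3.trans ?_
      rw [Ioi_inter_Ioi, sup_eq_right.2 (norm_nonneg z)]
    rw [setIntegral_congr_set h2, hg, layer_int c hc _ (norm_nonneg z)]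
    congr 1
    ring
  have hR : ∀ r : ℝ, (∫ z in T,
      {p : E n × ℝ | ‖p.1‖ ≤ p.2}.indicator (fun p => g p.2) (z, r)) = g r * HT T r := by
    intro r
    have h1 : (fun z : E n => {p : E n × ℝ | ‖p.1‖ ≤ p.2}.indicator (fun p => g p.2) (z, r)) =
        (Metric.closedBall (0 : E n) r).indicator (fun _ => g r) := by
      funext z
      by_cases hr : ‖z‖ ≤ r
      · rw [Set.indicator_of_mem (show (z, r) ∈ {p : E n × ℝ | ‖p.1‖ ≤ p.2} from hr),
          Set.indicator_of_mem (show z ∈ Metric.closedBall (0 : E n) r from by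
            rw [mem_closedBall_zero_iff]; exact hr)]
      · rw [Set.indicator_of_notMem (show (z, r) ∉ {p : E n × ℝ | ‖p.1‖ ≤ p.2} from hr),
          Set.indicator_of_notMem (show z ∉ Metric.closedBall (0 : E n) r from by
            rw [mem_closedBall_zero_iff]; exact hr)]
    rw [h1, setIntegral_indicator Metric.isClosed_closedBall.measurableSet, setIntegral_const,
      smul_eq_mul, mul_comm]
    rfl
  calc ∫ z in T, Real.exp (-(c * (‖z‖ ^ 2 / 2)))
      = ∫ z in T, ∫ r in Ioi (0 : ℝ),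
          {p : E n × ℝ | ‖p.1‖ ≤ p.2}.indicator (fun p => g p.2) (z, r) := by
        refine integral_congr_ae (Filter.Eventually.of_forall ?_)
        intro z
        exact (hL z).symm
    _ = ∫ r in Ioi (0 : ℝ), ∫ z in T,
          {p : E n × ℝ | ‖p.1‖ ≤ p.2}.indicator (fun p => g p.2) (z, r) := hswap
    _ = ∫ r in Ioi (0 : ℝ), c * r * Real.exp (-(c * r ^ 2 / 2)) * HT T r := by
        refine integral_congr_ae (Filter.Eventually.of_forall ?_)
        intro r
        beta_reduce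
        rw [hR r, hg]

end Pool.Agent.Helper584.KS
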