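import Pool.Agent.Helper584.KS.Defs
import Pool.Agent.Helper584.KS.P_body_facts
import Pool.Agent.Helper584.KS.P_iterate
import Pool.Agent.Helper584.KS.P_endpoint

open MeasureTheory Set
open scoped ENNReal RealInnerProductSpace

namespace Pool.Agent.Helper584.KS



theorem limitN {n : ℕ} {T : Set (E n)} (hT : Body T) (θ : ℝ) (h0 : 0 < θ)
    (hθ : θ < Real.pi / 2) (R M : ℝ) (h1 h2 : E n → ℝ) (hh1 : TF R M h1)
    (hh2 : TF R M h2) (hp : ∀ x y, h1 x * h2 y ≤ Real.exp (‖x - y‖ ^ 2 / 2)) :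
    (∫ x, h1 x * GT T θ x) * (∫ x, h2 x * GT T θ x) ≤ NT T 1 0 ^ 2 * (2 * Real.pi) ^ n := by
  obtain ⟨hmeas, hpos, hlt, h0in, RT, hRT0, hRT⟩ := body_facts hT
  have hh1' : TF (max R 0) M h1 := ⟨hh1.meas, hh1.nonneg, hh1.le, hh1.even,
    fun x hx => le_trans (hh1.supp x hx) (le_max_left _ _)⟩
  have hh2' : TF (max R 0) M h2 := ⟨hh2.meas, hh2.nonneg, hh2.le, hh2.even,
    fun x hx => le_trans (hh2.supp x hx) (le_max_left _ _)⟩
  have hs0 : 0 < Real.sin θ :=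
    Real.sin_pos_of_pos_of_lt_pi h0 (by linarith [Real.pi_pos])
  obtain ⟨D, hDdef⟩ : ∃ D, D = Real.pi / 2 - θ := ⟨_, rfl⟩
  have hD : 0 < D := by rw [hDdef]; linarith
  have hD2 : D < Real.pi / 2 := by rw [hDdef]; linarith
  have hNT : ∀ σ w, 0 ≤ NT T σ w := fun σ w => by
    unfold NT
    exact integral_nonneg (fun _ => (Real.exp_pos _).le)
  have hGT : ∀ x, 0 ≤ GT T θ x := fun x => by
    unfold GT
    exact mul_nonneg (mul_nonneg (inv_nonneg.2 (pow_nonneg hs0.le _)) (Real.exp_pos _).le)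
      (hNT _ _)
  have hI1 : 0 ≤ ∫ x, h1 x * GT T θ x :=
    integral_nonneg (fun x => mul_nonneg (hh1.nonneg x) (hGT x))
  have hI2 : 0 ≤ ∫ x, h2 x * GT T θ x :=
    integral_nonneg (fun x => mul_nonneg (hh2.nonneg x) (hGT x))
  obtain ⟨ρ, hρ⟩ : ∃ ρ, ρ = max R 0 / Real.sin θ + RT * D / Real.sin θ ^ 2 := ⟨_, rfl⟩
  obtain ⟨C, hC⟩ : ∃ C : ℝ, C = 4 * n * D ^ 2 / Real.sin θ ^ 2 + 2 * D ^ 2 * ρ ^ 2 := ⟨_, rfl⟩
  have hGT2 : ∀ x, GT T (Real.pi / 2) x = Real.exp (-(‖x‖ ^ 2 / 2)) * NT T 1 0 := by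
    intro x
    unfold GT
    rw [Real.sin_pi_div_two, Real.cos_pi_div_two]
    simp
  have key : ∀ N : ℕ, 0 < N → D / N / Real.sin θ ≤ 1 / 2 → D ^ 2 / N ≤ 1 / 2 →
      (∫ x, h1 x * GT T θ x) * (∫ x, h2 x * GT T θ x) ≤
        Real.exp (C / N) * (NT T 1 0 ^ 2 * (2 * Real.pi) ^ n) := by
    intro N hN hN1 hN2
    have hNr : (0 : ℝ) < N := by exact_mod_cast hN
    have hN1r : (1 : ℝ) ≤ N := by exact_mod_cast hN
    obtain ⟨δ, hδdef⟩ : ∃ δ : ℝ, δ = D / N := ⟨_, rfl⟩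
    have hNδ : (N : ℝ) * δ = D := by rw [hδdef]; field_simp
    have hδ : 0 < δ := by rw [hδdef]; positivity
    have hδD : δ ≤ D := by rw [← hNδ]; nlinarith
    have e1 : θ + N * δ = Real.pi / 2 := by rw [hNδ, hDdef]; ring
    obtain ⟨g1, g2, hg1, hg2, hgp, hb1, hb2⟩ := iterate hT RT hRT0.le hRT θ δ h0 hδ
      (by rw [hδdef]; exact hN1) (max R 0) M (le_max_right _ _) h1 h2 hh1' hh2' hp N e1.le
    rw [e1] at hg1 hg2 hb1 hb2
    have e2 : Real.sin (Real.pi / 2) * (max R 0 / Real.sin θ + N * (RT * δ / Real.sin θ ^ 2))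
        = ρ := by
      rw [Real.sin_pi_div_two, one_mul, hρ, ← hNδ]
      ring
    rw [e2] at hg1 hg2
    -- cosine
    have hcos1 : 1 - δ ^ 2 / 2 ≤ Real.cos δ := Real.one_sub_sq_div_two_le_cos
    have hcospos : 0 < Real.cos δ :=
      Real.cos_pos_of_mem_Ioo ⟨by linarith [Real.pi_pos], by linarith⟩
    have hcosle : Real.cos δ ≤ 1 := Real.cos_le_one δ
    have hδsq : N * δ ^ 2 = D ^ 2 / N := by rw [hδdef]; field_simp
    have hδ2 : δ ^ 2 ≤ 1 / 2 := by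
      have : δ ^ 2 ≤ N * δ ^ 2 := by nlinarith [sq_nonneg δ]
      linarith
    have hpw : 1 - D ^ 2 / N ≤ Real.cos δ ^ (2 * N) := by
      have hb := one_add_mul_le_pow (a := -(δ ^ 2 / 2)) (by linarith) (2 * N)
      have h3 : (1 + -(δ ^ 2 / 2)) ^ (2 * N) ≤ Real.cos δ ^ (2 * N) :=
        pow_le_pow_left₀ (by linarith) (by linarith) _
      have h4 : 1 + ((2 * N : ℕ) : ℝ) * -(δ ^ 2 / 2) = 1 - D ^ 2 / N := by
        rw [← hδsq]; push_cast; ring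
      linarith
    have hpwpos : 0 < Real.cos δ ^ (2 * N) := pow_pos hcospos _
    have hpwle : Real.cos δ ^ (2 * N) ≤ 1 := pow_le_one₀ hcospos.le hcosle
    have hL1 : 1 ≤ (Real.cos δ ^ (2 * N))⁻¹ := (one_le_inv₀ hpwpos).2 hpwle
    have hL2 : (Real.cos δ ^ (2 * N))⁻¹ - 1 ≤ 2 * (D ^ 2 / N) := by
      have hx : 0 ≤ D ^ 2 / N := by positivity
      have h5 : (Real.cos δ ^ (2 * N))⁻¹ ≤ 1 + 2 * (D ^ 2 / N) := by
        rw [inv_le_iff_one_le_mul₀ hpwpos]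
        nlinarith
      linarith
    have hend := endpoint ρ M g1 g2 hg1 hg2 _ hL1 hgp
    have hJ1 : ∫ y, g1 y * GT T (Real.pi / 2) y =
        NT T 1 0 * ∫ x, g1 x * Real.exp (-(‖x‖ ^ 2 / 2)) := by
      rw [← integral_const_mul]
      congr 1
      funext x
      rw [hGT2]
      ring
    have hJ2 : ∫ y, g2 y * GT T (Real.pi / 2) y =
        NT T 1 0 * ∫ x, g2 x * Real.exp (-(‖x‖ ^ 2 / 2)) := by
      rw [← integral_const_mul]
      congr 1
      funext x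
      rw [hGT2]
      ring
    rw [hJ1] at hb1
    rw [hJ2] at hb2
    obtain ⟨a, ha⟩ : ∃ a : ℝ, a = N * (2 * n * (δ / Real.sin θ) ^ 2) := ⟨_, rfl⟩
    rw [← ha] at hb1 hb2
    have hprod := mul_le_mul hb1 hb2 (mul_nonneg (Real.exp_pos _).le hI2)
      (le_trans (mul_nonneg (Real.exp_pos _).le hI1) hb1)
    have e3 : Real.exp (-a) * (∫ x, h1 x * GT T θ x) *
        (Real.exp (-a) * (∫ x, h2 x * GT T θ x)) =
        Real.exp (-(2 * a)) * ((∫ x, h1 x * GT T θ x) * (∫ x, h2 x * GT T θ x)) := by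
      rw [show -(2 * a) = -a + -a by ring, Real.exp_add]
      ring
    rw [e3] at hprod
    have hprod2 : Real.exp (-(2 * a)) * ((∫ x, h1 x * GT T θ x) * (∫ x, h2 x * GT T θ x)) ≤
        NT T 1 0 ^ 2 * (Real.exp (((Real.cos δ ^ (2 * N))⁻¹ - 1) * ρ ^ 2) *
          (2 * Real.pi) ^ n) := by
      refine le_trans hprod ?_
      have e4 : NT T 1 0 * (∫ x, g1 x * Real.exp (-(‖x‖ ^ 2 / 2))) *
          (NT T 1 0 * ∫ x, g2 x * Real.exp (-(‖x‖ ^ 2 / 2))) =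
          NT T 1 0 ^ 2 * ((∫ x, g1 x * Real.exp (-(‖x‖ ^ 2 / 2))) *
            ∫ x, g2 x * Real.exp (-(‖x‖ ^ 2 / 2))) := by ring
      rw [e4]
      exact mul_le_mul_of_nonneg_left hend (sq_nonneg _)
    have e5 : (∫ x, h1 x * GT T θ x) * (∫ x, h2 x * GT T θ x) =
        Real.exp (2 * a) * (Real.exp (-(2 * a)) *
          ((∫ x, h1 x * GT T θ x) * (∫ x, h2 x * GT T θ x))) := by
      rw [← mul_assoc, ← Real.exp_add]
      simp
    rw [e5]
    calc _ ≤ Real.exp (2 * a) * (NT T 1 0 ^ 2 *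
          (Real.exp (((Real.cos δ ^ (2 * N))⁻¹ - 1) * ρ ^ 2) * (2 * Real.pi) ^ n)) :=
          mul_le_mul_of_nonneg_left hprod2 (Real.exp_pos _).le
      _ = Real.exp (2 * a + ((Real.cos δ ^ (2 * N))⁻¹ - 1) * ρ ^ 2) *
          (NT T 1 0 ^ 2 * (2 * Real.pi) ^ n) := by
          rw [Real.exp_add]; ring
      _ ≤ Real.exp (C / N) * (NT T 1 0 ^ 2 * (2 * Real.pi) ^ n) := by
          refine mul_le_mul_of_nonneg_right (Real.exp_le_exp.2 ?_) (by positivity)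
          have e6 : 2 * a = 4 * n * D ^ 2 / Real.sin θ ^ 2 / N := by
            rw [ha, div_pow, show (N : ℝ) * (2 * n * (δ ^ 2 / Real.sin θ ^ 2)) =
              2 * n * (N * δ ^ 2) / Real.sin θ ^ 2 by ring, hδsq]
            ring
          have e7 : ((Real.cos δ ^ (2 * N))⁻¹ - 1) * ρ ^ 2 ≤ 2 * (D ^ 2 / N) * ρ ^ 2 :=
            mul_le_mul_of_nonneg_right hL2 (sq_nonneg _)
          have e8 : C / N = 4 * n * D ^ 2 / Real.sin θ ^ 2 / N + 2 * (D ^ 2 / N) * ρ ^ 2 := by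
            rw [hC]; ring
          rw [e6, e8]
          linarith
  have hlim : Filter.Tendsto (fun N : ℕ => Real.exp (C / N) *
      (NT T 1 0 ^ 2 * (2 * Real.pi) ^ n)) Filter.atTop
      (nhds (Real.exp 0 * (NT T 1 0 ^ 2 * (2 * Real.pi) ^ n))) := by
    refine Filter.Tendsto.mul_const _ ?_
    exact (Real.continuous_exp.tendsto 0).comp (tendsto_const_div_atTop_nhds_zero_nat C)
  rw [Real.exp_zero, one_mul] at hlim
  refine ge_of_tendsto hlim ?_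
  have ev1 : ∀ᶠ N : ℕ in Filter.atTop, D / N / Real.sin θ ≤ 1 / 2 := by
    have ht : Filter.Tendsto (fun N : ℕ => D / N / Real.sin θ) Filter.atTop (nhds 0) := by
      simpa using (tendsto_const_div_atTop_nhds_zero_nat D).div_const (Real.sin θ)
    exact ht.eventually_le_const (by norm_num)
  have ev2 : ∀ᶠ N : ℕ in Filter.atTop, D ^ 2 / N ≤ 1 / 2 :=
    (tendsto_const_div_atTop_nhds_zero_nat (D ^ 2)).eventually_le_const (by norm_num)
  filter_upwards [ev1, ev2, Filter.eventually_gt_atTop 0] with N a1 a2 a3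
  exact key N a3 a1 a2

end Pool.Agent.Helper584.KS
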