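import Pool.Agent.Helper584.KS.Defs
import Pool.Agent.Helper584.KS.P_body_facts
import Pool.Agent.Helper584.KS.P_TF_integrable
import Pool.Agent.Helper584.KS.P_GT_law

open MeasureTheory Set
open scoped ENNReal RealInnerProductSpace

namespace Pool.Agent.Helper584.KS



theorem lsc_law_gauss {n : ℕ} : Integrable (fun y : E n => Real.exp (-(‖y‖ ^ 2 / 2))) ∧
    ∫ y : E n, Real.exp (-(‖y‖ ^ 2 / 2)) = Real.sqrt (2 * Real.pi) ^ n := by
  have h1 : ∫ y : E n, Real.exp (-(1/2 : ℝ) * ‖y‖ ^ 2) =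
      (Real.pi / (1/2)) ^ (Module.finrank ℝ (E n) / 2 : ℝ) :=
    GaussianFourier.integral_rexp_neg_mul_sq_norm (by norm_num)
  have h2 : (fun y : E n => Real.exp (-(‖y‖ ^ 2 / 2))) =
      fun y => Real.exp (-(1/2:ℝ) * ‖y‖^2) := by
    funext y
    congr 1
    ring
  have h3 : (Real.pi / (1/2)) ^ (Module.finrank ℝ (E n) / 2 : ℝ) = Real.sqrt (2 * Real.pi) ^ n := by
    rw [finrank_euclideanSpace, Fintype.card_fin, Real.sqrt_eq_rpow, ← Real.rpow_natCast,
      ← Real.rpow_mul (by positivity)]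
    congr 1 <;> ring
  refine ⟨?_, by rw [h2, h1, h3]⟩
  by_contra hni
  have h4 := integral_undef hni
  rw [h2, h1, h3] at h4
  have h5 : 0 < Real.sqrt (2 * Real.pi) ^ n := by positivity
  linarith

theorem lsc_law {n : ℕ} {T : Set (E n)} (hT : Body T) (R M : ℝ) (h : E n → ℝ) (hh : TF R M h)
    (hl : LowerSemicontinuous h) (a : ℝ)
    (ha : a < Real.sqrt (2 * Real.pi) ^ n * ∫ z in T, h z * Real.exp (-(‖z‖ ^ 2 / 2))) :
    ∀ᶠ θ in nhdsWithin (0 : ℝ) (Ioi 0), a < ∫ x, h x * GT T θ x := by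
  obtain ⟨hgi, hgv⟩ := lsc_law_gauss (n := n)
  have hgiT : Integrable (fun y : E n => Real.exp (-(‖y‖ ^ 2 / 2))) (volume.restrict T) :=
    hgi.restrict
  obtain ⟨μ, hμ⟩ : ∃ μ : Measure (E n), μ = volume.restrict T := ⟨_, rfl⟩
  haveI : SFinite μ := by rw [hμ]; infer_instance
  rw [← hμ] at hgiT
  obtain ⟨W, hW⟩ : ∃ W : E n × E n → ℝ, W = fun p =>
      Real.exp (-(‖p.1‖ ^ 2 / 2)) * Real.exp (-(‖p.2‖ ^ 2 / 2)) := ⟨_, rfl⟩
  have hW0 : ∀ p, 0 ≤ W p := by intro p; rw [hW]; positivity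
  have hWi : Integrable W (μ.prod volume) := by rw [hW]; exact hgiT.mul_prod hgi
  have hM : ∀ x, ‖h x‖ ≤ M := fun x => by
    rw [Real.norm_eq_abs, abs_of_nonneg (hh.nonneg x)]; exact hh.le x
  have hfi : ∀ θ : ℝ, Integrable (fun p : E n × E n =>
      h (Real.cos θ • p.1 + Real.sin θ • p.2) * W p) (μ.prod volume) := by
    intro θ
    refine hWi.bdd_mul (c := M) ?_ (Filter.Eventually.of_forall fun p => hM _)
    refine (hh.meas.comp ?_).aestronglyMeasurable
    exact (Continuous.measurable (by fun_prop))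
  have hf0i : Integrable (fun p : E n × E n => h p.1 * W p) (μ.prod volume) := by
    have := hfi 0
    simpa using this
  have hval : ∫ p, h p.1 * W p ∂(μ.prod volume) =
      Real.sqrt (2 * Real.pi) ^ n * ∫ z in T, h z * Real.exp (-(‖z‖ ^ 2 / 2)) := by
    have e : (fun p : E n × E n => h p.1 * W p) = fun p =>
        (h p.1 * Real.exp (-(‖p.1‖ ^ 2 / 2))) * Real.exp (-(‖p.2‖ ^ 2 / 2)) := by
      funext p; rw [hW]; ring
    rw [e, integral_prod_mul (fun z : E n => h z * Real.exp (-(‖z‖ ^ 2 / 2)))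
      (fun y : E n => Real.exp (-(‖y‖ ^ 2 / 2))), hgv, hμ]
    ring
  have hgθ : ∀ θ : ℝ, 0 < θ → θ < Real.pi / 2 → ∫ x, h x * GT T θ x =
      ∫ p, h (Real.cos θ • p.1 + Real.sin θ • p.2) * W p ∂(μ.prod volume) := by
    intro θ h0 h1
    rw [GT_law hT θ h0 h1 R M h hh, integral_prod _ (hfi θ), hμ]
    congr 1
    funext z
    rw [← integral_const_mul]
    congr 1
    funext y
    rw [hW]
    ring
  by_contra hcon
  rw [Filter.not_eventually] at hcon
  have hpi := Real.pi_pos
  have hev : ∀ᶠ θ in nhdsWithin (0 : ℝ) (Ioi 0), θ ∈ Ioo (0 : ℝ) (Real.pi / 2) :=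
    Ioo_mem_nhdsGT (by positivity)
  obtain ⟨θ, hθlim, hθ⟩ := Filter.exists_seq_forall_of_frequently (hcon.and_eventually hev)
  have hθ0 : Filter.Tendsto θ Filter.atTop (nhds 0) := hθlim.mono_right nhdsWithin_le_nhds
  have hint : ∀ k, ∫ p, h (Real.cos (θ k) • p.1 + Real.sin (θ k) • p.2) * W p ∂(μ.prod volume) ≤ a := by
    intro k
    rw [← hgθ (θ k) (hθ k).2.1 (hθ k).2.2]
    exact not_lt.1 (hθ k).1
  have ha0 : 0 ≤ a := by
    refine le_trans ?_ (hint 0)
    exact integral_nonneg fun p => mul_nonneg (hh.nonneg _) (hW0 p)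
  have hlint : ∀ k, ∫⁻ p, ENNReal.ofReal (h (Real.cos (θ k) • p.1 + Real.sin (θ k) • p.2) * W p)
      ∂(μ.prod volume) ≤ ENNReal.ofReal a := by
    intro k
    rw [← ofReal_integral_eq_lintegral_ofReal (hfi (θ k))
      (Filter.Eventually.of_forall fun p => mul_nonneg (hh.nonneg _) (hW0 p))]
    exact ENNReal.ofReal_le_ofReal (hint k)
  have hWm : Measurable W := by
    rw [hW]
    exact Continuous.measurable (by fun_prop)
  have hmeas : ∀ k, Measurable (fun p : E n × E n =>
      ENNReal.ofReal (h (Real.cos (θ k) • p.1 + Real.sin (θ k) • p.2) * W p)) := by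
    intro k
    refine ENNReal.measurable_ofReal.comp ((hh.meas.comp ?_).mul hWm)
    exact (Continuous.measurable (by fun_prop))
  have hfatou : ∫⁻ p, Filter.liminf (fun k => ENNReal.ofReal
      (h (Real.cos (θ k) • p.1 + Real.sin (θ k) • p.2) * W p)) Filter.atTop ∂(μ.prod volume) ≤
      Filter.liminf (fun k => ∫⁻ p, ENNReal.ofReal
      (h (Real.cos (θ k) • p.1 + Real.sin (θ k) • p.2) * W p) ∂(μ.prod volume)) Filter.atTop :=
    lintegral_liminf_le hmeas
  have hlim2 : Filter.liminf (fun k => ∫⁻ p, ENNReal.ofReal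
      (h (Real.cos (θ k) • p.1 + Real.sin (θ k) • p.2) * W p) ∂(μ.prod volume)) Filter.atTop ≤
      ENNReal.ofReal a := by
    refine (Filter.liminf_le_liminf (Filter.Eventually.of_forall hlint)).trans ?_
    rw [Filter.liminf_const]
  have hpt : ∀ p : E n × E n, ENNReal.ofReal (h p.1 * W p) ≤ Filter.liminf (fun k =>
      ENNReal.ofReal (h (Real.cos (θ k) • p.1 + Real.sin (θ k) • p.2) * W p)) Filter.atTop := by
    intro p
    have hu : Filter.Tendsto (fun k => Real.cos (θ k) • p.1 + Real.sin (θ k) • p.2) Filter.atTop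
        (nhds p.1) := by
      have hc : Continuous (fun t : ℝ => Real.cos t • p.1 + Real.sin t • p.2) := by fun_prop
      have h2 := (hc.tendsto 0).comp hθ0
      rw [Real.cos_zero, Real.sin_zero, one_smul, zero_smul, add_zero] at h2
      exact h2
    have hls : LowerSemicontinuous ((fun t : ℝ => ENNReal.ofReal (t * W p)) ∘ h) := by
      refine Continuous.comp_lowerSemicontinuous ?_ hl ?_
      · exact ENNReal.continuous_ofReal.comp (continuous_id.mul continuous_const)
      · intro s t hst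
        exact ENNReal.ofReal_le_ofReal (mul_le_mul_of_nonneg_right hst (hW0 p))
    refine le_of_forall_lt_imp_le_of_dense fun b hb => ?_
    refine Filter.le_liminf_of_le (by isBoundedDefault) ?_
    have h3 := hu.eventually (hls p.1 b hb)
    filter_upwards [h3] with k hk
    exact hk.le
  have hfin : ENNReal.ofReal (∫ p, h p.1 * W p ∂(μ.prod volume)) ≤ ENNReal.ofReal a := by
    rw [ofReal_integral_eq_lintegral_ofReal hf0i
      (Filter.Eventually.of_forall fun p => mul_nonneg (hh.nonneg _) (hW0 p))]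
    exact (lintegral_mono hpt).trans (hfatou.trans hlim2)
  rw [ENNReal.ofReal_le_ofReal_iff ha0, hval] at hfin
  linarith

end Pool.Agent.Helper584.KS
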