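import Pool.Agent.Helper584.KS.Defs
import Pool.Agent.Helper584.KS.P_TF_integrable
import Pool.Agent.Helper584.KS.P_limitN
import Pool.Agent.Helper584.KS.P_lsc_law

open MeasureTheory Set
open scoped ENNReal RealInnerProductSpace

namespace Pool.Agent.Helper584.KS



theorem limit0 {n : ℕ} {T : Set (E n)} (hT : Body T) (R M : ℝ) (h1 h2 : E n → ℝ)
    (hh1 : TF R M h1) (hh2 : TF R M h2) (hl1 : LowerSemicontinuous h1)
    (hl2 : LowerSemicontinuous h2)
    (hp : ∀ x y, h1 x * h2 y ≤ Real.exp (‖x - y‖ ^ 2 / 2)) :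
    (∫ z in T, h1 z * Real.exp (-(‖z‖ ^ 2 / 2))) * (∫ z in T, h2 z * Real.exp (-(‖z‖ ^ 2 / 2))) ≤
      NT T 1 0 ^ 2 := by
  set A : ℝ := ∫ z in T, h1 z * Real.exp (-(‖z‖ ^ 2 / 2)) with hA
  set B : ℝ := ∫ z in T, h2 z * Real.exp (-(‖z‖ ^ 2 / 2)) with hB
  have hA0 : 0 ≤ A := integral_nonneg fun z => mul_nonneg (hh1.nonneg z) (Real.exp_pos _).le
  have hB0 : 0 ≤ B := integral_nonneg fun z => mul_nonneg (hh2.nonneg z) (Real.exp_pos _).le
  have h2pi : (0 : ℝ) < 2 * Real.pi := by positivity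
  set c : ℝ := Real.sqrt (2 * Real.pi) ^ n with hc
  have hc0 : 0 < c := pow_pos (Real.sqrt_pos.mpr h2pi) n
  have hc2 : c * c = (2 * Real.pi) ^ n := by
    rw [hc, ← mul_pow, Real.mul_self_sqrt h2pi.le]
  rcases hA0.eq_or_lt with hAz | hAp
  · rw [← hAz, zero_mul]; exact sq_nonneg _
  rcases hB0.eq_or_lt with hBz | hBp
  · rw [← hBz, mul_zero]; exact sq_nonneg _
  have key : ∀ t : ℝ, 0 < t → t < 1 → (t * (c * A)) * (t * (c * B)) ≤
      NT T 1 0 ^ 2 * (2 * Real.pi) ^ n := by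
    intro t ht0 ht1
    have e1 := lsc_law hT R M h1 hh1 hl1 (t * (c * A)) (by
      have : 0 < c * A := mul_pos hc0 hAp
      nlinarith)
    have e2 := lsc_law hT R M h2 hh2 hl2 (t * (c * B)) (by
      have : 0 < c * B := mul_pos hc0 hBp
      nlinarith)
    have e3 : ∀ᶠ θ in nhdsWithin (0 : ℝ) (Ioi 0), θ < Real.pi / 2 := by
      have : Iio (Real.pi / 2) ∈ nhds (0 : ℝ) := Iio_mem_nhds (by positivity)
      exact Filter.mem_of_superset (mem_nhdsWithin_of_mem_nhds this) (fun x hx => hx)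
    have e4 : ∀ᶠ θ in nhdsWithin (0 : ℝ) (Ioi 0), 0 < θ := self_mem_nhdsWithin
    obtain ⟨θ, g1, g2, g3, g4⟩ := (e1.and (e2.and (e3.and e4))).exists
    have hl := limitN hT θ g4 g3 R M h1 h2 hh1 hh2 hp
    have hm : (t * (c * A)) * (t * (c * B)) ≤
        (∫ x, h1 x * GT T θ x) * (∫ x, h2 x * GT T θ x) := by
      apply mul_le_mul g1.le g2.le
      · positivity
      · exact le_trans (by positivity) g1.le
    exact hm.trans hl
  have hlim : Filter.Tendsto (fun t : ℝ => (t * (c * A)) * (t * (c * B)))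
      (nhdsWithin 1 (Iio 1)) (nhds ((1 * (c * A)) * (1 * (c * B)))) := by
    apply Filter.Tendsto.mono_left _ nhdsWithin_le_nhds
    exact (Continuous.tendsto (by fun_prop) 1)
  have hfin : (1 * (c * A)) * (1 * (c * B)) ≤ NT T 1 0 ^ 2 * (2 * Real.pi) ^ n := by
    apply le_of_tendsto hlim
    have e5 : Ioo (0 : ℝ) 1 ∈ nhdsWithin (1 : ℝ) (Iio 1) := Ioo_mem_nhdsLT (by norm_num)
    filter_upwards [e5] with t ht
    exact key t ht.1 ht.2
  rw [← hc2] at hfin
  have hcc : 0 < c * c := mul_pos hc0 hc0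
  have : (c * c) * (A * B) ≤ (c * c) * NT T 1 0 ^ 2 := by nlinarith
  exact le_of_mul_le_mul_left this hcc

end Pool.Agent.Helper584.KS
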