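import Pool.Agent.Helper584.KS.Defs
import Pool.Agent.Helper584.KS.P_layer
import Pool.Agent.Helper584.KS.P_gauss_bound

open MeasureTheory Set
open scoped ENNReal RealInnerProductSpace

namespace Pool.Agent.Helper584.KS



theorem mass_bound {n : ℕ} {T : Set (E n)} (hT : Body T) (c : ℝ) (hc : 0 < c)
    (H : ∀ r, 0 < r → HT T r ≤ HT T 1 * Real.exp (c * (r - 1))) :
    ∫ z in T, Real.exp (-(c * (‖z‖ ^ 2 / 2))) ≤
      HT T 1 * (Real.exp (-(c / 2)) * (1 + Real.sqrt (2 * Real.pi * c))) := by
  obtain ⟨hi, hb⟩ := gauss_bound c hc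
  have h1 : 0 ≤ HT T 1 := ENNReal.toReal_nonneg
  rw [layer hT c hc]
  calc ∫ r in Ioi (0 : ℝ), c * r * Real.exp (-(c * r ^ 2 / 2)) * HT T r
      ≤ ∫ r in Ioi (0 : ℝ), HT T 1 *
          (c * r * Real.exp (-(c * r ^ 2 / 2)) * Real.exp (c * (r - 1))) := by
        refine integral_mono_of_nonneg ?_ (hi.const_mul _) ?_
        · refine (ae_restrict_iff' measurableSet_Ioi).2 (Filter.Eventually.of_forall ?_)
          intro r hr
          have hr' : (0:ℝ) < r := hr
          have : 0 ≤ HT T r := ENNReal.toReal_nonneg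
          show 0 ≤ c * r * Real.exp (-(c * r ^ 2 / 2)) * HT T r
          positivity
        · refine (ae_restrict_iff' measurableSet_Ioi).2 (Filter.Eventually.of_forall ?_)
          intro r hr
          have hr' : (0:ℝ) < r := hr
          show c * r * Real.exp (-(c * r ^ 2 / 2)) * HT T r ≤ HT T 1 *
            (c * r * Real.exp (-(c * r ^ 2 / 2)) * Real.exp (c * (r - 1)))
          have h2 : 0 ≤ c * r * Real.exp (-(c * r ^ 2 / 2)) := by positivity
          calc c * r * Real.exp (-(c * r ^ 2 / 2)) * HT T r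
              ≤ c * r * Real.exp (-(c * r ^ 2 / 2)) * (HT T 1 * Real.exp (c * (r - 1))) :=
                mul_le_mul_of_nonneg_left (H r hr') h2
            _ = _ := by ring
    _ = HT T 1 * ∫ r in Ioi (0 : ℝ),
          c * r * Real.exp (-(c * r ^ 2 / 2)) * Real.exp (c * (r - 1)) :=
        integral_const_mul _ _
    _ ≤ _ := mul_le_mul_of_nonneg_left hb h1

end Pool.Agent.Helper584.KS
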