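import Pool.Agent.Helper584.KS.Defs
import Pool.Agent.Helper584.KS.P_body_facts

open MeasureTheory Set
open scoped ENNReal RealInnerProductSpace

namespace Pool.Agent.Helper584.KS



theorem pol_facts {n : ℕ} {K : Set (E n)} (hK : Body K) : Body (pol K) := by
  obtain ⟨-, -, -, h0, R, hR, hKR⟩ := body_facts hK
  refine ⟨?_, ?_, ?_, ?_⟩
  · intro y hy z hz a b ha hb hab x hx
    rw [inner_add_right, real_inner_smul_right, real_inner_smul_right]
    have h1 := hy x hx
    have h2 := hz x hx
    nlinarith
  · rw [mem_interior_iff_mem_nhds, Metric.mem_nhds_iff] at h0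
    obtain ⟨r, hr, hrK⟩ := h0
    refine Metric.isCompact_of_isClosed_isBounded ?_ ?_
    · have : pol K = ⋂ x ∈ K, {y : E n | ⟪x, y⟫ ≤ 1} := by
        ext y
        simp [pol]
      rw [this]
      refine isClosed_biInter fun x _ => ?_
      exact isClosed_le (by fun_prop) continuous_const
    · rw [isBounded_iff_forall_norm_le]
      refine ⟨2 / r, fun y hy => ?_⟩
      by_cases hy0 : ‖y‖ = 0
      · rw [hy0]; positivity
      · have hyp : 0 < ‖y‖ := lt_of_le_of_ne (norm_nonneg _) (Ne.symm hy0)
        have hx : (r / 2 / ‖y‖) • y ∈ K := by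
          apply hrK
          rw [mem_ball_zero_iff, norm_smul, Real.norm_eq_abs, abs_of_pos (by positivity),
            div_mul_cancel₀ _ hy0]
          linarith
        have h1 := hy _ hx
        rw [real_inner_smul_left, real_inner_self_eq_norm_sq] at h1
        have h2 : r / 2 / ‖y‖ * ‖y‖ ^ 2 = r / 2 * ‖y‖ := by
          field_simp
        rw [h2] at h1
        rw [le_div_iff₀ hr]
        linarith
  · intro y hy x hx
    have h1 := hy (-x) (hK.symm x hx)
    rw [inner_neg_left] at h1
    rw [inner_neg_right]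
    exact h1
  · refine ⟨0, ?_⟩
    rw [mem_interior_iff_mem_nhds, Metric.mem_nhds_iff]
    refine ⟨1 / R, by positivity, fun y hy x hx => ?_⟩
    rw [mem_ball_zero_iff] at hy
    have h1 : ‖x‖ ≤ R := by
      have := hKR hx
      rwa [mem_closedBall_zero_iff] at this
    calc ⟪x, y⟫ ≤ ‖x‖ * ‖y‖ := real_inner_le_norm x y
      _ ≤ R * (1 / R) := mul_le_mul h1 hy.le (norm_nonneg _) hR.le
      _ = 1 := by field_simp

end Pool.Agent.Helper584.KS
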