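import Pool.Agent.Helper584.KS.Defs
import Pool.Agent.Helper584.KS.P_body_facts
import Pool.Agent.Helper584.KS.P_limit0

open MeasureTheory Set
open scoped ENNReal RealInnerProductSpace

namespace Pool.Agent.Helper584.KS



theorem sets1_lsc {n : ℕ} {A : Set (E n)} (hA : IsOpen A) (f : E n → ℝ) (hf : Continuous f)
    (h0 : ∀ x, 0 ≤ f x) : LowerSemicontinuous (A.indicator f) := by
  intro x y hy
  by_cases hx : x ∈ A
  · rw [indicator_of_mem hx] at hy
    filter_upwards [hA.mem_nhds hx, hf.continuousAt.eventually (lt_mem_nhds hy)] with z hz hz2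
    rw [indicator_of_mem hz]
    exact hz2
  · rw [indicator_of_notMem hx] at hy
    filter_upwards with z
    exact hy.trans_le (indicator_nonneg (fun w _ => h0 w) z)

theorem sets1_tf {n : ℕ} {A : Set (E n)} (hA : IsOpen A) (sA : ∀ x ∈ A, -x ∈ A) (R M k : ℝ)
    (hR : ∀ x ∈ A, ‖x‖ ≤ R) (hk : 0 ≤ k) (hM : k * Real.exp (R ^ 2 / 2) ≤ M) (hM0 : 0 ≤ M) :
    TF R M (A.indicator (fun x : E n => k * Real.exp (‖x‖ ^ 2 / 2))) := by
  refine ⟨?_, ?_, ?_, ?_, ?_⟩
  · exact Measurable.indicator (by fun_prop) hA.measurableSet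
  · intro x
    exact indicator_nonneg (fun w _ => by positivity) x
  · intro x
    by_cases hx : x ∈ A
    · rw [indicator_of_mem hx]
      refine le_trans ?_ hM
      have h1 : ‖x‖ ≤ R := hR x hx
      have h2 : ‖x‖ ^ 2 ≤ R ^ 2 := pow_le_pow_left₀ (norm_nonneg x) h1 2
      have h3 : Real.exp (‖x‖ ^ 2 / 2) ≤ Real.exp (R ^ 2 / 2) := Real.exp_le_exp.mpr (by linarith)
      exact mul_le_mul_of_nonneg_left h3 hk
    · rw [indicator_of_notMem hx]
      exact hM0
  · intro x
    by_cases hx : x ∈ A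
    · rw [indicator_of_mem hx, indicator_of_mem (sA x hx), norm_neg]
    · have hx' : -x ∉ A := fun h => hx (by simpa using sA _ h)
      rw [indicator_of_notMem hx, indicator_of_notMem hx']
  · intro x hx
    exact hR x (mem_of_indicator_ne_zero hx)

theorem sets1_int {n : ℕ} {T : Set (E n)} (A : Set (E n)) (hA : IsOpen A) (k : ℝ) :
    ∫ z in T, (A.indicator (fun x : E n => k * Real.exp (‖x‖ ^ 2 / 2))) z *
      Real.exp (-(‖z‖ ^ 2 / 2)) = k * (volume (A ∩ T)).toReal := by
  have h1 : ∀ z : E n, (A.indicator (fun x : E n => k * Real.exp (‖x‖ ^ 2 / 2))) z *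
      Real.exp (-(‖z‖ ^ 2 / 2)) = A.indicator (fun _ => k) z := by
    intro z
    by_cases hz : z ∈ A
    · rw [indicator_of_mem hz, indicator_of_mem hz, mul_assoc, ← Real.exp_add]
      simp
    · rw [indicator_of_notMem hz, indicator_of_notMem hz, zero_mul]
  simp_rw [h1]
  rw [integral_indicator_const k hA.measurableSet, measureReal_restrict_apply hA.measurableSet,
    smul_eq_mul, mul_comm]
  rfl

theorem sets1 {n : ℕ} {T : Set (E n)} (hT : Body T) (A B : Set (E n)) (hA : IsOpen A)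
    (hB : IsOpen B) (sA : ∀ x ∈ A, -x ∈ A) (sB : ∀ x ∈ B, -x ∈ B)
    (bA : Bornology.IsBounded A) (bB : Bornology.IsBounded B) (c : ℝ)
    (hc : ∀ x ∈ A, ∀ y ∈ B, ⟪x, y⟫ ≤ c) :
    (volume (A ∩ T)).toReal * (volume (B ∩ T)).toReal ≤ Real.exp c * NT T 1 0 ^ 2 := by
  obtain ⟨R, hR⟩ := (bA.union bB).subset_closedBall (0 : E n)
  have hRA : ∀ x ∈ A, ‖x‖ ≤ R := fun x hx => by
    simpa using hR (Or.inl hx)
  have hRB : ∀ x ∈ B, ‖x‖ ≤ R := fun x hx => by
    simpa using hR (Or.inr hx)
  set M : ℝ := max (1 * Real.exp (R ^ 2 / 2)) (Real.exp (-c) * Real.exp (R ^ 2 / 2)) with hM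
  have hM0 : 0 ≤ M := le_trans (by positivity) (le_max_left _ _)
  have t1 := sets1_tf hA sA R M 1 hRA zero_le_one (le_max_left _ _) hM0
  have t2 := sets1_tf hB sB R M (Real.exp (-c)) hRB (Real.exp_pos _).le (le_max_right _ _) hM0
  have l1 := sets1_lsc hA (fun x : E n => 1 * Real.exp (‖x‖ ^ 2 / 2)) (by fun_prop)
    (fun x => by positivity)
  have l2 := sets1_lsc hB (fun x : E n => Real.exp (-c) * Real.exp (‖x‖ ^ 2 / 2)) (by fun_prop)
    (fun x => by positivity)
  have key := limit0 hT R M _ _ t1 t2 l1 l2 ?_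
  · rw [sets1_int A hA, sets1_int B hB] at key
    have h1 : (volume (A ∩ T)).toReal * (volume (B ∩ T)).toReal =
        Real.exp c * (1 * (volume (A ∩ T)).toReal * (Real.exp (-c) * (volume (B ∩ T)).toReal)) := by
      have h2 : Real.exp c * Real.exp (-c) = 1 := by rw [← Real.exp_add]; simp
      calc (volume (A ∩ T)).toReal * (volume (B ∩ T)).toReal
          = (Real.exp c * Real.exp (-c)) * ((volume (A ∩ T)).toReal * (volume (B ∩ T)).toReal) := by
            rw [h2, one_mul]
        _ = _ := by ring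
    rw [h1]
    exact mul_le_mul_of_nonneg_left key (Real.exp_pos c).le
  · intro x y
    by_cases hx : x ∈ A
    · by_cases hy : y ∈ B
      · rw [indicator_of_mem hx, indicator_of_mem hy, one_mul, ← Real.exp_add, ← Real.exp_add]
        refine Real.exp_le_exp.mpr ?_
        have h3 := hc x hx y hy
        have h4 := norm_sub_sq_real x y
        rw [h4]
        linarith
      · rw [indicator_of_notMem hy, mul_zero]
        exact (Real.exp_pos _).le
    · rw [indicator_of_notMem hx, zero_mul]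
      exact (Real.exp_pos _).le

end Pool.Agent.Helper584.KS
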