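import Pool.Agent.Helper584.KS.Defs
import Pool.Agent.Helper584.KS.P_body_facts
import Pool.Agent.Helper584.KS.P_sets1
import Pool.Agent.Helper584.KS.P_pol_facts

open MeasureTheory Set
open scoped ENNReal RealInnerProductSpace

namespace Pool.Agent.Helper584.KS



open Pointwise in
theorem sets2_int_symm {n : ℕ} {K : Set (E n)} (hK : ∀ x ∈ K, -x ∈ K) :
    ∀ x ∈ interior K, -x ∈ interior K := by
  intro x hx
  obtain ⟨U, hU, hUo, hxU⟩ := mem_interior.1 hx
  refine mem_interior.2 ⟨(fun y => -y) ⁻¹' U, ?_, hUo.preimage continuous_neg, ?_⟩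
  · intro y hy
    have := hK _ (hU hy)
    rwa [neg_neg] at this
  · show -(-x) ∈ U
    rwa [neg_neg]

open Pointwise in
theorem sets2_vol {n : ℕ} {K T : Set (E n)} (hK : Body K) (r : ℝ) (hr : 0 < r) :
    (volume (r • interior K ∩ r • T)).toReal = r ^ n * (volume (K ∩ T)).toReal := by
  have h1 : r • interior K ∩ r • T = r • (interior K ∩ T) := (Set.smul_set_inter₀ hr.ne').symm
  have h2 : volume (interior K ∩ T) = volume (K ∩ T) :=
    measure_congr ((interior_ae_eq_of_null_frontier (hK.conv.addHaar_frontier volume)).inter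
      (Filter.EventuallyEq.refl _ _))
  rw [h1, Measure.addHaar_smul, h2, ENNReal.toReal_mul]
  have h3 : Module.finrank ℝ (E n) = n := by simp
  rw [h3, abs_of_nonneg (by positivity), ENNReal.toReal_ofReal (by positivity)]

open Pointwise in
theorem sets2 {n : ℕ} {K T : Set (E n)} (hK : Body K) (hT : Body T) (c : ℝ) (hc : 0 < c) :
    (volume (K ∩ T)).toReal * (volume (pol K ∩ T)).toReal ≤
      Real.exp c * (∫ z in T, Real.exp (-(c * (‖z‖ ^ 2 / 2)))) ^ 2 := by
  obtain ⟨r, hr, hrc⟩ : ∃ r : ℝ, 0 < r ∧ r * r = c :=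
    ⟨√c, Real.sqrt_pos.2 hc, Real.mul_self_sqrt hc.le⟩
  have hP := pol_facts hK
  have hT' : Body (r • T) := by
    refine ⟨hT.conv.smul r, hT.comp.smul r, ?_, ?_⟩
    · rintro _ ⟨t, ht, rfl⟩
      exact ⟨-t, hT.symm t ht, by simp⟩
    · rw [interior_smul₀ hr.ne']
      exact hT.int.smul_set
  have hsym : ∀ {K : Set (E n)}, Body K → ∀ x ∈ r • interior K, -x ∈ r • interior K := by
    intro K hK
    rintro _ ⟨t, ht, rfl⟩
    exact ⟨-t, sets2_int_symm hK.symm t ht, by simp⟩
  have hbd : ∀ {K : Set (E n)}, Body K → Bornology.IsBounded (r • interior K) := by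
    intro K hK
    exact (hK.comp.isBounded.subset interior_subset).smul₀ r
  have h1 := sets1 hT' (r • interior K) (r • interior (pol K)) (isOpen_interior.smul₀ hr.ne')
    (isOpen_interior.smul₀ hr.ne') (hsym hK) (hsym hP) (hbd hK) (hbd hP) c (by
      rintro _ ⟨x, hx, rfl⟩ _ ⟨y, hy, rfl⟩
      have h2 : ⟪x, y⟫ ≤ 1 := (interior_subset hy : y ∈ pol K) x (interior_subset hx)
      show ⟪r • x, r • y⟫ ≤ c
      rw [real_inner_smul_left, real_inner_smul_right, ← mul_assoc, hrc]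
      nlinarith)
  rw [sets2_vol hK r hr, sets2_vol hP r hr] at h1
  obtain ⟨I, hI⟩ : ∃ I : ℝ, I = ∫ z in T, Real.exp (-(c * (‖z‖ ^ 2 / 2))) := ⟨_, rfl⟩
  have hN : NT (r • T) 1 0 = r ^ n * I := by
    have h3 := Measure.setIntegral_comp_smul_of_pos (μ := (volume : Measure (E n)))
      (fun z : E n => Real.exp (-(‖z - 0‖ ^ 2 / (2 * 1 ^ 2)))) T hr
    have h4 : Module.finrank ℝ (E n) = n := by simp
    rw [h4, smul_eq_mul] at h3
    have h5 : ∫ x in T, Real.exp (-(‖r • x - 0‖ ^ 2 / (2 * 1 ^ 2))) = I := by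
      rw [hI]
      congr 1
      funext x
      congr 2
      rw [sub_zero, norm_smul, Real.norm_eq_abs, abs_of_pos hr, mul_pow, pow_two r, hrc]
      ring
    rw [h5] at h3
    unfold NT
    rw [h3]
    field_simp
  rw [hN] at h1
  rw [← hI]
  have hrn : 0 < (r ^ n) ^ 2 := by positivity
  refine le_of_mul_le_mul_left ?_ hrn
  calc (r ^ n) ^ 2 * ((volume (K ∩ T)).toReal * (volume (pol K ∩ T)).toReal)
      = r ^ n * (volume (K ∩ T)).toReal * (r ^ n * (volume (pol K ∩ T)).toReal) := by ring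
    _ ≤ Real.exp c * (r ^ n * I) ^ 2 := h1
    _ = _ := by ring

end Pool.Agent.Helper584.KS
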