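import Pool.Agent.Helper584.KS.Defs
import Pool.Agent.Helper584.KS.P_conc_of_mid

open MeasureTheory Set
open scoped ENNReal RealInnerProductSpace

namespace Pool.Agent.Helper584.KS



theorem slope_lem (n : ℕ) (H : ℝ → ℝ) (hpos : ∀ r, 0 < r → 0 < H r)
    (hmono : ∀ r s, 0 < r → r ≤ s → H r ≤ H s)
    (hmid : ∀ r s, 0 < r → 0 < s → H r * H s ≤ H ((r + s) / 2) ^ 2)
    (hn : ∀ r, 0 < r → r ≤ 1 → r ^ n * H 1 ≤ H r) :
    ∃ c : ℝ, 0 ≤ c ∧ c ≤ n ∧ ∀ r, 0 < r → H r ≤ H 1 * Real.exp (c * (r - 1)) := by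
  set L : ℝ → ℝ := fun r => Real.log (H r) with hL
  have hH1 := hpos 1 one_pos
  have hLm : ∀ r s, 0 < r → r ≤ s → L r ≤ L s := fun r s hr hrs =>
    Real.log_le_log (hpos r hr) (hmono r s hr hrs)
  have hconc : ConcaveOn ℝ (Ioi 0) L := by
    apply conc_of_mid L hLm
    intro r s hr hs
    have h1 := hpos r hr
    have h2 := hpos s hs
    have h3 := hpos ((r + s) / 2) (by linarith)
    have h4 := Real.log_le_log (mul_pos h1 h2) (hmid r s hr hs)
    rw [Real.log_mul h1.ne' h2.ne', Real.log_pow] at h4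
    simpa [hL] using h4
  have hslope : ∀ r s, 0 < r → r < 1 → 1 < s → (L s - L 1) / (s - 1) ≤ (L 1 - L r) / (1 - r) :=
    fun r s hr hr1 hs => hconc.slope_anti_adjacent (show (0:ℝ) < r from hr)
      (show (0:ℝ) < s by linarith) hr1 hs
  set S : Set ℝ := {q | ∃ s, 1 < s ∧ q = (L s - L 1) / (s - 1)} with hS
  have hne : S.Nonempty := ⟨_, 2, by norm_num, rfl⟩
  have hbd : BddAbove S := by
    refine ⟨(L 1 - L (1/2)) / (1 - 1/2), ?_⟩
    rintro q ⟨s, hs, rfl⟩
    exact hslope (1/2) s (by norm_num) (by norm_num) hs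
  set c := sSup S with hc
  have hup : ∀ s, 1 < s → (L s - L 1) / (s - 1) ≤ c := fun s hs => le_csSup hbd ⟨s, hs, rfl⟩
  have hlow : ∀ r, 0 < r → r < 1 → c ≤ (L 1 - L r) / (1 - r) := by
    intro r hr hr1
    apply csSup_le hne
    rintro q ⟨s, hs, rfl⟩
    exact hslope r s hr hr1 hs
  have hc0 : 0 ≤ c := by
    refine le_trans ?_ (hup 2 (by norm_num))
    have := hLm 1 2 one_pos (by norm_num)
    apply div_nonneg
    · linarith
    · norm_num
  have hcr : ∀ r, 0 < r → r < 1 → c * r ≤ n := by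
    intro r hr hr1
    have h1 := hlow r hr hr1
    rw [le_div_iff₀ (by linarith)] at h1
    have h2 : (n : ℝ) * Real.log r + L 1 ≤ L r := by
      have h3 := Real.log_le_log (mul_pos (pow_pos hr n) hH1) (hn r hr hr1.le)
      rw [Real.log_mul (pow_pos hr n).ne' hH1.ne', Real.log_pow] at h3
      exact h3
    have h4 : -Real.log r ≤ 1 / r - 1 := by
      have := Real.log_le_sub_one_of_pos (show (0:ℝ) < 1 / r by positivity)
      rw [one_div, Real.log_inv] at this
      rw [one_div]
      exact this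
    have h5 : c * (1 - r) ≤ n * (1 / r - 1) := by
      have h6 : (n : ℝ) * (-Real.log r) ≤ n * (1 / r - 1) :=
        mul_le_mul_of_nonneg_left h4 (Nat.cast_nonneg n)
      linarith
    have h7 : (n : ℝ) * (1 / r - 1) = n * (1 - r) / r := by field_simp
    rw [h7, le_div_iff₀ hr] at h5
    have h8 : c * r * (1 - r) ≤ n * (1 - r) := by linarith
    exact le_of_mul_le_mul_right h8 (by linarith)
  have hcn : c ≤ n := by
    by_contra hcon
    push Not at hcon
    have hn0 : (0:ℝ) ≤ n := Nat.cast_nonneg n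
    have hcp : 0 < c := by linarith
    have h1 := hcr ((n / c + 1) / 2) (by positivity) (by
      have : (n : ℝ) / c < 1 := by rw [div_lt_one hcp]; exact hcon
      linarith)
    have h2 : c * ((n / c + 1) / 2) = (n + c) / 2 := by field_simp
    rw [h2] at h1
    linarith
  refine ⟨c, hc0, hcn, ?_⟩
  intro r hr
  have hkey : L r ≤ L 1 + c * (r - 1) := by
    rcases lt_trichotomy r 1 with h | h | h
    · have h1 := hlow r hr h
      rw [le_div_iff₀ (by linarith)] at h1
      linarith
    · subst h; simp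
    · have h1 := hup r h
      rw [div_le_iff₀ (by linarith)] at h1
      linarith
  calc H r = Real.exp (L r) := (Real.exp_log (hpos r hr)).symm
    _ ≤ Real.exp (L 1 + c * (r - 1)) := Real.exp_le_exp.2 hkey
    _ = H 1 * Real.exp (c * (r - 1)) := by rw [Real.exp_add, Real.exp_log hH1]

end Pool.Agent.Helper584.KS
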