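import Pool.Agent.Helper584.KS.Defs
import Pool.Agent.Helper584.KS.P_body_facts
import Pool.Agent.Helper584.KS.P_sets2
import Pool.Agent.Helper584.KS.P_HT_facts
import Pool.Agent.Helper584.KS.P_HT_mid
import Pool.Agent.Helper584.KS.P_slope_lem
import Pool.Agent.Helper584.KS.P_mass_bound

open MeasureTheory Set
open scoped ENNReal RealInnerProductSpace

namespace Pool.Agent.Helper584.KS



theorem main_real {n : ℕ} {K T : Set (E n)} (hK : Body K) (hT : Body T) :
    (volume (K ∩ T)).toReal * (volume (pol K ∩ T)).toReal ≤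
      (1 + Real.sqrt (2 * Real.pi * n)) ^ 2 * HT T 1 ^ 2 := by
  obtain ⟨f1, f2, f3⟩ := HT_facts hT
  obtain ⟨c, hc0, hcn, hc⟩ := slope_lem n (HT T) f1 (fun r s _ h => f2 r s h)
    (fun r s hr hs => HT_mid hT r s hr hs) f3
  have hH1 : 0 < HT T 1 := f1 1 one_pos
  have hsn : 0 ≤ Real.sqrt (2 * Real.pi * n) := Real.sqrt_nonneg _
  rcases hc0.eq_or_lt with h0 | h0
  · obtain ⟨hm, hv0, hvt, _, R, hR, hTR⟩ := body_facts hT
    have h1 : (volume T).toReal ≤ HT T 1 := by
      have h2 := hc R hR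
      rw [← h0, zero_mul, Real.exp_zero, mul_one] at h2
      unfold HT at h2 ⊢
      rwa [Set.inter_eq_left.mpr hTR] at h2
    have hK1 : (volume (K ∩ T)).toReal ≤ HT T 1 :=
      (ENNReal.toReal_mono hvt.ne (measure_mono Set.inter_subset_right)).trans h1
    have hK2 : (volume (pol K ∩ T)).toReal ≤ HT T 1 :=
      (ENNReal.toReal_mono hvt.ne (measure_mono Set.inter_subset_right)).trans h1
    have h3 : (volume (K ∩ T)).toReal * (volume (pol K ∩ T)).toReal ≤ HT T 1 * HT T 1 :=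
      mul_le_mul hK1 hK2 ENNReal.toReal_nonneg hH1.le
    have h4 : 1 * (HT T 1 ^ 2) ≤ (1 + Real.sqrt (2 * Real.pi * n)) ^ 2 * HT T 1 ^ 2 := by
      apply mul_le_mul_of_nonneg_right _ (sq_nonneg _)
      nlinarith
    nlinarith
  · have h1 := sets2 hK hT c h0
    have h2 := mass_bound hT c h0 hc
    have h3 : 0 ≤ ∫ z in T, Real.exp (-(c * (‖z‖ ^ 2 / 2))) :=
      integral_nonneg fun z => (Real.exp_pos _).le
    have h4 := pow_le_pow_left₀ h3 h2 2
    have h5 := mul_le_mul_of_nonneg_left h4 (Real.exp_pos c).le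
    have h6 : Real.exp c * (HT T 1 * (Real.exp (-(c / 2)) *
        (1 + Real.sqrt (2 * Real.pi * c)))) ^ 2 =
        (1 + Real.sqrt (2 * Real.pi * c)) ^ 2 * HT T 1 ^ 2 := by
      have e1 : Real.exp c * Real.exp (-(c / 2)) ^ 2 = 1 := by
        rw [← Real.exp_nat_mul, ← Real.exp_add]
        have : c + ((2 : ℕ) : ℝ) * -(c / 2) = 0 := by push_cast; ring
        rw [this, Real.exp_zero]
      calc Real.exp c * (HT T 1 * (Real.exp (-(c / 2)) *
        (1 + Real.sqrt (2 * Real.pi * c)))) ^ 2 = (Real.exp c * Real.exp (-(c / 2)) ^ 2) *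
          ((1 + Real.sqrt (2 * Real.pi * c)) ^ 2 * HT T 1 ^ 2) := by ring
        _ = _ := by rw [e1, one_mul]
    rw [h6] at h5
    refine h1.trans (h5.trans ?_)
    apply mul_le_mul_of_nonneg_right _ (sq_nonneg _)
    have h7 : Real.sqrt (2 * Real.pi * c) ≤ Real.sqrt (2 * Real.pi * n) := by
      apply Real.sqrt_le_sqrt
      exact mul_le_mul_of_nonneg_left hcn (by positivity)
    have h8 : 0 ≤ Real.sqrt (2 * Real.pi * c) := Real.sqrt_nonneg _
    apply pow_le_pow_left₀ (by linarith)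
    linarith

end Pool.Agent.Helper584.KS
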