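import Pool.Agent.Helper584.KS.Defs
import Pool.Agent.Helper584.KS.P_main_real

open MeasureTheory Set
open scoped ENNReal RealInnerProductSpace

namespace Pool.Agent.Helper584.KS



theorem main_enn (n : ℕ) (K T : Set (EuclideanSpace ℝ (Fin n)))
    (hK : Convex ℝ K) (hKc : IsCompact K) (hKi : (interior K).Nonempty) (hKs : ∀ x ∈ K, -x ∈ K)
    (hT : Convex ℝ T) (hTc : IsCompact T) (hTi : (interior T).Nonempty) (hTs : ∀ x ∈ T, -x ∈ T) :
    volume (K ∩ T) * volume ({y : EuclideanSpace ℝ (Fin n) | ∀ x ∈ K, inner ℝ x y ≤ (1 : ℝ)} ∩ T)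
      ≤ ENNReal.ofReal ((1 + Real.sqrt (2 * Real.pi * n)) ^ 2) *
        volume (Metric.closedBall (0 : EuclideanSpace ℝ (Fin n)) 1 ∩ T) ^ 2 := by
  have h := main_real (K := K) (T := T) ⟨hK, hKc, hKs, hKi⟩ ⟨hT, hTc, hTs, hTi⟩
  have hTf : volume T ≠ ⊤ := hTc.measure_lt_top.ne
  have ha : volume (K ∩ T) ≠ ⊤ := measure_ne_top_of_subset inter_subset_right hTf
  have hb : volume (pol K ∩ T) ≠ ⊤ := measure_ne_top_of_subset inter_subset_right hTf
  have hc : volume (T ∩ Metric.closedBall (0 : EuclideanSpace ℝ (Fin n)) 1) ≠ ⊤ :=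
    measure_ne_top_of_subset inter_subset_left hTf
  have h2 := ENNReal.ofReal_le_ofReal h
  unfold HT at h2
  rw [ENNReal.ofReal_mul ENNReal.toReal_nonneg, ENNReal.ofReal_toReal ha, ENNReal.ofReal_toReal hb,
    ENNReal.ofReal_mul (sq_nonneg _), ENNReal.ofReal_pow ENNReal.toReal_nonneg,
    ENNReal.ofReal_toReal hc, inter_comm T] at h2
  exact h2

end Pool.Agent.Helper584.KS
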